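import Pool.Agent.Work.MP_a1177b_an.Defs

/-!
# The degenerate example `ℓ = 0`
-/

set_option autoImplicit false

open scoped ComplexConjugate ComplexOrder Topology

namespace MPa1177b

/-- `k(z,w) = exp(z conj w)` on `ℂ^1` -/
noncomputable def expKer (z w : Fin 1 → ℂ) : ℂ := Complex.exp (z 0 * conj (w 0))

lemma hasSum_expKer (z w : Fin 1 → ℂ) :
    HasSum (fun n : ℕ => (z 0 * conj (w 0)) ^ n / n.factorial) (expKer z w) := by
  unfold expKer
  rw [Complex.exp_eq_exp_ℂ]
  exact NormedSpace.expSeries_div_hasSum_exp (z 0 * conj (w 0))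

lemma isKernelOn_expKer : IsKernelOn (Set.univ : Set (Fin 1 → ℂ)) expKer := by
  constructor
  · ext x y
    simp only [Matrix.conjTranspose_apply, Matrix.of_apply, expKer]
    rw [Complex.star_def, ← Complex.exp_conj]
    simp [mul_comm]
  · intro v
    have h1 : HasSum (fun n : ℕ => v.sum fun i xi => v.sum fun j xj =>
        star xi * ((i.1 0 * conj (j.1 0)) ^ n / n.factorial) * xj)
        (v.sum fun i xi => v.sum fun j xj => star xi * expKer i j * xj) := by
      unfold Finsupp.sum
      refine hasSum_sum fun i _ => hasSum_sum fun j _ => ?_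
      exact ((hasSum_expKer i j).mul_left _).mul_right _
    refine h1.nonneg fun n => ?_
    have h2 : (v.sum fun i xi => v.sum fun j xj =>
        star xi * ((i.1 0 * conj (j.1 0)) ^ n / n.factorial) * xj) =
        ((n.factorial : ℂ))⁻¹ * ((v.sum fun i xi => star xi * (i.1 0) ^ n) *
          conj (v.sum fun i xi => star xi * (i.1 0) ^ n)) := by
      unfold Finsupp.sum
      rw [map_sum, Finset.sum_mul_sum, Finset.mul_sum]
      refine Finset.sum_congr rfl fun i _ => ?_
      rw [Finset.mul_sum]
      refine Finset.sum_congr rfl fun j _ => ?_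
      simp only [map_mul, map_pow, Complex.star_def, Complex.conj_conj, mul_pow]
      ring
    rw [h2, Complex.mul_conj]
    have h3 : (0 : ℂ) ≤ ((n.factorial : ℂ))⁻¹ := by
      rw [← Complex.ofReal_natCast, ← Complex.ofReal_inv, Complex.zero_le_real]
      positivity
    exact mul_nonneg h3 (Complex.zero_le_real.2 (Complex.normSq_nonneg _))

lemma isHolKernel_expKer : IsHolKernel (Set.univ : Set (Fin 1 → ℂ)) expKer := by
  refine ⟨isKernelOn_expKer, ?_⟩
  have : (fun p : (Fin 1 → ℂ) × (Fin 1 → ℂ) => expKer p.1 (star p.2)) =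
      fun p => Complex.exp (p.1 0 * p.2 0) := by
    funext p
    simp [expKer]
  rw [this]
  apply Differentiable.differentiableOn
  fun_prop

lemma isNormDiag_expKer : IsNormDiag expKer (fun a => ((a 0).factorial : ℝ)⁻¹) := by
  refine ⟨fun a => by positivity, by simp, Filter.Eventually.of_forall fun p => ?_⟩
  have h1 := hasSum_expKer p.1 p.2
  rw [← (Equiv.funUnique (Fin 1) ℕ).hasSum_iff] at h1
  refine h1.congr_fun fun a => ?_
  simp only [Function.comp_apply, mon, Finset.univ_unique, Fin.default_eq_zero, Fin.isValue,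
    Finset.prod_singleton, Equiv.funUnique_apply]
  push_cast
  rw [mul_pow, map_pow]
  ring

lemma isKernelOn_zero : IsKernelOn (Set.univ : Set (Fin 1 → ℂ)) (fun _ _ => 0) := by
  have : (Matrix.of fun _ _ : (Set.univ : Set (Fin 1 → ℂ)) => (0 : ℂ)) = 0 := by
    ext; rfl
  unfold IsKernelOn
  rw [this]
  exact Matrix.PosSemidef.zero

theorem degenerate_example :
    ∃ (k : (Fin 1 → ℂ) → (Fin 1 → ℂ) → ℂ) (c : (Fin 1 → ℕ) → ℝ),
      IsHolKernel Set.univ k ∧ IsNormDiag k c ∧
      IsHolKernel (Set.univ : Set (Fin 1 → ℂ)) (fun _ _ => 0) ∧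
      IsCPPair k (fun _ _ => 0) Set.univ := by
  refine ⟨expKer, _, isHolKernel_expKer, isNormDiag_expKer,
    ⟨isKernelOn_zero, differentiableOn_const _⟩, isKernelOn_expKer, isKernelOn_zero, ?_⟩
  intro J _ F _ W hW
  refine ⟨fun _ => 0, ?_, ?_⟩
  · intro x hx
    ext i j
    have h1 := hW.diag_nonneg (i := (⟨x, hx⟩, i))
    simp only [Matrix.of_apply, zero_smul, zero_sub, Matrix.neg_apply, Matrix.smul_apply,
      Matrix.mul_apply, Matrix.conjTranspose_apply, smul_eq_mul] at h1
    have h2 : expKer x x = ((Real.exp (Complex.normSq (x 0)) : ℝ) : ℂ) := by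
      unfold expKer
      rw [Complex.mul_conj, Complex.ofReal_exp]
    have h3 : ∑ j, W x i j * star (W x i j) = ((∑ j, Complex.normSq (W x i j) : ℝ) : ℂ) := by
      push_cast
      refine Finset.sum_congr rfl fun j _ => ?_
      rw [Complex.star_def, Complex.mul_conj]
    rw [h2, h3, ← Complex.ofReal_mul, ← Complex.ofReal_neg, Complex.zero_le_real] at h1
    have h4 : 0 < Real.exp (Complex.normSq (x 0)) := Real.exp_pos _
    have h5 : 0 ≤ ∑ j, Complex.normSq (W x i j) :=
      Finset.sum_nonneg fun j _ => Complex.normSq_nonneg _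
    have h6 : ∑ j, Complex.normSq (W x i j) = 0 := by
      by_contra h
      have : 0 < ∑ j, Complex.normSq (W x i j) := lt_of_le_of_ne h5 (Ne.symm h)
      have := mul_pos h4 this
      linarith
    have h7 := (Finset.sum_eq_zero_iff_of_nonneg (fun j _ => Complex.normSq_nonneg _)).1 h6 j
      (Finset.mem_univ j)
    rw [Complex.normSq_eq_zero] at h7
    rw [h7]; rfl
  · unfold MatPosOn
    convert Matrix.PosSemidef.zero using 1
    ext p q
    simp

end MPa1177b
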