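import Mathlib

open scoped ENNReal

namespace MPa1177b

variable {G : Type*} [AddCommGroup G]

/-- convolution of extended nonnegative functions on an abelian group -/
noncomputable def cv (f h : G → ℝ≥0∞) (b : G) : ℝ≥0∞ := ∑' u, f u * h (b - u)

lemma cv_comm (f h : G → ℝ≥0∞) : cv f h = cv h f := by
  ext b
  unfold cv
  rw [← (Equiv.subLeft b).tsum_eq (fun u => f u * h (b - u))]
  refine tsum_congr fun u => ?_
  simp [mul_comm]

lemma cv_assoc (f h k : G → ℝ≥0∞) : cv (cv f h) k = cv f (cv h k) := by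
  ext b
  unfold cv
  simp_rw [← ENNReal.tsum_mul_right, ← ENNReal.tsum_mul_left]
  rw [ENNReal.tsum_comm]
  refine tsum_congr fun v => ?_
  rw [← (Equiv.addRight v).tsum_eq (fun u => f v * h (u - v) * k (b - u))]
  refine tsum_congr fun w => ?_
  simp only [Equiv.coe_addRight, add_sub_cancel_right, mul_assoc]
  congr 3
  abel

lemma cv_add_right (f h k : G → ℝ≥0∞) : cv f (fun b => h b + k b) = fun b => cv f h b + cv f k b := by
  ext b
  unfold cv
  rw [← ENNReal.tsum_add]
  refine tsum_congr fun u => ?_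
  rw [mul_add]

lemma cv_add_left (f h k : G → ℝ≥0∞) : cv (fun b => h b + k b) f = fun b => cv h f b + cv k f b := by
  rw [cv_comm, cv_add_right, cv_comm f h, cv_comm f k]

/-- the unit -/
noncomputable def dl [DecidableEq G] (b : G) : ℝ≥0∞ := if b = 0 then 1 else 0

lemma cv_dl [DecidableEq G] (f : G → ℝ≥0∞) : cv dl f = f := by
  ext b
  unfold cv dl
  rw [tsum_eq_single 0]
  · simp
  · intro u hu
    simp [hu]

lemma tsum_cv (f h : G → ℝ≥0∞) : ∑' b, cv f h b = (∑' u, f u) * ∑' v, h v := by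
  unfold cv
  rw [ENNReal.tsum_comm, ← ENNReal.tsum_mul_right]
  refine tsum_congr fun u => ?_
  rw [ENNReal.tsum_mul_left]
  congr 1
  exact (Equiv.subRight u).tsum_eq h

lemma cv_mono_right (f : G → ℝ≥0∞) {h k : G → ℝ≥0∞} (hk : ∀ b, h b ≤ k b) (b : G) :
    cv f h b ≤ cv f k b :=
  ENNReal.tsum_le_tsum fun u => mul_le_mul_right (hk _) _

/-- iterated convolution powers -/
noncomputable def cpow [DecidableEq G] (M : G → ℝ≥0∞) : ℕ → G → ℝ≥0∞
  | 0 => dl
  | n + 1 => cv M (cpow M n)

/-- Neumann series -/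
noncomputable def neu [DecidableEq G] (M : G → ℝ≥0∞) (b : G) : ℝ≥0∞ := ∑' n, cpow M n b

lemma neu_eq [DecidableEq G] (M : G → ℝ≥0∞) (b : G) : neu M b = dl b + cv M (neu M) b := by
  unfold neu
  rw [tsum_eq_zero_add' ENNReal.summable]
  congr 1
  unfold cv
  simp_rw [← ENNReal.tsum_mul_left]
  rw [ENNReal.tsum_comm]
  rfl

lemma tsum_dl [DecidableEq G] : ∑' b : G, dl b = 1 := by
  unfold dl
  rw [tsum_eq_single 0]
  · simp
  · intro u hu
    simp [hu]

lemma tsum_cpow [DecidableEq G] (M : G → ℝ≥0∞) (n : ℕ) : ∑' b, cpow M n b = (∑' b, M b) ^ n := by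
  induction n with
  | zero => simpa [cpow] using tsum_dl (G := G)
  | succ n ih =>
    simp only [cpow]
    rw [tsum_cv, ih, pow_succ, mul_comm]

lemma tsum_neu [DecidableEq G] (M : G → ℝ≥0∞) : ∑' b, neu M b = (1 - ∑' b, M b)⁻¹ := by
  unfold neu
  rw [ENNReal.tsum_comm]
  simp_rw [tsum_cpow]
  exact ENNReal.tsum_geometric _

theorem positivity_lemma (M K T : G → ℝ≥0∞) (hM : ∑' b, M b < 1) (hK : ∑' b, K b ≠ ∞)
    (hK0 : K 0 = 1) (hMK : ∀ b, b ≠ 0 → K b ≤ cv M K b)
    (hT : ∑' b, T b ≠ ∞) (hTK : ∀ b, T b ≠ 0 → cv T K b = K b) : ∑' b, T b ≤ 1 := by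
  classical
  set A := ∑' b, M b with hA
  let U : G → ℝ≥0∞ := neu M
  have hUeq : ∀ b, U b = dl b + cv M U b := neu_eq M
  have hUsum : ∑' b, U b ≠ ∞ := by
    change ∑' b, neu M b ≠ ∞
    rw [tsum_neu]
    rw [ENNReal.inv_ne_top]
    exact (tsub_pos_of_lt hM).ne'
  let d : G → ℝ≥0∞ := fun b => if b = 0 then cv M K 0 else cv M K b - K b
  have hd : ∀ b, d b + K b = dl b + cv M K b := by
    intro b
    by_cases hb : b = 0
    · subst hb
      simp [d, dl, hK0, add_comm]
    · simp only [d, dl, hb, if_false, zero_add]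
      exact tsub_add_cancel_of_le (hMK b hb)
  have hSK1 : 1 ≤ ∑' b, K b := by rw [← hK0]; exact ENNReal.le_tsum 0
  have hD : ∑' b, d b < 1 := by
    have h1 : ∑' b, d b + ∑' b, K b = 1 + A * ∑' b, K b := by
      rw [← ENNReal.tsum_add, tsum_congr hd, ENNReal.tsum_add, tsum_dl, tsum_cv]
    have h2 : A * ∑' b, K b < 1 * ∑' b, K b :=
      ENNReal.mul_lt_mul_left (by
        intro h0; rw [h0] at hSK1; simp at hSK1) hK hM
    rw [one_mul] at h2
    have h3 : ∑' b, d b + ∑' b, K b < 1 + ∑' b, K b := by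
      rw [h1]
      exact ENNReal.add_lt_add_left ENNReal.one_ne_top h2
    exact (ENNReal.add_lt_add_iff_right hK).mp h3
  -- V = U * T
  let V : G → ℝ≥0∞ := cv U T
  have hV1 : ∀ b, V b = T b + cv M V b := by
    intro b
    have : V = fun b => T b + cv M V b := by
      change cv U T = _
      have hU' : U = fun b => dl b + cv M U b := funext hUeq
      conv_lhs => rw [hU']
      rw [cv_add_left, cv_dl, cv_assoc]
    exact congrFun this b
  have hcvK : ∀ b, cv K U b = K b + cv M (cv K U) b := by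
    intro b
    have hU' : U = fun b => dl b + cv M U b := funext hUeq
    have : cv K U = fun b => K b + cv M (cv K U) b := by
      conv_lhs => rw [hU']
      rw [cv_add_right, cv_comm K dl, cv_dl, ← cv_assoc K M U, cv_comm K M, cv_assoc M K U]
    exact congrFun this b
  have hfin1 : ∀ b, cv M (cv K U) b ≠ ∞ := by
    intro b h
    have h1 : cv M (cv K U) b ≤ ∑' b, cv M (cv K U) b := ENNReal.le_tsum b
    rw [h, tsum_cv, tsum_cv] at h1
    have h2 : A * ((∑' u, K u) * ∑' v, U v) ≠ ∞ :=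
      ENNReal.mul_ne_top hM.ne_top (ENNReal.mul_ne_top hK hUsum)
    exact h2 (top_le_iff.mp h1)
  have hU2 : ∀ b, U b = K b + cv d U b := by
    intro b
    have h1 : cv (fun b => d b + K b) U = cv (fun b => dl b + cv M K b) U := by
      congr 1
      exact funext hd
    rw [cv_add_left, cv_add_left, cv_dl, cv_assoc] at h1
    have h2 := congrFun h1 b
    beta_reduce at h2
    rw [hcvK b, ← add_assoc] at h2
    have h3 := (ENNReal.add_left_inj (hfin1 b)).mp h2
    rw [← h3, add_comm]
  have hV2 : ∀ b, V b = cv T K b + cv d V b := by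
    intro b
    have : V = fun b => cv T K b + cv d V b := by
      change cv U T = _
      have hU' : U = fun b => K b + cv d U b := funext hU2
      conv_lhs => rw [hU']
      rw [cv_add_left, cv_assoc, cv_comm K T]
    exact congrFun this b
  -- the constant
  set c : ℝ≥0∞ := ⨆ b, (V b - U b) with hc
  have hVsum : ∑' b, V b ≠ ∞ := by
    change ∑' b, cv U T b ≠ ∞
    rw [tsum_cv]
    exact ENNReal.mul_ne_top hUsum hT
  have hcfin : c ≠ ∞ := by
    refine ne_top_of_le_ne_top hVsum (iSup_le fun b => ?_)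
    exact tsub_le_self.trans (ENNReal.le_tsum b)
  have hVU : ∀ b, V b ≤ U b + c := by
    intro b
    have : V b - U b ≤ c := le_iSup (fun b => V b - U b) b
    exact tsub_le_iff_left.mp this
  have hconst : ∀ (f : G → ℝ≥0∞) (b : G), cv f V b ≤ cv f U b + (∑' u, f u) * c := by
    intro f b
    calc cv f V b ≤ cv f (fun b => U b + c) b := cv_mono_right f hVU b
      _ = cv f U b + cv f (fun _ => c) b := by rw [cv_add_right]
      _ = _ := by
        congr 1
        unfold cv
        rw [ENNReal.tsum_mul_right]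
  set ρ : ℝ≥0∞ := max A (∑' b, d b) with hρ
  have hρ1 : ρ < 1 := max_lt hM hD
  have hstep : ∀ b, V b - U b ≤ ρ * c := by
    intro b
    rw [tsub_le_iff_left]
    by_cases hTb : T b = 0
    · have h1 := hV1 b
      rw [hTb, zero_add] at h1
      rw [h1]
      refine (hconst M b).trans ?_
      refine add_le_add ?_ (mul_le_mul_left (le_max_left _ _) _)
      rw [hUeq b]
      exact le_add_self
    · rw [hV2 b, hTK b hTb, hU2 b, add_assoc]
      refine add_le_add le_rfl ((hconst d b).trans ?_)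
      exact add_le_add le_rfl (mul_le_mul_left (le_max_right _ _) _)
  have hc0 : c = 0 := by
    have h1 : c ≤ ρ * c := iSup_le hstep
    by_contra hne
    have h2 : ρ * c < 1 * c := ENNReal.mul_lt_mul_left hne hcfin hρ1
    rw [one_mul] at h2
    exact absurd h1 (not_le.mpr h2)
  have hle : ∀ b, V b ≤ U b := by
    intro b
    have := hVU b
    rwa [hc0, add_zero] at this
  have hfinal : (∑' b, U b) * ∑' b, T b ≤ (∑' b, U b) * 1 := by
    rw [mul_one, ← tsum_cv]
    exact ENNReal.tsum_le_tsum hle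
  have hU1 : ∑' b, U b ≠ 0 := by
    intro h0
    have h1 : U 0 ≤ ∑' b, U b := ENNReal.le_tsum 0
    rw [h0, hUeq 0] at h1
    simp [dl] at h1
  exact (ENNReal.mul_le_mul_iff_right hU1 hUsum).mp hfinal

end MPa1177b
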