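import Pool.Agent.Work.MP_a1177b_an.Defs

/-!
# Elementary facts on the master certificate
-/

namespace MPa1177b

open Finset

variable {g : ℕ}

lemma theta_zero (c : (Fin g → ℕ) → ℝ) : theta c 0 = 0 := by
  rw [theta]; simp

lemma theta_nonneg (c : (Fin g → ℕ) → ℝ) (hc : ∀ a, 0 < c a) (b : Fin g → ℕ) :
    0 ≤ theta c b := by
  rw [theta]
  split_ifs with h1 h2
  · exact le_rfl
  · exact (hc b).le
  · exact le_max_left _ _

lemma sum_single_one (j : Fin g) : ∑ i, (Pi.single j 1 : Fin g → ℕ) i = 1 := by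
  rw [Finset.sum_eq_single j]
  · simp
  · intro b _ hb; simp [hb]
  · intro h; exact absurd (Finset.mem_univ _) h

lemma theta_single (c : (Fin g → ℕ) → ℝ) (j : Fin g) :
    theta c (Pi.single j 1) = c (Pi.single j 1) := by
  have h0 : (Pi.single j 1 : Fin g → ℕ) ≠ 0 := by
    intro h
    have := congrFun h j
    simp at this
  rw [theta, if_neg h0, if_pos (sum_single_one j)]

/-- If `|b| = 1`, the proper nonzero lower part is empty. -/
lemma erase_Iio_empty {b : Fin g → ℕ} (hb : ∑ j, b j = 1) : (Finset.Iio b).erase 0 = ∅ := by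
  rw [Finset.eq_empty_iff_forall_notMem]
  intro w hw
  have h1 := (Finset.mem_erase.mp hw).2
  have h0 := (Finset.mem_erase.mp hw).1
  have h2 := Finset.mem_Iio.mp h1
  have h3 : ∑ j, w j < ∑ j, b j := Finset.sum_lt_sum (fun i _ => h2.le i) (by
    obtain ⟨_, i, hi⟩ := Pi.lt_def.mp h2
    exact ⟨i, Finset.mem_univ i, hi⟩)
  rw [hb] at h3
  have h4 : ∑ j, w j = 0 := by omega
  rw [Finset.sum_eq_zero_iff] at h4
  exact h0 (funext fun j => h4 j (Finset.mem_univ j))

/-- Uniform form of the recursion. -/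
lemma theta_eq_max (c : (Fin g → ℕ) → ℝ) (hc : ∀ a, 0 < c a) {b : Fin g → ℕ} (hb : b ≠ 0) :
    theta c b = max 0 (c b - ∑ w ∈ (Finset.Iio b).erase 0, theta c w * c (b - w)) := by
  rw [theta, if_neg hb]
  split_ifs with h
  · rw [erase_Iio_empty h, Finset.sum_empty, sub_zero, max_eq_right (hc b).le]
  · congr 2
    exact Finset.sum_attach ((Finset.Iio b).erase 0) (fun w => theta c w * c (b - w))

lemma theta_conv (c : (Fin g → ℕ) → ℝ) (hc : ∀ a, 0 < c a) (hc0 : c 0 = 1)
    {b : Fin g → ℕ} (hb : theta c b ≠ 0) :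
    ∑ w ∈ Finset.Iic b, theta c w * c (b - w) = c b := by
  have hb0 : b ≠ 0 := by
    rintro rfl
    exact hb (theta_zero c)
  have h1 := theta_eq_max c hc hb0
  have h2 : theta c b = c b - ∑ w ∈ (Finset.Iio b).erase 0, theta c w * c (b - w) := by
    rcases max_choice 0 (c b - ∑ w ∈ (Finset.Iio b).erase 0, theta c w * c (b - w)) with h | h
    · rw [h] at h1; exact absurd h1 hb
    · rw [h] at h1; exact h1
  have h3 : ∑ w ∈ Finset.Iic b, theta c w * c (b - w) =
      theta c b + ∑ w ∈ Finset.Iio b, theta c w * c (b - w) := by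
    rw [← Finset.Iio_insert, Finset.sum_insert (by simp)]
    simp [hc0]
  have h4 : ∑ w ∈ Finset.Iio b, theta c w * c (b - w) =
      ∑ w ∈ (Finset.Iio b).erase 0, theta c w * c (b - w) := by
    symm
    apply Finset.sum_subset (Finset.erase_subset _ _)
    intro w hw hw'
    have : w = 0 := by
      by_contra h
      exact hw' (Finset.mem_erase.2 ⟨h, hw⟩)
    rw [this, theta_zero, zero_mul]
  rw [h3, h4, h2]
  ring

/-- Without the condition `theta c b ≠ 0` there is still an inequality. -/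
lemma theta_conv_ge (c : (Fin g → ℕ) → ℝ) (hc : ∀ a, 0 < c a) (hc0 : c 0 = 1)
    {b : Fin g → ℕ} (hb : b ≠ 0) :
    c b ≤ ∑ w ∈ Finset.Iic b, theta c w * c (b - w) := by
  have h1 := theta_eq_max c hc hb
  have h3 : ∑ w ∈ Finset.Iic b, theta c w * c (b - w) =
      theta c b + ∑ w ∈ Finset.Iio b, theta c w * c (b - w) := by
    rw [← Finset.Iio_insert, Finset.sum_insert (by simp)]
    simp [hc0]
  have h4 : ∑ w ∈ Finset.Iio b, theta c w * c (b - w) =
      ∑ w ∈ (Finset.Iio b).erase 0, theta c w * c (b - w) := by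
    symm
    apply Finset.sum_subset (Finset.erase_subset _ _)
    intro w hw hw'
    have : w = 0 := by
      by_contra h
      exact hw' (Finset.mem_erase.2 ⟨h, hw⟩)
    rw [this, theta_zero, zero_mul]
  rw [h3, h4]
  have := le_max_right 0 (c b - ∑ w ∈ (Finset.Iio b).erase 0, theta c w * c (b - w))
  rw [← h1] at this
  linarith

end MPa1177b
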