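import Pool.Agent.Work.MP_a1177b_an.Limit
import Pool.Agent.Work.MP_a1177b_an.RLemma
import Pool.Agent.Work.MP_a1177b_an.Theta

open Finset Filter Topology
open scoped ENNReal

namespace MPa1177b

variable {g : ℕ}

/-- weight `r^{2a}` -/
noncomputable def wt (r : Fin g → ℝ) (a : Fin g → ℕ) : ℝ := (∏ j, r j ^ a j) ^ 2

lemma wt_pos {r : Fin g → ℝ} (hr : ∀ j, 0 < r j) (a : Fin g → ℕ) : 0 < wt r a := by
  unfold wt
  have : 0 < ∏ j, r j ^ a j := Finset.prod_pos fun j _ => pow_pos (hr j) _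
  positivity

lemma wt_zero (r : Fin g → ℝ) : wt r 0 = 1 := by simp [wt]

lemma wt_add (r : Fin g → ℝ) (a b : Fin g → ℕ) : wt r (a + b) = wt r a * wt r b := by
  unfold wt
  rw [← mul_pow, ← Finset.prod_mul_distrib]
  congr 1
  refine Finset.prod_congr rfl fun j _ => ?_
  rw [Pi.add_apply, pow_add]

lemma wt_sub (r : Fin g → ℝ) {a b : Fin g → ℕ} (h : a ≤ b) : wt r a * wt r (b - a) = wt r b := by
  rw [← wt_add, add_tsub_cancel_of_le h]

/-- extension by zero from `ℕ^g` to `ℤ^g` -/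
noncomputable def ext0 (f : (Fin g → ℕ) → ℝ≥0∞) : (Fin g → ℤ) → ℝ≥0∞ := Function.extend inat f 0

lemma ext0_inat (f : (Fin g → ℕ) → ℝ≥0∞) (a : Fin g → ℕ) : ext0 f (inat a) = f a :=
  inat_injective.extend_apply f 0 a

lemma ext0_not (f : (Fin g → ℕ) → ℝ≥0∞) {b : Fin g → ℤ} (hb : ¬ ∃ a, inat a = b) :
    ext0 f b = 0 := by
  unfold ext0
  rw [Function.extend_apply' _ _ _ hb]
  rfl

lemma tsum_ext0 (f : (Fin g → ℕ) → ℝ≥0∞) : ∑' b, ext0 f b = ∑' a, f a :=
  tsum_extend_zero inat_injective f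

lemma cv_ext0 (f : (Fin g → ℕ) → ℝ≥0∞) (h : (Fin g → ℤ) → ℝ≥0∞) (b : Fin g → ℤ) :
    cv (ext0 f) h b = ∑' a, f a * h (b - inat a) := by
  unfold cv
  rw [← inat_injective.tsum_eq]
  · refine tsum_congr fun a => ?_
    rw [ext0_inat]
  · intro u hu
    by_contra hcon
    apply hu
    rw [Set.mem_range] at hcon
    beta_reduce
    rw [ext0_not f hcon, zero_mul]

lemma inat_sub {a b : Fin g → ℕ} (h : a ≤ b) : inat b - inat a = inat (b - a) := by
  funext j
  have h1 : a j ≤ b j := h j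
  change (b j : ℤ) - (a j : ℤ) = ((b j - a j : ℕ) : ℤ)
  omega

lemma inat_sub_not {a b : Fin g → ℕ} (h : ¬ a ≤ b) : ¬ ∃ d, inat d = inat b - inat a := by
  rintro ⟨d, hd⟩
  apply h
  intro j
  have h1 : (d j : ℤ) = (b j : ℤ) - (a j : ℤ) := congrFun hd j
  change a j ≤ b j
  omega

set_option maxHeartbeats 1000000 in
theorem final_positivity {c : (Fin g → ℕ) → ℝ} (hc : ∀ a, 0 < c a) (hc0 : c 0 = 1)
    {r : Fin g → ℝ} (hr : ∀ j, 0 < r j) (hWs : Summable fun a => c a * wt r a) {κ A : ℝ}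
    (hκ : 0 < κ) (hκA : κ * A < 1) (M : (Fin g → ℤ) → ℝ) (hM0 : ∀ b, 0 ≤ M b)
    (hMA : ∀ B : Finset (Fin g → ℤ), ∑ b ∈ B, M b ≤ A)
    (hM : ∀ b : Fin g → ℕ, b ≠ 0 →
      c b * wt r b / κ ≤ ∑' a : Fin g → ℕ, (c a * wt r a) * M (inat b - inat a))
    (A₀ : Finset (Fin g → ℕ)) : ∑ a ∈ A₀, theta c a * wt r a ≤ 1 := by
  classical
  have hW0 : ∀ a, 0 ≤ c a * wt r a := fun a => mul_nonneg (hc a).le (wt_pos hr a).le
  have hθ0 : ∀ a, 0 ≤ theta c a * wt r a := fun a =>
    mul_nonneg (theta_nonneg c hc a) (wt_pos hr a).le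
  set Box : Finset (Fin g → ℕ) := Finset.Iic (A₀.sup id) with hBox
  have hABox : A₀ ⊆ Box := by
    intro a ha
    rw [hBox, Finset.mem_Iic]
    exact Finset.le_sup (f := id) ha
  let Kf := ext0 (fun a : Fin g → ℕ => ENNReal.ofReal (c a * wt r a))
  let Tf := ext0 (fun a : Fin g → ℕ => if a ∈ Box then ENNReal.ofReal (theta c a * wt r a) else 0)
  let Mf : (Fin g → ℤ) → ℝ≥0∞ := fun b => ENNReal.ofReal (κ * M b)
  have hMbd : ∀ b, M b ≤ A := fun b => by simpa using hMA {b}
  have hTsum : ∑' b, Tf b = ∑ a ∈ Box, ENNReal.ofReal (theta c a * wt r a) := by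
    change ∑' b, ext0 _ b = _
    rw [tsum_ext0, tsum_eq_sum (s := Box)]
    · refine Finset.sum_congr rfl fun a ha => ?_
      rw [if_pos ha]
    · intro a ha
      rw [if_neg ha]
  have key := positivity_lemma Mf Kf Tf ?_ ?_ ?_ ?_ ?_ ?_
  · rw [hTsum, ← ENNReal.ofReal_sum_of_nonneg (fun a _ => hθ0 a)] at key
    have h1 : ∑ a ∈ Box, theta c a * wt r a ≤ 1 := by
      rwa [← ENNReal.ofReal_one, ENNReal.ofReal_le_ofReal_iff zero_le_one] at key
    exact (Finset.sum_le_sum_of_subset_of_nonneg hABox fun a _ _ => hθ0 a).trans h1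
  · -- ∑ M < 1
    refine lt_of_le_of_lt (b := ENNReal.ofReal (κ * A)) ?_ ?_
    · rw [ENNReal.tsum_eq_iSup_sum]
      refine iSup_le fun B => ?_
      change ∑ b ∈ B, ENNReal.ofReal (κ * M b) ≤ _
      rw [← ENNReal.ofReal_sum_of_nonneg (fun b _ => mul_nonneg hκ.le (hM0 b)),
        ← Finset.mul_sum]
      exact ENNReal.ofReal_le_ofReal (mul_le_mul_of_nonneg_left (hMA B) hκ.le)
    · rw [← ENNReal.ofReal_one]
      exact (ENNReal.ofReal_lt_ofReal_iff one_pos).mpr hκA
  · -- ∑ K finite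
    change ∑' b, ext0 _ b ≠ ∞
    rw [tsum_ext0, ← ENNReal.ofReal_tsum_of_nonneg hW0 hWs]
    exact ENNReal.ofReal_ne_top
  · -- K 0 = 1
    have h0 : (0 : Fin g → ℤ) = inat 0 := by
      funext j; simp [inat]
    change ext0 _ 0 = 1
    rw [h0, ext0_inat, hc0, wt_zero]
    simp
  · -- main inequality
    intro b hb
    by_cases hbr : ∃ b0, inat b0 = b
    · obtain ⟨b0, rfl⟩ := hbr
      have hb0 : b0 ≠ 0 := by
        rintro rfl
        apply hb
        funext j
        simp [inat]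
      rw [cv_comm]
      change ext0 _ (inat b0) ≤ cv (ext0 _) Mf (inat b0)
      rw [ext0_inat, cv_ext0]
      have hS : Summable (fun a : Fin g → ℕ => (c a * wt r a) * (κ * M (inat b0 - inat a))) := by
        refine Summable.of_nonneg_of_le (fun a => mul_nonneg (hW0 a)
          (mul_nonneg hκ.le (hM0 _))) (fun a => ?_) (hWs.mul_right (κ * A))
        exact mul_le_mul_of_nonneg_left (mul_le_mul_of_nonneg_left (hMbd _) hκ.le) (hW0 a)
      have e1 : ∑' a : Fin g → ℕ, ENNReal.ofReal (c a * wt r a) * Mf (inat b0 - inat a) =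
          ENNReal.ofReal (∑' a : Fin g → ℕ, (c a * wt r a) * (κ * M (inat b0 - inat a))) := by
        rw [ENNReal.ofReal_tsum_of_nonneg (fun a => mul_nonneg (hW0 a)
          (mul_nonneg hκ.le (hM0 _))) hS]
        refine tsum_congr fun a => ?_
        rw [ENNReal.ofReal_mul (hW0 a)]
      rw [e1]
      refine ENNReal.ofReal_le_ofReal ?_
      have e2 : ∑' a : Fin g → ℕ, (c a * wt r a) * (κ * M (inat b0 - inat a)) =
          κ * ∑' a : Fin g → ℕ, (c a * wt r a) * M (inat b0 - inat a) := by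
        rw [← tsum_mul_left]
        refine tsum_congr fun a => ?_
        ring
      rw [e2]
      have e3 := hM b0 hb0
      rw [div_le_iff₀ hκ] at e3
      linarith
    · change ext0 _ b ≤ _
      rw [ext0_not _ hbr]
      exact bot_le
  · -- ∑ T finite
    rw [hTsum]
    exact ENNReal.sum_ne_top.mpr fun a _ => ENNReal.ofReal_ne_top
  · -- T * K = K on the support of T
    intro b hb
    have hbr : ∃ b0, inat b0 = b := by
      by_contra hcon
      exact hb (ext0_not _ hcon)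
    obtain ⟨b0, rfl⟩ := hbr
    change ext0 _ (inat b0) ≠ 0 at hb
    rw [ext0_inat] at hb
    have hbB : b0 ∈ Box := by
      by_contra hcon
      exact hb (if_neg hcon)
    rw [if_pos hbB] at hb
    have hθb : theta c b0 ≠ 0 := by
      intro h0
      apply hb
      rw [h0, zero_mul, ENNReal.ofReal_zero]
    change cv (ext0 _) Kf (inat b0) = ext0 _ (inat b0)
    rw [cv_ext0, ext0_inat]
    have hsub : Finset.Iic b0 ⊆ Box := by
      intro a ha
      rw [hBox, Finset.mem_Iic] at *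
      exact ha.trans hbB
    rw [tsum_eq_sum (s := Finset.Iic b0)]
    · have e1 : ∀ a ∈ Finset.Iic b0, (if a ∈ Box then ENNReal.ofReal (theta c a * wt r a) else 0) *
          Kf (inat b0 - inat a) = ENNReal.ofReal (wt r b0 * (theta c a * c (b0 - a))) := by
        intro a ha
        have hab := Finset.mem_Iic.mp ha
        rw [if_pos (hsub ha), inat_sub hab]
        change _ * ext0 _ (inat (b0 - a)) = _
        rw [ext0_inat, ← ENNReal.ofReal_mul (hθ0 a)]
        congr 1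
        rw [← wt_sub r hab]
        ring
      rw [Finset.sum_congr rfl e1, ← ENNReal.ofReal_sum_of_nonneg, ← Finset.mul_sum,
        theta_conv c hc hc0 hθb, mul_comm]
      intro a _
      exact mul_nonneg (wt_pos hr b0).le (mul_nonneg (theta_nonneg c hc a) (hc _).le)
    · intro a ha
      have hab : ¬ a ≤ b0 := fun h => ha (Finset.mem_Iic.mpr h)
      change _ * ext0 _ (inat b0 - inat a) = 0
      rw [ext0_not _ (inat_sub_not hab), mul_zero]

end MPa1177b
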