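import Mathlib

open scoped ComplexConjugate ComplexOrder

namespace MPa1177b

/-- A *kernel* on the set `X`: a positive semidefinite function `X × X → ℂ`. -/
def IsKernelOn {α : Type*} (X : Set α) (f : α → α → ℂ) : Prop :=
  (Matrix.of fun x y : X => f x y).PosSemidef

/-- `[H(x,y)]_{x,y ∈ X} ⪰ 0` for a function with values in the `J × J` matrices. -/
def MatPosOn {α : Type*} (X : Set α) {J : ℕ} (H : α → α → Matrix (Fin J) (Fin J) ℂ) : Prop :=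
  (Matrix.of fun p q : X × Fin J => H p.1 q.1 p.2 q.2).PosSemidef

/-- The pair of kernels `(k, l)` on `X` is a *complete Pick pair*. -/
def IsCPPair {α : Type*} (k l : α → α → ℂ) (X : Set α) : Prop :=
  IsKernelOn X k ∧ IsKernelOn X l ∧
    ∀ J : ℕ, 1 ≤ J → ∀ F : Finset α, (F : Set α) ⊆ X → ∀ W : α → Matrix (Fin J) (Fin J) ℂ,
      MatPosOn (F : Set α) (fun x y =>
        l x y • (1 : Matrix (Fin J) (Fin J) ℂ) - k x y • (W x * (W y).conjTranspose)) →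
      ∃ Φ : α → Matrix (Fin J) (Fin J) ℂ, (∀ x ∈ F, Φ x = W x) ∧
        MatPosOn X (fun x y =>
          l x y • (1 : Matrix (Fin J) (Fin J) ℂ) - k x y • (Φ x * (Φ y).conjTranspose))

/-- Multi-index monomial `z^a`. -/
noncomputable def mon {g : ℕ} (a : Fin g → ℕ) (z : Fin g → ℂ) : ℂ := ∏ j, z j ^ a j

/-- A *holomorphic kernel* on the open set `Ω ⊆ ℂ^g`: a kernel `f(z,w)` on `Ω` that is
holomorphic in `(z, conj w)`. -/
def IsHolKernel {g : ℕ} (Ω : Set (Fin g → ℂ)) (f : (Fin g → ℂ) → (Fin g → ℂ) → ℂ) : Prop :=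
  IsKernelOn Ω f ∧
    DifferentiableOn ℂ (fun p : (Fin g → ℂ) × (Fin g → ℂ) => f p.1 (star p.2))
      {p | p.1 ∈ Ω ∧ star p.2 ∈ Ω}

/-- `k` is *normalized diagonal* with coefficients `c`: near the origin
`k(z,w) = ∑ c_a z^a conj(w)^a`, with all `c_a > 0` and `c_0 = 1`. -/
def IsNormDiag {g : ℕ} (k : (Fin g → ℂ) → (Fin g → ℂ) → ℂ) (c : (Fin g → ℕ) → ℝ) : Prop :=
  (∀ a, 0 < c a) ∧ c 0 = 1 ∧
    ∀ᶠ p : (Fin g → ℂ) × (Fin g → ℂ) in nhds 0,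
      HasSum (fun a => (c a : ℂ) * mon a p.1 * conj (mon a p.2)) (k p.1 p.2)

/-- The *master certificate* `ϑ` of a coefficient family `c`: `ϑ_0 = 0`, `ϑ_b = c_b` for
`|b| = 1`, and `ϑ_b = max(0, c_b - ∑_{w+u=b, w,u ≠ 0} ϑ_w c_u)` for `|b| ≥ 2`. -/
noncomputable def theta {g : ℕ} (c : (Fin g → ℕ) → ℝ) (b : Fin g → ℕ) : ℝ :=
  if b = 0 then 0
  else if ∑ j, b j = 1 then c b
  else max 0 (c b - ∑ w ∈ ((Finset.Iio b).erase 0).attach, theta c w.1 * c (b - w.1))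
termination_by ∑ j, b j
decreasing_by
  have h1 := (Finset.mem_erase.mp w.2).2
  have h2 := Finset.mem_Iio.mp h1
  exact Finset.sum_lt_sum (fun i _ => h2.le i) (by
    obtain ⟨_, i, hi⟩ := Pi.lt_def.mp h2
    exact ⟨i, Finset.mem_univ i, hi⟩)

/-- `|x|^{2a}` -/
noncomputable def absPow {g : ℕ} (x : Fin g → ℂ) (a : Fin g → ℕ) : ℝ := ∏ j, ‖x j‖ ^ (2 * a j)

/-- `Ω_ϑ`: interior of the set where `ϑ_a |x|^{2a}` is bounded in `a`. -/
def OmegaTheta {g : ℕ} (θ : (Fin g → ℕ) → ℝ) : Set (Fin g → ℂ) :=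
  interior {x | BddAbove (Set.range fun a => θ a * absPow x a)}

/-- `Ω¹_ϑ = {x ∈ Ω_ϑ : ∑_{a ≠ 0} ϑ_a |x|^{2a} < 1}`. -/
def OmegaThetaOne {g : ℕ} (θ : (Fin g → ℕ) → ℝ) : Set (Fin g → ℂ) :=
  {x ∈ OmegaTheta θ | Summable (fun a : {a : Fin g → ℕ // a ≠ 0} => θ a * absPow x a) ∧
    ∑' a : {a : Fin g → ℕ // a ≠ 0}, θ a * absPow x a < 1}

end MPa1177b
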