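import Pool.Agent.Work.MP_a1177b_an.NC
import Pool.Agent.Work.MP_a1177b_an.Defs

open scoped ComplexConjugate ComplexOrder
open Finset

namespace MPa1177b

/-- quadratic form of the Pick matrix in vector language -/
lemma matPos_iff {κ : Type*} [Fintype κ] {J : ℕ} (K L : κ → κ → ℂ) (hK : Herm univ K)
    (hL : Herm univ L) (V : κ → Matrix (Fin J) (Fin J) ℂ) :
    (Matrix.of fun p q : κ × Fin J => (L p.1 q.1 • (1 : Matrix (Fin J) (Fin J) ℂ) -
      K p.1 q.1 • (V p.1 * (V q.1).conjTranspose)) p.2 q.2).PosSemidef ↔
    ∀ u : κ → EuclideanSpace ℂ (Fin J), 0 ≤ qv univ L u -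
      qv univ K (fun i => (WithLp.toLp 2 ((V i).conjTranspose.mulVec (u i)) :
        EuclideanSpace ℂ (Fin J))) := by
  classical
  have hH : (Matrix.of fun p q : κ × Fin J => (L p.1 q.1 • (1 : Matrix (Fin J) (Fin J) ℂ) -
      K p.1 q.1 • (V p.1 * (V q.1).conjTranspose)) p.2 q.2).IsHermitian := by
    ext p q
    simp only [Matrix.conjTranspose_apply, Matrix.of_apply, Matrix.sub_apply, Matrix.smul_apply,
      Matrix.one_apply, smul_eq_mul, star_sub, star_mul']
    have e1 : star (L q.1 p.1) = L p.1 q.1 := (hL q.1 (mem_univ _) p.1 (mem_univ _)).symm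
    have e2 : star (K q.1 p.1) = K p.1 q.1 := (hK q.1 (mem_univ _) p.1 (mem_univ _)).symm
    rw [e1, e2]
    congr 1
    · by_cases h : p.2 = q.2
      · simp [h]
      · simp [h, Ne.symm h]
    · congr 1
      simp only [Matrix.mul_apply, Matrix.conjTranspose_apply, star_sum, star_mul', star_star]
      exact Finset.sum_congr rfl fun _ _ => mul_comm _ _
  have hform : ∀ u : κ → EuclideanSpace ℂ (Fin J),
      (star (fun p : κ × Fin J => u p.1 p.2) ⬝ᵥ
        (Matrix.of fun p q : κ × Fin J => (L p.1 q.1 • (1 : Matrix (Fin J) (Fin J) ℂ) -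
      K p.1 q.1 • (V p.1 * (V q.1).conjTranspose)) p.2 q.2).mulVec
        (fun p : κ × Fin J => u p.1 p.2)).re = qv univ L u -
      qv univ K (fun i => (WithLp.toLp 2 ((V i).conjTranspose.mulVec (u i)) :
        EuclideanSpace ℂ (Fin J))) := by
    intro u
    unfold qv
    rw [← Complex.sub_re]
    congr 1
    simp only [dotProduct, Matrix.mulVec, Fintype.sum_prod_type, Pi.star_apply, Matrix.of_apply]
    rw [← Finset.sum_sub_distrib]
    refine Finset.sum_congr rfl fun x _ => ?_
    rw [← Finset.sum_sub_distrib]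
    simp only [Finset.mul_sum]
    rw [Finset.sum_comm]
    refine Finset.sum_congr rfl fun y _ => ?_
    have e1 : L x y * inner ℂ (u x) (u y) = ∑ i, ∑ j, star (u x i) *
        ((L x y • (1 : Matrix (Fin J) (Fin J) ℂ)) i j * u y j) := by
      rw [PiLp.inner_apply, Finset.mul_sum]
      refine Finset.sum_congr rfl fun i _ => ?_
      rw [Finset.sum_eq_single i]
      · simp
        ring
      · intro b _ hb
        simp [Ne.symm hb]
      · simp
    have e2 : K x y * inner ℂ ((WithLp.toLp 2 ((V x).conjTranspose.mulVec (u x)) :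
        EuclideanSpace ℂ (Fin J))) ((WithLp.toLp 2 ((V y).conjTranspose.mulVec (u y)) :
        EuclideanSpace ℂ (Fin J))) = ∑ i, ∑ j, star (u x i) *
        ((K x y • (V x * (V y).conjTranspose)) i j * u y j) := by
      have e3 : inner ℂ ((WithLp.toLp 2 ((V x).conjTranspose.mulVec (u x)) :
          EuclideanSpace ℂ (Fin J))) ((WithLp.toLp 2 ((V y).conjTranspose.mulVec (u y)) :
          EuclideanSpace ℂ (Fin J))) =
          ∑ i, (∑ l, V x l i * star (u x l)) * (∑ j, star (V y j i) * u y j) := by
        rw [PiLp.inner_apply]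
        refine Finset.sum_congr rfl fun i _ => ?_
        simp only [Matrix.mulVec, dotProduct, Matrix.conjTranspose_apply, RCLike.inner_apply,
          map_sum, map_mul]
        rw [mul_comm]
        congr 1
        refine Finset.sum_congr rfl fun l _ => ?_
        simp
      have e4 : ∀ l j, star (u x l) * ((K x y • (V x * (V y).conjTranspose)) l j * u y j) =
          ∑ i, K x y * ((V x l i * star (u x l)) * (star (V y j i) * u y j)) := by
        intro l j
        simp only [Matrix.smul_apply, Matrix.mul_apply, Matrix.conjTranspose_apply, smul_eq_mul,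
          Finset.mul_sum, Finset.sum_mul]
        refine Finset.sum_congr rfl fun i _ => ?_
        ring
      simp_rw [e4]
      rw [e3, Finset.mul_sum]
      have e5 : ∀ i, K x y * ((∑ l, V x l i * star (u x l)) * (∑ j, star (V y j i) * u y j)) =
          ∑ l, ∑ j, K x y * ((V x l i * star (u x l)) * (star (V y j i) * u y j)) := by
        intro i
        rw [Finset.sum_mul_sum, Finset.mul_sum]
        refine Finset.sum_congr rfl fun l _ => ?_
        rw [Finset.mul_sum]
      rw [Finset.sum_congr rfl fun i _ => e5 i, Finset.sum_comm]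
      refine Finset.sum_congr rfl fun l _ => ?_
      rw [Finset.sum_comm]
    rw [e1, e2, ← Finset.sum_sub_distrib]
    refine Finset.sum_congr rfl fun i _ => ?_
    rw [← Finset.sum_sub_distrib]
    refine Finset.sum_congr rfl fun j _ => ?_
    rw [Matrix.sub_apply]
    ring
  constructor
  · intro h u
    rw [← hform u]
    have := (Matrix.posSemidef_iff_dotProduct_mulVec.mp h).2 (fun p : κ × Fin J => u p.1 p.2)
    exact (Complex.nonneg_iff.mp this).1
  · intro h
    rw [Matrix.posSemidef_iff_dotProduct_mulVec]
    refine ⟨hH, fun v => ?_⟩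
    rw [Complex.nonneg_iff]
    refine ⟨?_, ?_⟩
    · have h1 := h (fun i => WithLp.toLp 2 (fun j => v (i, j)))
      rw [← hform] at h1
      exact h1
    · have := hH.im_star_dotProduct_mulVec_self v
      simpa using this.symm

end MPa1177b
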