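import Pool.Agent.Work.MP_a1177b_an.Extend

open scoped ComplexConjugate ComplexOrder
open Finset

namespace MPa1177b

lemma PSD.hmul {β : Type*} {F : Finset β} {A B : β → β → ℂ} (hA : PSD F A) (hB : PSD F B) :
    PSD F (fun x y => A x y * B x y) := by
  refine ⟨hA.1.mul hB.1, fun u => ?_⟩
  obtain ⟨c, hc⟩ := hB.exists_gram
  have : qf F (fun x y => A x y * B x y) u = qv F A (fun y => u y • c y) := by
    unfold qf qv
    congr 1
    refine Finset.sum_congr rfl fun x hx => Finset.sum_congr rfl fun y hy => ?_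
    beta_reduce
    rw [hc x hx y hy, inner_smul_left, inner_smul_right]
    ring
  rw [this]
  exact qv_nonneg hA _

lemma psd_of_kernel {α : Type*} {X : Set α} {f : α → α → ℂ} (h : IsKernelOn X f) {ι : Type*}
    (pt : ι → α) (hpt : ∀ i, pt i ∈ X) (F : Finset ι) : PSD F (fun i j => f (pt i) (pt j)) := by
  classical
  refine ⟨herm_pt h pt hpt F, fun u => ?_⟩
  have h1 := h.submatrix (fun i : ↥F => (⟨pt i, hpt i⟩ : X))
  have h2 := (Matrix.posSemidef_iff_dotProduct_mulVec.mp h1).2 (fun i => u i)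
  have h3 := (Complex.nonneg_iff.mp h2).1
  convert h3 using 1
  unfold qf
  congr 1
  simp only [dotProduct, Matrix.mulVec, Pi.star_apply, Matrix.submatrix_apply, Matrix.of_apply,
    Finset.mul_sum]
  rw [← Finset.sum_coe_sort F]
  refine Finset.sum_congr rfl fun x _ => ?_
  rw [← Finset.sum_coe_sort F]
  refine Finset.sum_congr rfl fun y _ => ?_
  simp
  ring

lemma psd_diag {β : Type*} [DecidableEq β] (F : Finset β) {ε : ℝ} (hε : 0 ≤ ε) :
    PSD F (fun a b => if a = b then (ε : ℂ) else 0) :=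
  ⟨herm_diag F ε, fun u => by
    rw [qf_diag]; exact mul_nonneg hε (Finset.sum_nonneg fun _ _ => by positivity)⟩

/-- block diagonal kernel -/
def blk {β γ : Type*} (A : β → β → ℂ) (B : γ → γ → ℂ) : β ⊕ γ → β ⊕ γ → ℂ
  | Sum.inl a, Sum.inl b => A a b
  | Sum.inr a, Sum.inr b => B a b
  | Sum.inl _, Sum.inr _ => 0
  | Sum.inr _, Sum.inl _ => 0

lemma psd_blk {β γ : Type*} {F : Finset β} {G : Finset γ} {A : β → β → ℂ} {B : γ → γ → ℂ}
    (hA : PSD F A) (hB : PSD G B) : PSD (F.disjSum G) (blk A B) := by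
  refine ⟨?_, fun u => ?_⟩
  · rintro (a | a) ha (b | b) hb
    · exact hA.1 a (Finset.inl_mem_disjSum.mp ha) b (Finset.inl_mem_disjSum.mp hb)
    · simp [blk]
    · simp [blk]
    · exact hB.1 a (Finset.inr_mem_disjSum.mp ha) b (Finset.inr_mem_disjSum.mp hb)
  · have h1 := hA.2 (fun a => u (Sum.inl a))
    have h2 := hB.2 (fun a => u (Sum.inr a))
    have : qf (F.disjSum G) (blk A B) u = qf F A (fun a => u (Sum.inl a)) +
        qf G B (fun a => u (Sum.inr a)) := by
      unfold qf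
      rw [← Complex.add_re]
      congr 1
      simp only [Finset.sum_disjSum, blk, mul_zero, zero_mul, Finset.sum_const_zero, add_zero,
        zero_add]
    rw [this]
    exact add_nonneg h1 h2

/-- two families of vectors in one `EuclideanSpace ℂ (Fin J)` -/
lemma two_gram {β γ : Type*} {F : Finset β} {G : Finset γ} {A : β → β → ℂ} {B : γ → γ → ℂ}
    (hA : PSD F A) (hB : PSD G B) (hF : F.Nonempty) : ∃ J : ℕ, 1 ≤ J ∧
    ∃ (s : β → EuclideanSpace ℂ (Fin J)) (t : γ → EuclideanSpace ℂ (Fin J)),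
      (∀ a ∈ F, ∀ b ∈ F, A a b = inner ℂ (s a) (s b)) ∧
      (∀ a ∈ G, ∀ b ∈ G, B a b = inner ℂ (t a) (t b)) := by
  obtain ⟨c, hc⟩ := (psd_blk hA hB).exists_gram
  let D := F.disjSum G
  let e : EuclideanSpace ℂ ↥D ≃ₗᵢ[ℂ] EuclideanSpace ℂ (Fin D.card) :=
    LinearIsometryEquiv.piLpCongrLeft 2 ℂ ℂ D.equivFin
  refine ⟨D.card, ?_, fun a => e (c (Sum.inl a)), fun p => e (c (Sum.inr p)), ?_, ?_⟩
  · obtain ⟨a, ha⟩ := hF
    exact Finset.card_pos.mpr ⟨Sum.inl a, Finset.inl_mem_disjSum.mpr ha⟩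
  · intro a ha b hb
    rw [LinearIsometryEquiv.inner_map_map]
    exact hc (Sum.inl a) (Finset.inl_mem_disjSum.mpr ha) (Sum.inl b)
      (Finset.inl_mem_disjSum.mpr hb)
  · intro a ha b hb
    rw [LinearIsometryEquiv.inner_map_map]
    exact hc (Sum.inr a) (Finset.inr_mem_disjSum.mpr ha) (Sum.inr b)
      (Finset.inr_mem_disjSum.mpr hb)

end MPa1177b
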