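import Pool.Agent.Work.MP_a1177b_an.CPone

open scoped ComplexConjugate ComplexOrder
open Finset

namespace MPa1177b

/-- Interpolating linear maps: given independent vectors `s_a` and arbitrary `t_{y,a}`. -/
lemma exists_maps {ι H : Type*} [NormedAddCommGroup H] [InnerProductSpace ℂ H]
    [FiniteDimensional ℂ H] (F : Finset ι) (s : ι → H)
    (hli : LinearIndependent ℂ (fun a : ↥F => s a)) (t : ι × ι → H) :
    ∃ (T : ι → H →ₗ[ℂ] H) (α : ι → H → ι → ℂ) (V : Submodule ℂ H),
      (∀ y, ∀ a ∈ F, T y (s a) = t (y, a)) ∧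
      (∀ y u, T y u = ∑ a ∈ F, α y u a • t (y, a)) ∧
      (∀ y u, V.starProjection u = ∑ a ∈ F, α y u a • s a) := by
  classical
  let V : Submodule ℂ H := Submodule.span ℂ (Set.range fun a : ↥F => s a)
  let b : Module.Basis ↥F ℂ V := Module.Basis.span hli
  have hb : ∀ a : ↥F, ((b a : V) : H) = s a := fun a =>
    congrArg Subtype.val (Module.Basis.span_apply hli a)
  let T : ι → H →ₗ[ℂ] H := fun y =>
    (b.constr ℂ (fun a : ↥F => t (y, a))) ∘ₗ (V.orthogonalProjectionOnto : H →ₗ[ℂ] V)
  let α : ι → H → ι → ℂ := fun _ u a =>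
    if ha : a ∈ F then b.repr (V.orthogonalProjectionOnto u) ⟨a, ha⟩ else 0
  refine ⟨T, α, V, ?_, ?_, ?_⟩
  · intro y a ha
    have h1 : V.orthogonalProjectionOnto (s a) = b ⟨a, ha⟩ := by
      rw [← hb ⟨a, ha⟩]
      exact Submodule.orthogonalProjectionOnto_mem_subspace_eq_self _
    change (b.constr ℂ (fun a : ↥F => t (y, a))) (V.orthogonalProjectionOnto (s a)) = _
    rw [h1, Module.Basis.constr_basis]
  · intro y u
    change (b.constr ℂ (fun a : ↥F => t (y, a))) (V.orthogonalProjectionOnto u) = _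
    rw [Module.Basis.constr_apply_fintype, ← Finset.sum_coe_sort F]
    refine Finset.sum_congr rfl fun a _ => ?_
    simp [α]
  · intro y u
    rw [Submodule.starProjection_apply]
    conv_lhs => rw [← b.sum_repr (V.orthogonalProjectionOnto u)]
    rw [← Finset.sum_coe_sort F]
    push_cast
    refine Finset.sum_congr rfl fun a _ => ?_
    rw [hb]
    simp [α]

variable {α : Type*} {X : Set α} {k l : α → α → ℂ}

lemma qv_add_smul_diag {ι : Type*} [DecidableEq ι] (F : Finset ι) (L Y : ι → ι → ℂ) (ε : ℝ)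
    (u : ι × ι → ℂ) : qf (F ×ˢ F) (fun p q => L p.1 q.1 *
      (Y p.2 q.2 + if p.2 = q.2 then (ε : ℂ) else 0)) u =
    qf (F ×ˢ F) (fun p q => L p.1 q.1 * Y p.2 q.2) u +
    qf (F ×ˢ F) (fun p q => L p.1 q.1 * if p.2 = q.2 then (ε : ℂ) else 0) u := by
  rw [← qf_add]
  refine qf_congr fun p _ q _ => ?_
  ring

set_option maxHeartbeats 1000000 in
theorem dualCond_eps (h : IsCPPair k l X) {ι : Type*} [DecidableEq ι] (pt : ι → α)
    (hinj : Function.Injective pt) (hpt : ∀ i, pt i ∈ X) (F : Finset ι) (ω : ι) (hω : ω ∉ F)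
    (hKω : 0 < (k (pt ω) (pt ω)).re) (hLω : 0 < (l (pt ω) (pt ω)).re)
    (hFne : F.Nonempty) {ε : ℝ} (hε : 0 < ε)
    (Y : ι → ι → ℂ) (P : ι × ι → ι × ι → ℂ) (hY : PSD F Y) (hP : PSD (F ×ˢ F) P)
    (hN : PSD (F ×ˢ F) (fun p q => l (pt p.1) (pt q.1) * Y p.2 q.2 -
      k (pt p.1) (pt q.1) * P p q)) :
    0 ≤ (∑ a ∈ F, ∑ b ∈ F, (schur (fun i j => l (pt i) (pt j)) ω a b *
      (Y a b + if a = b then (ε : ℂ) else 0) -
      schur (fun i j => k (pt i) (pt j)) ω a b * P (a, a) (b, b))).re := by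
  classical
  set K : ι → ι → ℂ := fun i j => k (pt i) (pt j) with hKdef
  set L : ι → ι → ℂ := fun i j => l (pt i) (pt j) with hLdef
  obtain ⟨J, hJ, s, t, hs, ht⟩ := two_gram (hY.add (psd_diag F hε.le)) hP hFne
  have hLpsd : ∀ G : Finset ι, PSD G L := fun G => psd_of_kernel h.2.1 pt hpt G
  have hKpsd : ∀ G : Finset ι, PSD G K := fun G => psd_of_kernel h.1 pt hpt G
  -- linear independence
  have hli : LinearIndependent ℂ (fun a : ↥F => s a) := by
    rw [Fintype.linearIndependent_iff]
    intro c hc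
    have h1 : qf F (fun a b => inner ℂ (s a) (s b))
        (fun a => if ha : a ∈ F then c ⟨a, ha⟩ else 0) = 0 := by
      have : qf F (fun a b => inner ℂ (s a) (s b))
        (fun a => if ha : a ∈ F then c ⟨a, ha⟩ else 0) =
        (inner ℂ (∑ a : ↥F, c a • s a) (∑ a : ↥F, c a • s a) : ℂ).re := by
        unfold qf
        congr 1
        rw [← Finset.sum_coe_sort F]
        simp_rw [sum_inner, inner_sum, inner_smul_left, inner_smul_right]
        refine Finset.sum_congr rfl fun x _ => ?_
        rw [← Finset.sum_coe_sort F]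
        refine Finset.sum_congr rfl fun y _ => ?_
        simp
        ring
      rw [this, hc]
      simp
    have h2 : qf F (fun a b => inner ℂ (s a) (s b))
        (fun a => if ha : a ∈ F then c ⟨a, ha⟩ else 0) =
        qf F Y (fun a => if ha : a ∈ F then c ⟨a, ha⟩ else 0) +
        ε * ∑ a ∈ F, ‖(if ha : a ∈ F then c ⟨a, ha⟩ else 0 : ℂ)‖ ^ 2 := by
      rw [← qf_diag, ← qf_add]
      exact qf_congr fun a ha b hb => (hs a ha b hb).symm
    have h3 := hY.2 (fun a => if ha : a ∈ F then c ⟨a, ha⟩ else 0)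
    have h4 : ε * ∑ a ∈ F, ‖(if ha : a ∈ F then c ⟨a, ha⟩ else 0 : ℂ)‖ ^ 2 ≤ 0 := by linarith
    have h5 : ∑ a ∈ F, ‖(if ha : a ∈ F then c ⟨a, ha⟩ else 0 : ℂ)‖ ^ 2 = 0 := by
      refine le_antisymm ?_ (Finset.sum_nonneg fun _ _ => by positivity)
      exact nonpos_of_mul_nonpos_right h4 hε
    intro i
    have h6 := (Finset.sum_eq_zero_iff_of_nonneg (fun _ _ => by positivity)).mp h5 i i.2
    simpa using h6
  obtain ⟨T, α', V, hT1, hT2, hT3⟩ := exists_maps F s hli t
  -- positivity on F
  have hpos : ∀ u : ι → EuclideanSpace ℂ (Fin J), 0 ≤ qv F L u - qv F K (fun i => T i (u i)) := by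
    intro u
    have e1 : qv F L u = qv F L (fun y => V.starProjection (u y)) +
      qv F L (fun y => u y - V.starProjection (u y)) := qv_split L V u
    have e2 := qv_nonneg (hLpsd F) (fun y => u y - V.starProjection (u y))
    have e3 : qv F L (fun y => V.starProjection (u y)) =
        qf (F ×ˢ F) (fun p q => L p.1 q.1 * (Y p.2 q.2 + if p.2 = q.2 then (ε : ℂ) else 0))
          (fun p => α' p.1 (u p.1) p.2) := by
      have := qf_gram1 (F := F) (F' := F) L (fun p : ι × ι => s p.2)
        (fun p => α' p.1 (u p.1) p.2)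
      rw [qv_congr (q := fun y => ∑ a ∈ F, α' y (u y) a • s a) (fun y _ => hT3 y (u y)), ← this]
      refine qf_congr fun p hp q hq => ?_
      rw [hs p.2 (Finset.mem_product.mp hp).2 q.2 (Finset.mem_product.mp hq).2]
    have e4 : qv F K (fun i => T i (u i)) =
        qf (F ×ˢ F) (fun p q => K p.1 q.1 * P p q) (fun p => α' p.1 (u p.1) p.2) := by
      have := qf_gram1 (F := F) (F' := F) K t (fun p => α' p.1 (u p.1) p.2)
      rw [qv_congr (q := fun y => ∑ a ∈ F, α' y (u y) a • t (y, a)) (fun y _ => hT2 y (u y)),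
        ← this]
      refine qf_congr fun p hp q hq => ?_
      rw [ht p hp q hq]
    rw [qv_add_smul_diag] at e3
    have e5 := hN.2 (fun p => α' p.1 (u p.1) p.2)
    rw [qf_sub] at e5
    have e6 : PSD (F ×ˢ F) (fun p q : ι × ι => L p.1 q.1 * if p.2 = q.2 then (ε : ℂ) else 0) :=
      ((hLpsd F).comp Prod.fst fun p hp => (Finset.mem_product.mp hp).1).hmul
        ((psd_diag F hε.le).comp Prod.snd fun p hp => (Finset.mem_product.mp hp).2)
    have e7 := e6.2 (fun p => α' p.1 (u p.1) p.2)
    rw [e1, e3, e4]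
    linarith
  obtain ⟨S, hS⟩ := cp_extend h pt hinj hpt F hJ T hpos ω hω
  have hLω0 : L ω ω ≠ 0 := fun h0 => by
    have : (L ω ω).re = 0 := by rw [h0]; simp
    exact hLω.ne' this
  have hKω0 : K ω ω ≠ 0 := fun h0 => by
    have : (K ω ω).re = 0 := by rw [h0]; simp
    exact hKω.ne' this
  let u : ι → EuclideanSpace ℂ (Fin J) := fun i =>
    if i = ω then -((1 / L ω ω) • ∑ z ∈ F, L ω z • s z) else s i
  have huF : ∀ i ∈ F, u i = s i := by
    intro i hi
    have : i ≠ ω := fun h => hω (h ▸ hi)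
    simp [u, this]
  have hmain := hS u
  have hωi : ω ∈ insert ω F := Finset.mem_insert_self _ _
  have f1 : qv (insert ω F) L u = qv F (schur L ω) s := by
    rw [qv_schur hωi (hLpsd _).1, Finset.sum_insert hω]
    have : L ω ω • u ω + ∑ z ∈ F, L ω z • u z = 0 := by
      have : ∑ z ∈ F, L ω z • u z = ∑ z ∈ F, L ω z • s z :=
        Finset.sum_congr rfl fun z hz => by rw [huF z hz]
      rw [this]
      simp only [u, if_true]
      rw [smul_neg, smul_smul, mul_one_div_cancel hLω0, one_smul]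
      simp
    rw [this, norm_zero, qv_schur_insert hω hLω0, qv_congr huF]
    simp
  have f2 : qv F (schur K ω) (fun i => t (i, i)) ≤
      qv (insert ω F) K (fun i => if i = ω then S (u i) else T i (u i)) := by
    rw [qv_schur hωi (hKpsd _).1, qv_schur_insert hω hKω0]
    have : qv F (schur K ω) (fun i => if i = ω then S (u i) else T i (u i)) =
        qv F (schur K ω) (fun i => t (i, i)) := by
      refine qv_congr fun i hi => ?_
      have : i ≠ ω := fun h => hω (h ▸ hi)
      rw [if_neg this, huF i hi, hT1 i i hi]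
    rw [this]
    have : 0 ≤ (1 / (K ω ω).re) * ‖∑ z ∈ insert ω F, K ω z •
        (if z = ω then S (u z) else T z (u z))‖ ^ 2 := by
      have : 0 < (K ω ω).re := hKω
      positivity
    linarith
  have f3 : (∑ a ∈ F, ∑ b ∈ F, (schur L ω a b * (Y a b + if a = b then (ε : ℂ) else 0) -
      schur K ω a b * P (a, a) (b, b))).re = qv F (schur L ω) s -
      qv F (schur K ω) (fun i => t (i, i)) := by
    unfold qv
    rw [← Complex.sub_re, ← Finset.sum_sub_distrib]
    congr 1
    refine Finset.sum_congr rfl fun a ha => ?_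
    rw [← Finset.sum_sub_distrib]
    refine Finset.sum_congr rfl fun b hb => ?_
    rw [← hs a ha b hb, ← ht (a, a) (Finset.mem_product.mpr ⟨ha, ha⟩) (b, b)
      (Finset.mem_product.mpr ⟨hb, hb⟩)]
  rw [f3, ← f1]
  linarith

theorem dualCond_of_CP (h : IsCPPair k l X) {ι : Type*} [DecidableEq ι] (pt : ι → α)
    (hinj : Function.Injective pt) (hpt : ∀ i, pt i ∈ X) (F : Finset ι) (ω : ι) (hω : ω ∉ F)
    (hKω : 0 < (k (pt ω) (pt ω)).re) (hLω : 0 < (l (pt ω) (pt ω)).re) :
    DualCond (fun i j => k (pt i) (pt j)) (fun i j => l (pt i) (pt j)) F ω := by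
  intro Y P hY hP hN
  rcases F.eq_empty_or_nonempty with rfl | hne
  · simp
  set K : ι → ι → ℂ := fun i j => k (pt i) (pt j) with hKdef
  set L : ι → ι → ℂ := fun i j => l (pt i) (pt j) with hLdef
  by_contra hneg
  push Not at hneg
  set x := (∑ a ∈ F, ∑ b ∈ F, (schur L ω a b * Y a b - schur K ω a b * P (a, a) (b, b))).re
    with hx
  set C := ∑ a ∈ F, (schur L ω a a).re with hC
  have key : ∀ ε : ℝ, 0 < ε → 0 ≤ x + ε * C := by
    intro ε hε
    have h1 := dualCond_eps h pt hinj hpt F ω hω hKω hLω hne hε Y P hY hP hN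
    have h2 : (∑ a ∈ F, ∑ b ∈ F, (schur L ω a b * (Y a b + if a = b then (ε : ℂ) else 0) -
      schur K ω a b * P (a, a) (b, b))).re = x + ε * C := by
      have : ∑ a ∈ F, ∑ b ∈ F, (schur L ω a b * (Y a b + if a = b then (ε : ℂ) else 0) -
          schur K ω a b * P (a, a) (b, b)) =
          (∑ a ∈ F, ∑ b ∈ F, (schur L ω a b * Y a b - schur K ω a b * P (a, a) (b, b))) +
          (ε : ℂ) * ∑ a ∈ F, schur L ω a a := by
        rw [Finset.mul_sum, ← Finset.sum_add_distrib]
        refine Finset.sum_congr rfl fun a ha => ?_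
        have : (ε : ℂ) * schur L ω a a =
            ∑ b ∈ F, schur L ω a b * (if a = b then (ε : ℂ) else 0) := by
          rw [Finset.sum_eq_single a]
          · simp [mul_comm]
          · intro b _ hb; simp [Ne.symm hb]
          · intro h; exact absurd ha h
        rw [this, ← Finset.sum_add_distrib]
        refine Finset.sum_congr rfl fun b _ => ?_
        ring
      rw [this, Complex.add_re, Complex.re_ofReal_mul, ← hx, hC, ← Complex.re_sum]
    rw [← h2]
    exact h1
  have h3 := key (-x / (2 * (|C| + 1))) (by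
    have : 0 < |C| + 1 := by positivity
    have hx' : 0 < -x := by linarith
    positivity)
  have h4 : -x / (2 * (|C| + 1)) * C ≤ -x / 2 := by
    have hC1 : 0 < |C| + 1 := by positivity
    have h5 : C ≤ |C| + 1 := (le_abs_self C).trans (by linarith)
    calc -x / (2 * (|C| + 1)) * C ≤ -x / (2 * (|C| + 1)) * (|C| + 1) := by
          apply mul_le_mul_of_nonneg_left h5
          have : 0 ≤ -x := by linarith
          positivity
      _ = -x / 2 := by field_simp
  linarith

end MPa1177b
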