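import Pool.Agent.Work.MP_a1177b_an.Defs

/-!
# A discrete Cauchy inequality on polydiscs
-/

set_option autoImplicit false

open scoped ComplexConjugate ComplexOrder Topology

namespace MPa1177b

open Filter Metric Finset

/-- orthogonality of the characters -/
lemma roots_orth {N : ℕ} {ζ : ℂ} (hζ : IsPrimitiveRoot ζ N) (hN : N ≠ 0) {n i : ℕ}
    (hn : n < N) (hi : i < N) :
    ∑ k ∈ range N, (ζ ^ k) ^ n * ((ζ ^ k)⁻¹) ^ i = if n = i then (N : ℂ) else 0 := by
  have hζ0 : ζ ≠ 0 := hζ.ne_zero hN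
  have h1 : ∀ k, (ζ ^ k) ^ n * ((ζ ^ k)⁻¹) ^ i = (ζ ^ n * (ζ ^ i)⁻¹) ^ k := by
    intro k
    rw [mul_pow, inv_pow, inv_pow, ← pow_mul, ← pow_mul, ← pow_mul, ← pow_mul, mul_comm k n,
      mul_comm k i]
  simp_rw [h1]
  split_ifs with h
  · subst h
    rw [mul_inv_cancel₀ (pow_ne_zero _ hζ0)]
    simp
  · have hω : ζ ^ n * (ζ ^ i)⁻¹ ≠ 1 := by
      intro h2
      apply h
      rw [mul_inv_eq_one₀ (pow_ne_zero _ hζ0)] at h2
      exact hζ.pow_inj hn hi h2
    rw [geom_sum_eq hω]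
    have : (ζ ^ n * (ζ ^ i)⁻¹) ^ N = 1 := by
      rw [mul_pow, inv_pow, ← pow_mul, ← pow_mul, mul_comm n N, mul_comm i N, pow_mul, pow_mul,
        hζ.pow_eq_one]
      simp
    rw [this]; simp

/-- exact reproduction of polynomials of degree `< N` -/
lemma poly_repr {N : ℕ} {ζ : ℂ} (hζ : IsPrimitiveRoot ζ N) (hN : N ≠ 0) (a : ℕ → ℂ)
    {r : ℂ} (hr : r ≠ 0) (y : ℂ) :
    ∑ n ∈ range N, a n * y ^ n = (N : ℂ)⁻¹ * ∑ k ∈ range N,
      (∑ n ∈ range N, a n * (r * ζ ^ k) ^ n) * ∑ i ∈ range N, (y / (r * ζ ^ k)) ^ i := by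
  have hζ0 : ζ ≠ 0 := hζ.ne_zero hN
  have hNC : (N : ℂ) ≠ 0 := by exact_mod_cast hN
  have h1 : ∑ k ∈ range N, (∑ n ∈ range N, a n * (r * ζ ^ k) ^ n) *
      ∑ i ∈ range N, (y / (r * ζ ^ k)) ^ i =
      ∑ n ∈ range N, ∑ i ∈ range N, (a n * r ^ n * (y / r) ^ i) *
        ∑ k ∈ range N, (ζ ^ k) ^ n * ((ζ ^ k)⁻¹) ^ i := by
    simp_rw [Finset.sum_mul_sum, Finset.mul_sum]
    rw [Finset.sum_comm]
    refine Finset.sum_congr rfl fun n _ => ?_
    rw [Finset.sum_comm]
    refine Finset.sum_congr rfl fun i _ => ?_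
    refine Finset.sum_congr rfl fun k _ => ?_
    rw [mul_pow, div_mul_eq_div_div, div_eq_mul_inv (y / r), mul_pow (y / r)]
    ring
  rw [h1]
  have h2 : ∑ n ∈ range N, ∑ i ∈ range N, (a n * r ^ n * (y / r) ^ i) *
        ∑ k ∈ range N, (ζ ^ k) ^ n * ((ζ ^ k)⁻¹) ^ i = ∑ n ∈ range N, a n * y ^ n * N := by
    refine Finset.sum_congr rfl fun n hn => ?_
    rw [Finset.sum_eq_single n]
    · rw [roots_orth hζ hN (mem_range.1 hn) (mem_range.1 hn), if_pos rfl, div_pow]
      field_simp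
    · intro i hi hin
      rw [roots_orth hζ hN (mem_range.1 hn) (mem_range.1 hi), if_neg (Ne.symm hin), mul_zero]
    · intro h; exact absurd hn h
  rw [h2, ← Finset.sum_mul, mul_comm _ (N : ℂ), ← mul_assoc, inv_mul_cancel₀ hNC, one_mul]

/-- one-variable discrete Cauchy inequality -/
lemma cauchy_one {φ : ℂ → ℂ} {R ρ r q S : ℝ} (hφ : DifferentiableOn ℂ φ (ball 0 R))
    (hS : ∀ z : ℂ, ‖z‖ < R → ‖φ z‖ ≤ S) (hρ : 0 < ρ) (hρR : ρ < R) (hr : 0 < r)
    (hq0 : 0 ≤ q) (hq : q < 1) (hrq : r ≤ q * ρ) {N : ℕ} (hN : N ≠ 0) {y : ℂ} (hy : ‖y‖ ≤ r / 2)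
    {ζ : ℂ} (hζ : IsPrimitiveRoot ζ N) :
    ‖φ y‖ ≤ 2 * ((N : ℝ)⁻¹ * ∑ k ∈ range N, ‖φ (r * ζ ^ k)‖) + 3 * (S * q ^ N / (1 - q)) := by
  have hrρ : r < ρ := lt_of_le_of_lt hrq (by nlinarith)
  have hS0 : 0 ≤ S := (norm_nonneg _).trans (hS 0 (by simpa using hρ.trans hρR))
  set a : ℕ → ℂ := fun n => (n.factorial : ℂ)⁻¹ * iteratedDeriv n φ 0 with ha
  have hsum : ∀ z : ℂ, ‖z‖ < R → HasSum (fun n => a n * z ^ n) (φ z) := by
    intro z hz
    have := Complex.hasSum_taylorSeries_on_ball hφ (z := z) (by simpa using hz)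
    refine this.congr_fun fun n => ?_
    simp only [ha, sub_zero, smul_eq_mul]
    ring
  have hab : ∀ n, ‖a n‖ ≤ S / ρ ^ n := by
    intro n
    have h1 : ‖iteratedDeriv n φ 0‖ ≤ n.factorial * S / ρ ^ n := by
      refine Complex.norm_iteratedDeriv_le_of_forall_mem_sphere_norm_le n hρ ?_ ?_
      · refine (hφ.mono ?_).diffContOnCl
        rw [closure_ball _ hρ.ne']
        exact closedBall_subset_ball hρR
      · intro z hz
        apply hS
        rw [mem_sphere_zero_iff_norm] at hz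
        rw [hz]; exact hρR
    rw [ha]
    simp only [norm_mul, norm_inv]
    rw [Complex.norm_natCast]
    have h2 : (0 : ℝ) < n.factorial := by exact_mod_cast n.factorial_pos
    calc (n.factorial : ℝ)⁻¹ * ‖iteratedDeriv n φ 0‖
        ≤ (n.factorial : ℝ)⁻¹ * (n.factorial * S / ρ ^ n) :=
          mul_le_mul_of_nonneg_left h1 (by positivity)
      _ = S / ρ ^ n := by field_simp
  set p : ℂ → ℂ := fun z => ∑ n ∈ range N, a n * z ^ n with hp
  set τ : ℝ := S * q ^ N / (1 - q) with hτ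
  have h1q : 0 < 1 - q := by linarith
  have hτ0 : 0 ≤ τ := by positivity
  have htail : ∀ z : ℂ, ‖z‖ ≤ r → ‖φ z - p z‖ ≤ τ := by
    intro z hz
    have h1 := (hsum z (by linarith))
    have h2 : HasSum (fun n => a (n + N) * z ^ (n + N)) (φ z - p z) :=
      (hasSum_nat_add_iff' N).2 h1
    have h3 : HasSum (fun n : ℕ => S * q ^ N * q ^ n) (S * q ^ N * (1 - q)⁻¹) :=
      (hasSum_geometric_of_lt_one hq0 hq).mul_left _
    rw [← h2.tsum_eq, hτ, div_eq_mul_inv]
    refine tsum_of_norm_bounded h3 fun n => ?_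
    rw [norm_mul, norm_pow]
    have h4 : ‖z‖ ^ (n + N) ≤ (q * ρ) ^ (n + N) :=
      pow_le_pow_left₀ (norm_nonneg _) (hz.trans hrq) _
    calc ‖a (n + N)‖ * ‖z‖ ^ (n + N) ≤ (S / ρ ^ (n + N)) * (q * ρ) ^ (n + N) :=
          mul_le_mul (hab _) h4 (by positivity) (by positivity)
      _ = S * q ^ N * q ^ n := by
          rw [mul_pow, pow_add q]
          field_simp
  have hrζ : ∀ k, ‖(r : ℂ) * ζ ^ k‖ = r := by
    intro k
    rw [norm_mul, norm_pow, hζ.norm'_eq_one hN, one_pow, mul_one, Complex.norm_real,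
      Real.norm_of_nonneg hr.le]
  have hK : ∀ k, ‖∑ i ∈ range N, (y / (r * ζ ^ k)) ^ i‖ ≤ 2 := by
    intro k
    refine (norm_sum_le _ _).trans ?_
    have h5 : ∀ i ∈ range N, ‖(y / (r * ζ ^ k)) ^ i‖ ≤ (1 / 2 : ℝ) ^ i := by
      intro i _
      rw [norm_pow, norm_div, hrζ]
      refine pow_le_pow_left₀ (by positivity) ?_ _
      rw [div_le_iff₀ hr]; linarith
    refine (Finset.sum_le_sum h5).trans ?_
    have h6 := (hasSum_geometric_of_lt_one (r := (1 / 2 : ℝ)) (by norm_num) (by norm_num))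
    have h7 := sum_le_hasSum (range N) (fun i _ => by positivity) h6
    norm_num at h7 ⊢
    exact h7
  have hrep := poly_repr hζ hN a (r := (r : ℂ)) (by exact_mod_cast hr.ne') y
  have hNpos : (0 : ℝ) < N := by exact_mod_cast Nat.pos_of_ne_zero hN
  have hpy : ‖p y‖ ≤ 2 * ((N : ℝ)⁻¹ * ∑ k ∈ range N, ‖φ (r * ζ ^ k)‖) + 2 * τ := by
    have : p y = (N : ℂ)⁻¹ * ∑ k ∈ range N,
      (p (r * ζ ^ k)) * ∑ i ∈ range N, (y / (r * ζ ^ k)) ^ i := hrep
    rw [this, norm_mul, norm_inv, Complex.norm_natCast]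
    have h8 : ‖∑ k ∈ range N, (p (r * ζ ^ k)) * ∑ i ∈ range N, (y / (r * ζ ^ k)) ^ i‖ ≤
        ∑ k ∈ range N, (2 * ‖φ (r * ζ ^ k)‖ + 2 * τ) := by
      refine (norm_sum_le _ _).trans (Finset.sum_le_sum fun k _ => ?_)
      rw [norm_mul]
      have h9 : ‖p (r * ζ ^ k)‖ ≤ ‖φ (r * ζ ^ k)‖ + τ := by
        have := htail (r * ζ ^ k) (hrζ k).le
        have h10 : p (r * ζ ^ k) = φ (r * ζ ^ k) - (φ (r * ζ ^ k) - p (r * ζ ^ k)) := by ring
        rw [h10]
        exact (norm_sub_le _ _).trans (by linarith)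
      calc ‖p (r * ζ ^ k)‖ * ‖∑ i ∈ range N, (y / (r * ζ ^ k)) ^ i‖
          ≤ (‖φ (r * ζ ^ k)‖ + τ) * 2 := mul_le_mul h9 (hK k) (norm_nonneg _) (by positivity)
        _ = 2 * ‖φ (r * ζ ^ k)‖ + 2 * τ := by ring
    calc (N : ℝ)⁻¹ * _ ≤ (N : ℝ)⁻¹ * ∑ k ∈ range N, (2 * ‖φ (r * ζ ^ k)‖ + 2 * τ) :=
          mul_le_mul_of_nonneg_left h8 (by positivity)
      _ = 2 * ((N : ℝ)⁻¹ * ∑ k ∈ range N, ‖φ (r * ζ ^ k)‖) + 2 * τ := by
          rw [Finset.sum_add_distrib, ← Finset.mul_sum, Finset.sum_const, card_range, nsmul_eq_mul]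
          field_simp
  have hfin : ‖φ y‖ ≤ ‖p y‖ + τ := by
    have := htail y (by linarith)
    have h10 : φ y = p y + (φ y - p y) := by ring
    rw [h10]
    exact (norm_add_le _ _).trans (by linarith)
  linarith

lemma sum_update {g N : ℕ} (i : Fin g) (G : (Fin g → Fin N) → ℝ) :
    ∑ n : Fin g → Fin N, ∑ k : Fin N, G (Function.update n i k) = N * ∑ n, G n := by
  classical
  set e := Equiv.funSplitAt i (Fin N) with he
  have h1 : ∀ F : (Fin g → Fin N) → ℝ, ∑ n, F n = ∑ b : Fin N, ∑ f, F (e.symm (b, f)) := by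
    intro F
    rw [← e.symm.sum_comp, Fintype.sum_prod_type]
  have h2 : ∀ (b k : Fin N) (f : {j // j ≠ i} → Fin N),
      Function.update (e.symm (b, f)) i k = e.symm (k, f) := by
    intro b k f
    funext j
    by_cases hj : j = i
    · subst hj
      simp [he, Equiv.funSplitAt, Equiv.piSplitAt]
    · rw [Function.update_of_ne hj]
      simp [he, Equiv.funSplitAt, Equiv.piSplitAt, hj]
  rw [h1, h1 G]
  simp_rw [h2]
  rw [Finset.sum_const, Finset.card_univ, Fintype.card_fin, nsmul_eq_mul]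
  congr 1
  exact Finset.sum_comm

/-- replace the coordinates in `T` by grid points -/
noncomputable def mix {g N : ℕ} (ζ : ℂ) (r : Fin g → ℝ) (T : Finset (Fin g)) (n : Fin g → Fin N)
    (y : Fin g → ℂ) : Fin g → ℂ := fun j => if j ∈ T then (r j : ℂ) * ζ ^ (n j : ℕ) else y j

theorem cauchy_grid {g : ℕ} {R ρ r : Fin g → ℝ} {q S : ℝ} (hr : ∀ j, 0 < r j)
    (hρ : ∀ j, 0 < ρ j) (hρR : ∀ j, ρ j < R j) (hq0 : 0 ≤ q) (hq : q < 1)
    (hrq : ∀ j, r j ≤ q * ρ j) {N : ℕ} (hN : N ≠ 0) {ζ : ℂ} (hζ : IsPrimitiveRoot ζ N)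
    {h : (Fin g → ℂ) → ℂ} (hd : DifferentiableOn ℂ h {z | ∀ j, ‖z j‖ < R j})
    (hS : ∀ z : Fin g → ℂ, (∀ j, ‖z j‖ < R j) → ‖h z‖ ≤ S)
    {y : Fin g → ℂ} (hy : ∀ j, ‖y j‖ ≤ r j / 2) :
    ‖h y‖ ≤ 2 ^ g * (((N : ℝ) ^ g)⁻¹ * ∑ n : Fin g → Fin N, ‖h (fun j => r j * ζ ^ (n j : ℕ))‖) +
      2 ^ g * (3 * (S * q ^ N / (1 - q))) := by
  classical
  have hNpos : (0 : ℝ) < N := by exact_mod_cast Nat.pos_of_ne_zero hN
  set τ : ℝ := 3 * (S * q ^ N / (1 - q)) with hτ
  have hrR : ∀ j, r j < R j := fun j => by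
    have := hrq j; have := hρ j; have := hρR j; nlinarith
  have hS0 : 0 ≤ S := (norm_nonneg _).trans (hS y fun j => by
    have := hy j; have := hr j; have := hrR j; linarith)
  have h1q : 0 < 1 - q := by linarith
  have hτ0 : 0 ≤ τ := by positivity
  have hζn : ∀ k : ℕ, ‖ζ ^ k‖ = 1 := fun k => by
    rw [norm_pow, hζ.norm'_eq_one hN, one_pow]
  have hmixR : ∀ (T : Finset (Fin g)) (n : Fin g → Fin N) (j : Fin g),
      ‖mix ζ r T n y j‖ ≤ r j := by
    intro T n j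
    unfold mix
    split_ifs
    · rw [norm_mul, hζn, mul_one, Complex.norm_real, Real.norm_of_nonneg (hr j).le]
    · have := hy j; have := hr j; linarith
  -- induction
  have key : ∀ T : Finset (Fin g), (N : ℝ) ^ g * ‖h y‖ ≤
      2 ^ T.card * ∑ n : Fin g → Fin N, ‖h (mix ζ r T n y)‖ +
        (N : ℝ) ^ g * ((2 ^ T.card - 1) * τ) := by
    intro T
    induction T using Finset.induction_on with
    | empty =>
      have : ∀ n : Fin g → Fin N, mix ζ r ∅ n y = y := by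
        intro n; funext j; simp [mix]
      simp_rw [this]
      rw [Finset.sum_const, Finset.card_univ]
      simp
    | insert i T hi ih =>
      have hstep : ∀ n : Fin g → Fin N, ‖h (mix ζ r T n y)‖ ≤
          2 * ((N : ℝ)⁻¹ * ∑ k : Fin N, ‖h (mix ζ r (insert i T) (Function.update n i k) y)‖)
            + τ := by
        intro n
        set z := mix ζ r T n y with hz
        set φ : ℂ → ℂ := fun t => h (Function.update z i t) with hφ
        have hup : ∀ t : ℂ, ‖t‖ < R i → ∀ j, ‖Function.update z i t j‖ < R j := by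
          intro t ht j
          by_cases hj : j = i
          · subst hj; simpa using ht
          · rw [Function.update_of_ne hj]
            exact lt_of_le_of_lt (hmixR T n j) (hrR j)
        have hφd : DifferentiableOn ℂ φ (ball 0 (R i)) := by
          refine hd.comp (f := fun t : ℂ => Function.update z i t) ?_ ?_
          · have : (fun t : ℂ => Function.update z i t) =
                fun t => fun j => if j = i then t else z j := by
              funext t j
              by_cases hj : j = i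
              · subst hj; simp
              · simp [hj]
            rw [this]
            rw [differentiableOn_pi]
            intro j
            by_cases hj : j = i
            · simp only [hj, if_true]; exact differentiableOn_id
            · simp only [hj, if_false]; exact differentiableOn_const _
          · intro t ht
            exact hup t (by simpa using ht)
        have hφS : ∀ t : ℂ, ‖t‖ < R i → ‖φ t‖ ≤ S := fun t ht => hS _ (hup t ht)
        have hzi : z i = y i := by simp [hz, mix, hi]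
        have h1 := cauchy_one hφd hφS (hρ i) (hρR i) (hr i) hq0 hq (hrq i) hN
          (y := z i) (by rw [hzi]; exact hy i) hζ
        have h2 : φ (z i) = h z := by simp [hφ]
        rw [h2] at h1
        have h3 : ∑ k ∈ range N, ‖φ (r i * ζ ^ k)‖ =
            ∑ k : Fin N, ‖h (mix ζ r (insert i T) (Function.update n i k) y)‖ := by
          rw [← Fin.sum_univ_eq_sum_range (fun k => ‖φ (r i * ζ ^ k)‖) N]
          refine Finset.sum_congr rfl fun k _ => ?_
          congr 1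
          change h (Function.update z i (r i * ζ ^ (k : ℕ))) = _
          congr 1
          funext j
          by_cases hj : j = i
          · subst hj; simp [mix]
          · simp [mix, hj, hz]
        rw [h3] at h1
        exact h1
      have hsum : ∑ n : Fin g → Fin N, ‖h (mix ζ r T n y)‖ ≤
          2 * ∑ n : Fin g → Fin N, ‖h (mix ζ r (insert i T) n y)‖ + (N : ℝ) ^ g * τ := by
        refine (Finset.sum_le_sum fun n _ => hstep n).trans (le_of_eq ?_)
        rw [Finset.sum_add_distrib, ← Finset.mul_sum, ← Finset.mul_sum,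
          sum_update i (fun n => ‖h (mix ζ r (insert i T) n y)‖), Finset.sum_const,
          Finset.card_univ]
        simp only [Fintype.card_pi, Finset.prod_const, Fintype.card_fin, Finset.card_univ,
          nsmul_eq_mul]
        push_cast
        field_simp
      rw [Finset.card_insert_of_notMem hi]
      have hpow : (0 : ℝ) ≤ 2 ^ T.card := by positivity
      have hng : (0 : ℝ) ≤ (N : ℝ) ^ g := by positivity
      calc (N : ℝ) ^ g * ‖h y‖ ≤ 2 ^ T.card * ∑ n : Fin g → Fin N, ‖h (mix ζ r T n y)‖ +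
            (N : ℝ) ^ g * ((2 ^ T.card - 1) * τ) := ih
        _ ≤ 2 ^ T.card * (2 * ∑ n : Fin g → Fin N, ‖h (mix ζ r (insert i T) n y)‖ +
              (N : ℝ) ^ g * τ) + (N : ℝ) ^ g * ((2 ^ T.card - 1) * τ) := by
            gcongr
        _ = 2 ^ (T.card + 1) * ∑ n : Fin g → Fin N, ‖h (mix ζ r (insert i T) n y)‖ +
              (N : ℝ) ^ g * ((2 ^ (T.card + 1) - 1) * τ) := by ring
  have hfin := key Finset.univ
  have hmix : ∀ n : Fin g → Fin N, mix ζ r Finset.univ n y = fun j => r j * ζ ^ (n j : ℕ) := by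
    intro n; funext j; simp [mix]
  simp_rw [hmix] at hfin
  rw [Finset.card_univ, Fintype.card_fin] at hfin
  have hng : (0 : ℝ) < (N : ℝ) ^ g := by positivity
  have h5 : ‖h y‖ ≤ ((N : ℝ) ^ g)⁻¹ * (2 ^ g *
      ∑ n : Fin g → Fin N, ‖h (fun j => r j * ζ ^ (n j : ℕ))‖ +
        (N : ℝ) ^ g * ((2 ^ g - 1) * τ)) := by
    rw [← div_eq_inv_mul, le_div_iff₀ hng]
    linarith
  refine h5.trans ?_
  rw [mul_add, ← mul_assoc _ ((N : ℝ) ^ g), inv_mul_cancel₀ hng.ne', one_mul]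
  have h6 : (2 ^ g - 1) * τ ≤ 2 ^ g * τ := by nlinarith
  have h7 : ((N : ℝ) ^ g)⁻¹ * (2 ^ g * ∑ n : Fin g → Fin N, ‖h (fun j => r j * ζ ^ (n j : ℕ))‖) =
    2 ^ g * (((N : ℝ) ^ g)⁻¹ * ∑ n : Fin g → Fin N, ‖h (fun j => r j * ζ ^ (n j : ℕ))‖) := by ring
  rw [h7]
  linarith

/-- **Discrete Cauchy inequality on a polydisc.** -/
theorem cauchy_discrete {g : ℕ} {R r : Fin g → ℝ} (hr : ∀ j, 0 < r j) (hrR : ∀ j, r j < R j)
    (S : ℝ) {ε : ℝ} (hε : 0 < ε) :
    ∀ᶠ N : ℕ in atTop, ∀ h : (Fin g → ℂ) → ℂ, DifferentiableOn ℂ h {z | ∀ j, ‖z j‖ < R j} →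
      (∀ z : Fin g → ℂ, (∀ j, ‖z j‖ < R j) → ‖h z‖ ≤ S) →
      ∀ y : Fin g → ℂ, (∀ j, ‖y j‖ ≤ r j / 2) →
      ‖h y‖ ≤ 2 ^ g * (((N : ℝ) ^ g)⁻¹ * ∑ n : Fin g → Fin N,
        ‖h (fun j => r j * Complex.exp (2 * Real.pi * Complex.I * ((n j : ℕ) / N)))‖) + ε := by
  classical
  set ρ : Fin g → ℝ := fun j => (r j + R j) / 2 with hρ
  have hρ0 : ∀ j, 0 < ρ j := fun j => by
    have := hr j; have := hrR j; simp only [hρ]; linarith
  have hρR : ∀ j, ρ j < R j := fun j => by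
    have := hrR j; simp only [hρ]; linarith
  have hrρ : ∀ j, r j < ρ j := fun j => by
    have := hrR j; simp only [hρ]; linarith
  obtain ⟨q, hq0, hq1, hq⟩ : ∃ q : ℝ, 0 ≤ q ∧ q < 1 ∧ ∀ j, r j ≤ q * ρ j := by
    rcases isEmpty_or_nonempty (Fin g) with he | hne
    · exact ⟨0, le_rfl, one_pos, fun j => he.elim j⟩
    · obtain ⟨j0, -, hj0⟩ := Finset.exists_max_image Finset.univ (fun j => r j / ρ j)
        Finset.univ_nonempty
      refine ⟨r j0 / ρ j0, div_nonneg (hr j0).le (hρ0 j0).le,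
        (div_lt_one (hρ0 j0)).2 (hrρ j0), fun j => ?_⟩
      have := hj0 j (Finset.mem_univ j)
      rwa [div_le_iff₀ (hρ0 j)] at this
  have hlim : Tendsto (fun N : ℕ => 2 ^ g * (3 * (S * q ^ N / (1 - q)))) atTop (𝓝 0) := by
    have h1 : Tendsto (fun N : ℕ => q ^ N) atTop (𝓝 0) := tendsto_pow_atTop_nhds_zero_of_lt_one hq0 hq1
    have h2 := (((h1.const_mul S).div_const (1 - q)).const_mul 3).const_mul (2 ^ g)
    simpa using h2
  filter_upwards [hlim.eventually_lt_const hε, eventually_ne_atTop 0] with N hN1 hN0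
  intro h hd hS y hy
  have h1 := cauchy_grid hr hρ0 hρR hq0 hq1 hq hN0 (Complex.isPrimitiveRoot_exp N hN0) hd hS hy
  have h2 : ∀ n : Fin g → Fin N, (fun j => (r j : ℂ) *
      (Complex.exp (2 * Real.pi * Complex.I / N)) ^ (n j : ℕ)) =
      fun j => (r j : ℂ) * Complex.exp (2 * Real.pi * Complex.I * ((n j : ℕ) / N)) := by
    intro n
    funext j
    rw [← Complex.exp_nat_mul]
    congr 2
    ring
  simp_rw [h2] at h1
  linarith

end MPa1177b
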