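import Pool.Agent.Work.MP_a1177b_an.Theta

/-!
# The topological end of the proof
-/

set_option autoImplicit false

namespace MPa1177b

open Set Filter Topology

variable {g : ℕ}

lemma absPow_nonneg (x : Fin g → ℂ) (a : Fin g → ℕ) : 0 ≤ absPow x a :=
  Finset.prod_nonneg fun _ _ => by positivity

/-- the closed polydisc with radii `R` -/
def cpoly (R : Fin g → ℝ) : Set (Fin g → ℂ) := {x | ∀ j, ‖x j‖ ≤ R j}

/-- the open polydisc with radii `R` -/
def opoly (R : Fin g → ℝ) : Set (Fin g → ℂ) := {x | ∀ j, ‖x j‖ < R j}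

lemma isOpen_opoly (R : Fin g → ℝ) : IsOpen (opoly R) := by
  have : opoly R = ⋂ j, {x : Fin g → ℂ | ‖x j‖ < R j} := by ext; simp [opoly]
  rw [this]
  exact isOpen_iInter_of_finite fun j => isOpen_lt (by fun_prop) (by fun_prop)

/-- scaling -/
lemma absPow_le {x : Fin g → ℂ} {R : Fin g → ℝ} {q : ℝ} (hR : ∀ j, 0 < R j)
    (hq0 : 0 ≤ q) (hq : q ≤ 1) (hx : ∀ j, ‖x j‖ ≤ q * R j) (a : Fin g → ℕ) (ha : a ≠ 0) :
    absPow x a ≤ q * ∏ j, R j ^ (2 * a j) := by
  have h1 : absPow x a ≤ ∏ j, (q * R j) ^ (2 * a j) := by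
    unfold absPow
    exact Finset.prod_le_prod (fun _ _ => by positivity) fun j _ =>
      pow_le_pow_left₀ (norm_nonneg _) (hx j) _
  have h2 : ∏ j, (q * R j) ^ (2 * a j) = q ^ (∑ j, 2 * a j) * ∏ j, R j ^ (2 * a j) := by
    rw [← Finset.prod_pow_eq_pow_sum, ← Finset.prod_mul_distrib]
    exact Finset.prod_congr rfl fun j _ => mul_pow _ _ _
  obtain ⟨j, hj⟩ : ∃ j, a j ≠ 0 := by
    by_contra h
    push Not at h
    exact ha (funext h)
  have h3 : 1 ≤ ∑ j, 2 * a j := by
    have : 2 * a j ≤ ∑ j, 2 * a j := Finset.single_le_sum (f := fun j => 2 * a j)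
      (fun _ _ => Nat.zero_le _) (Finset.mem_univ j)
    omega
  have h4 : q ^ (∑ j, 2 * a j) ≤ q := by
    calc q ^ (∑ j, 2 * a j) ≤ q ^ 1 := pow_le_pow_of_le_one hq0 hq h3
      _ = q := pow_one q
  refine h1.trans ?_
  rw [h2]
  have h5 : 0 ≤ ∏ j, R j ^ (2 * a j) := Finset.prod_nonneg fun j _ => by
    have := (hR j).le
    positivity
  exact mul_le_mul_of_nonneg_right h4 h5

/-- If `Σ ϑ_a R^{2a} ≤ 1` then the open polydisc of radii `R` lies in `Ω^1_ϑ`. -/
lemma opoly_subset {vt : (Fin g → ℕ) → ℝ} (hvt : ∀ a, 0 ≤ vt a)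
    {R : Fin g → ℝ} (hR : ∀ j, 0 < R j)
    (hS : ∀ A : Finset (Fin g → ℕ), ∑ a ∈ A, vt a * ∏ j, R j ^ (2 * a j) ≤ 1) :
    opoly R ⊆ OmegaThetaOne vt := by
  classical
  have hpos : ∀ a : Fin g → ℕ, 0 ≤ vt a * ∏ j, R j ^ (2 * a j) := fun a =>
    mul_nonneg (hvt a) (Finset.prod_nonneg fun j _ => by
      have := (hR j).le
      positivity)
  have hterm : ∀ a : Fin g → ℕ, vt a * ∏ j, R j ^ (2 * a j) ≤ 1 := by
    intro a
    simpa using hS {a}
  have hb : opoly R ⊆ {x | BddAbove (Set.range fun a => vt a * absPow x a)} := by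
    intro x hx
    refine ⟨1, ?_⟩
    rintro _ ⟨a, rfl⟩
    refine le_trans ?_ (hterm a)
    refine mul_le_mul_of_nonneg_left ?_ (hvt a)
    exact Finset.prod_le_prod (fun _ _ => by positivity) fun j _ =>
      pow_le_pow_left₀ (norm_nonneg _) (hx j).le _
  intro x hx
  refine ⟨interior_maximal hb (isOpen_opoly R) hx, ?_⟩
  -- find q
  obtain ⟨q, hq0, hq1, hq⟩ : ∃ q : ℝ, 0 ≤ q ∧ q < 1 ∧ ∀ j, ‖x j‖ ≤ q * R j := by
    rcases isEmpty_or_nonempty (Fin g) with he | hne
    · exact ⟨0, le_rfl, one_pos, fun j => he.elim j⟩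
    · obtain ⟨j0, -, hj0⟩ := Finset.exists_max_image Finset.univ (fun j => ‖x j‖ / R j)
        Finset.univ_nonempty
      refine ⟨‖x j0‖ / R j0, div_nonneg (norm_nonneg _) (hR j0).le,
        (div_lt_one (hR j0)).2 (hx j0), fun j => ?_⟩
      have := hj0 j (Finset.mem_univ j)
      rwa [div_le_iff₀ (hR j)] at this
  have hfin : ∀ B : Finset {a : Fin g → ℕ // a ≠ 0},
      ∑ a ∈ B, vt a * absPow x a ≤ q := by
    intro B
    have h1 : ∑ a ∈ B, vt a * absPow x a ≤
        ∑ a ∈ B, q * (vt a * ∏ j, R j ^ (2 * a.1 j)) := by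
      refine Finset.sum_le_sum fun a _ => ?_
      have := mul_le_mul_of_nonneg_left (absPow_le hR hq0 hq1.le hq a.1 a.2) (hvt a)
      linarith
    refine h1.trans ?_
    rw [← Finset.mul_sum]
    have h2 : ∑ a ∈ B, vt a * ∏ j, R j ^ (2 * a.1 j) =
        ∑ a ∈ B.map (Function.Embedding.subtype _), vt a * ∏ j, R j ^ (2 * a j) := by
      rw [Finset.sum_map]; rfl
    rw [h2]
    calc q * _ ≤ q * 1 := mul_le_mul_of_nonneg_left (hS _) hq0
      _ = q := mul_one q
  have hnn : ∀ a : {a : Fin g → ℕ // a ≠ 0}, 0 ≤ vt a * absPow x a := fun a =>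
    mul_nonneg (hvt a) (absPow_nonneg x a)
  have hsum : Summable (fun a : {a : Fin g → ℕ // a ≠ 0} => vt a * absPow x a) :=
    summable_of_sum_le hnn hfin
  exact ⟨hsum, lt_of_le_of_lt (hsum.tsum_le_of_sum_le hfin) hq1⟩

/-- coordinatewise multiplication by `l` with all `|l_j| ≤ 1`, `l_j ≠ 0`, preserves `Ω^1_ϑ`. -/
lemma mul_mem_om1 {vt : (Fin g → ℕ) → ℝ} (hvt : ∀ a, 0 ≤ vt a)
    {l y : Fin g → ℂ} (hl : ∀ j, ‖l j‖ ≤ 1) (hl0 : ∀ j, l j ≠ 0) (hy : y ∈ OmegaThetaOne vt) :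
    (fun j => l j * y j) ∈ OmegaThetaOne vt := by
  have hmon : ∀ (z : Fin g → ℂ) (a : Fin g → ℕ), absPow (fun j => l j * z j) a ≤ absPow z a := by
    intro z a
    unfold absPow
    refine Finset.prod_le_prod (fun _ _ => by positivity) fun j _ => ?_
    refine pow_le_pow_left₀ (norm_nonneg _) ?_ _
    rw [norm_mul]
    exact mul_le_of_le_one_left (norm_nonneg _) (hl j)
  set Bd : Set (Fin g → ℂ) := {x | BddAbove (Set.range fun a => vt a * absPow x a)} with hBd
  have hb : ∀ z ∈ Bd, (fun j => l j * z j) ∈ Bd := by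
    rintro z ⟨C, hC⟩
    refine ⟨C, ?_⟩
    rintro _ ⟨a, rfl⟩
    exact le_trans (mul_le_mul_of_nonneg_left (hmon z a) (hvt a)) (hC ⟨a, rfl⟩)
  refine ⟨?_, ?_⟩
  · -- the inverse image of the interior under division
    have hcont : Continuous fun z : Fin g → ℂ => (fun j => (l j)⁻¹ * z j) := by fun_prop
    have hsub : (fun z : Fin g → ℂ => (fun j => (l j)⁻¹ * z j)) ⁻¹' (interior Bd) ⊆ Bd := by
      intro z hz
      have h1 := hb _ (interior_subset hz)
      have h2 : (fun j => l j * ((fun j => (l j)⁻¹ * z j) j)) = z := by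
        funext j
        simp only
        rw [← mul_assoc, mul_inv_cancel₀ (hl0 j), one_mul]
      rwa [h2] at h1
    refine interior_maximal hsub (isOpen_interior.preimage hcont) ?_
    change (fun j => (l j)⁻¹ * (l j * y j)) ∈ interior Bd
    have : (fun j => (l j)⁻¹ * (l j * y j)) = y := by
      funext j
      rw [← mul_assoc, inv_mul_cancel₀ (hl0 j), one_mul]
    rw [this]
    exact hy.1
  · have hle : ∀ a : {a : Fin g → ℕ // a ≠ 0},
        vt a * absPow (fun j => l j * y j) a ≤ vt a * absPow y a := fun a =>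
      mul_le_mul_of_nonneg_left (hmon y a) (hvt a)
    have hnn : ∀ a : {a : Fin g → ℕ // a ≠ 0}, 0 ≤ vt a * absPow (fun j => l j * y j) a :=
      fun a => mul_nonneg (hvt a.1) (absPow_nonneg (fun j => l j * y j) a.1)
    have hs := Summable.of_nonneg_of_le hnn hle hy.2.1
    exact ⟨hs, lt_of_le_of_lt (hs.tsum_le_tsum hle hy.2.1) hy.2.2⟩

lemma cpoly_subset_closure {vt : (Fin g → ℕ) → ℝ} (hvt : ∀ a, 0 ≤ vt a)
    {y : Fin g → ℂ} (hy : y ∈ closure (OmegaThetaOne vt)) :
    cpoly (fun j => ‖y j‖) ⊆ closure (OmegaThetaOne vt) := by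
  intro z hz
  rw [mem_closure_iff_seq_limit] at hy ⊢
  obtain ⟨u, hu, hlim⟩ := hy
  -- the multiplier
  set m : Fin g → ℂ := fun j => if y j = 0 then 1 else z j / y j with hm
  have hmz : ∀ j, m j * y j = z j := by
    intro j
    by_cases h : y j = 0
    · have h1 : ‖z j‖ ≤ 0 := by simpa [h] using hz j
      have h2 : z j = 0 := by simpa using h1
      simp [hm, h, h2]
    · simp [hm, h]
  have hm1 : ∀ j, ‖m j‖ ≤ 1 := by
    intro j
    by_cases h : y j = 0
    · simp [hm, h]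
    · simp only [hm, h, if_false, norm_div]
      exact div_le_one_of_le₀ (hz j) (norm_nonneg _)
  -- approximate by nonzero multipliers
  set mn : ℕ → Fin g → ℂ := fun n j => if m j = 0 then (1 / ((n : ℂ) + 1)) else m j with hmn
  have hmn0 : ∀ n j, mn n j ≠ 0 := by
    intro n j
    by_cases h : m j = 0
    · simp only [hmn, h, if_true]
      exact one_div_ne_zero (Nat.cast_add_one_ne_zero n)
    · simp [hmn, h]
  have hmn1 : ∀ n j, ‖mn n j‖ ≤ 1 := by
    intro n j
    by_cases h : m j = 0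
    · simp only [hmn, h, if_true, norm_div, norm_one]
      have h1 : ‖(n : ℂ) + 1‖ = (n : ℝ) + 1 := by
        have : ((n : ℂ) + 1) = (((n : ℝ) + 1 : ℝ) : ℂ) := by push_cast; ring
        rw [this, Complex.norm_real, Real.norm_of_nonneg (by positivity)]
      rw [h1]
      rw [div_le_one (by positivity)]
      linarith [Nat.cast_nonneg (α := ℝ) n]
    · simp only [hmn, h, if_false]; exact hm1 j
  have hmnlim : ∀ j, Tendsto (fun n => mn n j) atTop (𝓝 (m j)) := by
    intro j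
    by_cases h : m j = 0
    · simp only [hmn, h, if_true]
      exact tendsto_one_div_add_atTop_nhds_zero_nat
    · simp only [hmn, h, if_false]; exact tendsto_const_nhds
  refine ⟨fun n j => mn n j * u n j, fun n => mul_mem_om1 hvt (hmn1 n) (hmn0 n) (hu n), ?_⟩
  rw [tendsto_pi_nhds] at hlim ⊢
  intro j
  have := (hmnlim j).mul (hlim j)
  rwa [hmz j] at this

/-- **The topological end of the proof.** -/
theorem topo_end (hg : 0 < g) {vt : (Fin g → ℕ) → ℝ} (hvt : ∀ a, 0 ≤ vt a)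
    (hpos : ∀ j, 0 < vt (Pi.single j 1))
    {Ω : Set (Fin g → ℂ)} (hΩ : IsOpen Ω) (h0 : (0 : Fin g → ℂ) ∈ Ω)
    (hcore : ∀ R : Fin g → ℝ, (∀ j, 0 < R j) → (∀ z : Fin g → ℂ, (∀ j, ‖z j‖ < R j) → z ∈ Ω) →
      ∀ A : Finset (Fin g → ℕ), ∑ a ∈ A, vt a * ∏ j, R j ^ (2 * a j) ≤ 1) :
    ¬ closure (OmegaThetaOne vt) ⊆ Ω := by
  intro hcl
  -- enlarging a compact polydisc inside Ω
  have henl : ∀ r : Fin g → ℝ, (∀ j, 0 ≤ r j) → cpoly r ⊆ Ω →
      ∃ δ > 0, cpoly (fun j => r j + δ) ⊆ Ω := by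
    intro r hr hsub
    have hcomp : IsCompact (cpoly r) := by
      have : cpoly r = Set.pi univ (fun j => Metric.closedBall (0 : ℂ) (r j)) := by
        ext x; simp [cpoly, Set.mem_pi]
      rw [this]
      exact isCompact_univ_pi fun j => isCompact_closedBall _ _
    obtain ⟨δ, hδ, hth⟩ := hcomp.exists_cthickening_subset_open hΩ hsub
    refine ⟨δ, hδ, fun x hx => hth ?_⟩
    rw [hcomp.cthickening_eq_biUnion_closedBall hδ.le]
    rw [Set.mem_iUnion₂]
    -- the nearest point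
    refine ⟨fun j => if ‖x j‖ ≤ r j then x j else (r j / ‖x j‖ : ℝ) • x j, ?_, ?_⟩
    · intro j
      change ‖(if ‖x j‖ ≤ r j then x j else (r j / ‖x j‖ : ℝ) • x j)‖ ≤ r j
      split_ifs with h
      · exact h
      · push Not at h
        have h1 : 0 < ‖x j‖ := lt_of_le_of_lt (hr j) h
        rw [norm_smul, Real.norm_of_nonneg (div_nonneg (hr j) h1.le),
          div_mul_cancel₀ _ h1.ne']
    · rw [Metric.mem_closedBall, dist_pi_le_iff hδ.le]
      intro j

      split_ifs with h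
      · simpa using hδ.le
      · push Not at h
        have h1 : 0 < ‖x j‖ := lt_of_le_of_lt (hr j) h
        have h2 : x j - (r j / ‖x j‖ : ℝ) • x j = (1 - r j / ‖x j‖ : ℝ) • x j := by
          rw [sub_smul, one_smul]
        rw [dist_eq_norm, h2, norm_smul, Real.norm_of_nonneg (by
          rw [sub_nonneg, div_le_one h1]; exact h.le), sub_mul, div_mul_cancel₀ _ h1.ne', one_mul]
        have := hx j
        simp only at this
        linarith
  -- 0 is in om1
  have hmem0 : (0 : Fin g → ℂ) ∈ OmegaThetaOne vt := by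
    obtain ⟨δ, hδ, hs⟩ := henl (fun _ => 0) (fun _ => le_rfl) (by
      intro x hx
      have : x = 0 := by
        funext j
        have := hx j
        simpa using this
      rw [this]; exact h0)
    have hR : ∀ j : Fin g, (0 : ℝ) < (fun _ : Fin g => (0 : ℝ) + δ) j := fun j => by simpa using hδ
    exact opoly_subset hvt hR (hcore _ hR fun z hz => hs fun j => (hz j).le) (fun j => by simpa using hδ)
  -- om1 is not everything
  have hne : OmegaThetaOne vt ≠ univ := by
    intro h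
    set j0 : Fin g := ⟨0, hg⟩ with hj0
    have hp := hpos j0
    set c : ℝ := vt (Pi.single j0 1) with hc
    set x : Fin g → ℂ := fun _ => ((1 + 1 / c : ℝ) : ℂ) with hx
    have hx1 : x ∈ OmegaThetaOne vt := by rw [h]; trivial
    have hne0 : (Pi.single j0 1 : Fin g → ℕ) ≠ 0 := by
      intro h
      have := congrFun h j0
      simp at this
    have h1 := lt_of_le_of_lt (hx1.2.1.le_tsum ⟨Pi.single j0 1, hne0⟩ (fun a _ =>
      mul_nonneg (hvt a) (absPow_nonneg x a))) hx1.2.2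
    simp only at h1
    have h2 : absPow x (Pi.single j0 1) = (1 + 1 / c) ^ 2 := by
      unfold absPow
      rw [Finset.prod_eq_single j0]
      · simp only [Pi.single_eq_same, hx, Complex.norm_real]
        rw [Real.norm_of_nonneg (by positivity)]
      · intro j _ hj
        rw [Pi.single_apply, if_neg hj]; simp
      · intro h; exact absurd (Finset.mem_univ _) h
    rw [h2, ← hc] at h1
    have h3 : c * (1 + 1 / c) ^ 2 = c + 2 + 1 / c := by field_simp; ring
    rw [h3] at h1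
    have : 0 < 1 / c := by positivity
    linarith
  -- frontier point
  have hfr : (frontier (OmegaThetaOne vt)).Nonempty := by
    rw [Set.nonempty_iff_ne_empty]
    intro h
    have hclopen : IsClopen (OmegaThetaOne vt) := isClopen_iff_frontier_eq_empty.2 h
    rcases isClopen_iff.1 hclopen with h1 | h1
    · rw [h1] at hmem0; exact hmem0
    · exact hne h1
  obtain ⟨y, hy⟩ := hfr
  have hycl : y ∈ closure (OmegaThetaOne vt) := frontier_subset_closure hy
  obtain ⟨δ, hδ, hs⟩ := henl (fun j => ‖y j‖) (fun _ => norm_nonneg _)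
    ((cpoly_subset_closure hvt hycl).trans hcl)
  have hR : ∀ j : Fin g, (0 : ℝ) < (fun j : Fin g => ‖y j‖ + δ) j := fun j => by
    have := norm_nonneg (y j); simp only; linarith
  have hsub := opoly_subset hvt hR (hcore _ hR fun z hz => hs fun j => (hz j).le)
  have hyint : y ∈ interior (OmegaThetaOne vt) :=
    interior_maximal hsub (isOpen_opoly _) (fun j => by simp only; linarith)
  exact hy.2 hyint

/-- every open polydisc contained in `Ω` is contained in `Ω^1_ϑ` -/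
theorem polydisc_subset_of_core {Ω : Set (Fin g → ℂ)} {c : (Fin g → ℕ) → ℝ} (hc : ∀ a, 0 < c a)
    (hcore : ∀ R : Fin g → ℝ, (∀ j, 0 < R j) → (∀ z : Fin g → ℂ, (∀ j, ‖z j‖ < R j) → z ∈ Ω) →
      ∀ A : Finset (Fin g → ℕ), ∑ a ∈ A, theta c a * ∏ j, R j ^ (2 * a j) ≤ 1)
    (R : Fin g → ℝ) (hR : ∀ j, 0 < R j) (hRΩ : ∀ z : Fin g → ℂ, (∀ j, ‖z j‖ < R j) → z ∈ Ω) :
    {z : Fin g → ℂ | ∀ j, ‖z j‖ < R j} ⊆ OmegaThetaOne (theta c) :=
  opoly_subset (theta_nonneg c hc) hR (hcore R hR hRΩ)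

/-- the closure of `Ω^1_ϑ` is not contained in `Ω` -/
theorem not_closure_subset_of_core (hg : 0 < g) {Ω : Set (Fin g → ℂ)} (hΩ : IsOpen Ω)
    (h0 : (0 : Fin g → ℂ) ∈ Ω) {c : (Fin g → ℕ) → ℝ} (hc : ∀ a, 0 < c a)
    (hcore : ∀ R : Fin g → ℝ, (∀ j, 0 < R j) → (∀ z : Fin g → ℂ, (∀ j, ‖z j‖ < R j) → z ∈ Ω) →
      ∀ A : Finset (Fin g → ℕ), ∑ a ∈ A, theta c a * ∏ j, R j ^ (2 * a j) ≤ 1) :
    ¬ closure (OmegaThetaOne (theta c)) ⊆ Ω :=
  topo_end hg (theta_nonneg c hc) (fun j => by rw [theta_single]; exact hc _) hΩ h0 hcore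

end MPa1177b
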