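import Pool.Agent.Work.MP_a1177b_an.Fourier

open scoped ComplexConjugate ComplexOrder
open Finset

namespace MPa1177b

lemma elem_ineq (A K : ℝ) (hA : 0 ≤ A) (hK : 0 ≤ K) (w t : ℂ) :
    K * A ^ 2 / (1 + K * ‖w‖ ^ 2) ≤ ‖t‖ ^ 2 + K * ‖conj w * t + (A : ℂ)‖ ^ 2 := by
  set x := ‖conj w * t + (A : ℂ)‖ with hx
  have h1 : A ≤ x + ‖w‖ * ‖t‖ := by
    have h2 : (A : ℂ) = (conj w * t + (A : ℂ)) - conj w * t := by ring
    calc A = ‖(A : ℂ)‖ := by rw [Complex.norm_real, Real.norm_of_nonneg hA]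
      _ = ‖(conj w * t + (A : ℂ)) - conj w * t‖ := by rw [← h2]
      _ ≤ ‖conj w * t + (A : ℂ)‖ + ‖conj w * t‖ := norm_sub_le _ _
      _ = _ := by rw [norm_mul, RCLike.norm_conj]
  have hpos : 0 < 1 + K * ‖w‖ ^ 2 := by positivity
  rw [div_le_iff₀ hpos]
  have h3 : A ^ 2 ≤ (x + ‖w‖ * ‖t‖) ^ 2 := by gcongr
  have h4 : K * (x + ‖w‖ * ‖t‖) ^ 2 ≤ (‖t‖ ^ 2 + K * x ^ 2) * (1 + K * ‖w‖ ^ 2) := by
    nlinarith [sq_nonneg (K * x * ‖w‖ - ‖t‖)]
  calc K * A ^ 2 ≤ K * (x + ‖w‖ * ‖t‖) ^ 2 := by gcongr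
    _ ≤ _ := h4

lemma qv_eq_qf {β : Type*} (F : Finset β) (A : β → β → ℂ) (u : β → ℂ) :
    qv F A u = qf F A u := by
  unfold qv qf
  congr 1
  refine Finset.sum_congr rfl fun x _ => Finset.sum_congr rfl fun y _ => ?_
  simp
  ring

variable {g N : ℕ} [NeZero N]

/-- extended family of points -/
noncomputable def ept (r : Fin g → ℝ) (ω : Fin g → ℂ) : Option (Fin g → ZMod N) → (Fin g → ℂ) :=
  fun o => o.elim ω (gp r)

lemma mon_zero (z : Fin g → ℂ) : mon 0 z = 1 := by simp [mon]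

theorem schur_lower {c : (Fin g → ℕ) → ℝ} {k : (Fin g → ℂ) → (Fin g → ℂ) → ℂ} {r : Fin g → ℝ}
    {ω : Fin g → ℂ} (hr : ∀ j, 0 < r j) (hc : ∀ a, 0 < c a) (hc0 : c 0 = 1)
    (hH : Herm univ (fun i j : Option (Fin g → ZMod N) => k (ept r ω i) (ept r ω j)))
    (h : ∀ i j : Option (Fin g → ZMod N), HasSum (fun a => (c a : ℂ) * mon a (ept r ω i) *
      conj (mon a (ept r ω j))) (k (ept r ω i) (ept r ω j)))
    (b : Fin g → ℕ) (hb : (cst b : Fin g → ZMod N) ≠ 0) :
    ((N : ℝ) ^ g) ^ 2 * (c b * (∏ j, r j ^ b j) ^ 2) / (k ω ω).re ≤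
      qf univ (fun n n' : Fin g → ZMod N => k (gp r n) (gp r n') -
        k (gp r n) ω * k ω (gp r n') / k ω ω) (EE (cst b)) := by
  classical
  have hb0 : b ≠ 0 := by
    rintro rfl
    apply hb
    ext j
    simp [cst]
  set K : Option (Fin g → ZMod N) → Option (Fin g → ZMod N) → ℂ :=
    fun i j => k (ept r ω i) (ept r ω j) with hKdef
  set κ : ℝ := (k ω ω).re with hκ
  set B : ℂ := mon b ω with hB
  -- kappa
  have hκ1 : 1 + c b * ‖B‖ ^ 2 ≤ κ := by
    have h1 := Complex.hasSum_re (h none none)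
    have h2 : HasSum (fun a => c a * ‖mon a ω‖ ^ 2) κ := by
      refine hasSum_re_congr h1 fun a => ?_
      have : (c a : ℂ) * mon a (ept (N := N) r ω none) * conj (mon a (ept (N := N) r ω none)) =
          ((c a * ‖mon a ω‖ ^ 2 : ℝ) : ℂ) := by
        rw [mul_assoc, Complex.mul_conj']
        push_cast
        rfl
      rw [this, Complex.ofReal_re]
    have h3 := sum_le_hasSum ({0, b} : Finset (Fin g → ℕ))
      (fun a _ => mul_nonneg (hc a).le (by positivity)) h2
    rw [Finset.sum_pair (Ne.symm hb0), hc0, mon_zero] at h3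
    simpa using h3
  have hκpos : 0 < κ := by
    have : 0 ≤ c b * ‖B‖ ^ 2 := mul_nonneg (hc b).le (by positivity)
    linarith
  have hKnn : K none none = (κ : ℂ) := by
    have := hH.diag_eq (mem_univ none)
    exact this
  have hKnn0 : K none none ≠ 0 := by
    rw [hKnn]
    exact_mod_cast hκpos.ne'
  set a0 : ℂ := ∑ n : Fin g → ZMod N, K none (some n) * EE (cst b) n with ha0
  set t : ℂ := - a0 / (κ : ℂ) with ht
  let u : Option (Fin g → ZMod N) → ℂ := fun o => o.elim t (EE (cst b))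
  have e1 : qf univ K u = qf univ (fun n n' : Fin g → ZMod N => k (gp r n) (gp r n') -
        k (gp r n) ω * k ω (gp r n') / k ω ω) (EE (cst b)) := by
    rw [← qv_eq_qf, qv_schur (mem_univ none) hH]
    have z1 : ∑ z : Option (Fin g → ZMod N), K none z • u z = 0 := by
      rw [Fintype.sum_option]
      simp only [u, Option.elim_none, Option.elim_some, smul_eq_mul]
      rw [← ha0, hKnn, ht]
      have : (κ : ℂ) ≠ 0 := by exact_mod_cast hκpos.ne'
      field_simp
      ring
    rw [z1, norm_zero]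
    have z2 : qv univ (schur K none) u = qf univ (fun n n' : Fin g → ZMod N =>
        k (gp r n) (gp r n') - k (gp r n) ω * k ω (gp r n') / k ω ω) (EE (cst b)) := by
      rw [qv_eq_qf]
      unfold qf
      congr 1
      rw [Fintype.sum_option]
      have z3 : ∑ y, conj (u none) * schur K none none y * u y = 0 := by
        refine Finset.sum_eq_zero fun y _ => ?_
        rw [schur_left K none hKnn0]
        simp
      rw [z3, zero_add]
      refine Finset.sum_congr rfl fun n _ => ?_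
      rw [Fintype.sum_option, schur_right K none hKnn0]
      simp only [mul_zero, zero_mul, zero_add]
      rfl
    rw [z2]
    simp
  have e2 : HasSum (fun a => c a * ‖∑ i, conj (mon a (ept r ω i)) * u i‖ ^ 2) (qf univ K u) :=
    hasSum_qf (F := univ) (φ := fun a i => mon a (ept r ω i)) (fun i _ j _ => h i j) u
  have e3 := sum_le_hasSum ({0, b} : Finset (Fin g → ℕ))
    (fun a _ => mul_nonneg (hc a).le (by positivity)) e2
  rw [Finset.sum_pair (Ne.symm hb0), hc0, one_mul] at e3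
  have f1 : ∑ i, conj (mon 0 (ept r ω i)) * u i = t := by
    rw [Fintype.sum_option]
    simp only [mon_zero, map_one, one_mul, u, Option.elim_none, Option.elim_some]
    rw [EE_sum_right, if_neg hb, add_zero]
  set A : ℝ := (N : ℝ) ^ g * ∏ j, r j ^ b j with hA
  have f2 : ∑ i, conj (mon b (ept r ω i)) * u i = conj B * t + (A : ℂ) := by
    rw [Fintype.sum_option]
    congr 1
    simp only [u, Option.elim_some]
    have : ∀ n : Fin g → ZMod N, conj (mon b (ept r ω (some n))) * EE (cst b) n =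
        ((∏ j, r j ^ b j : ℝ) : ℂ) := by
      intro n
      change conj (mon b (gp r n)) * EE (cst b) n = _
      rw [mon_gp, map_mul, Complex.conj_ofReal, mul_assoc, EE_conj_mul_self, mul_one]
    rw [Finset.sum_congr rfl fun n _ => this n]
    simp only [Finset.sum_const, Finset.card_univ, Fintype.card_fun, ZMod.card, Fintype.card_fin,
      nsmul_eq_mul, hA]
    push_cast
    ring
  rw [f1, f2] at e3
  have hA0 : 0 ≤ A := by
    have : 0 ≤ ∏ j, r j ^ b j := Finset.prod_nonneg fun j _ => pow_nonneg (hr j).le _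
    positivity
  have e4 := elem_ineq A (c b) hA0 (hc b).le B t
  rw [← e1]
  refine le_trans ?_ (e4.trans e3)
  have e5 : ((N : ℝ) ^ g) ^ 2 * (c b * (∏ j, r j ^ b j) ^ 2) = c b * A ^ 2 := by
    rw [hA]; ring
  rw [e5]
  have hcb := (hc b).le
  have : 0 < 1 + c b * ‖B‖ ^ 2 := by positivity
  gcongr

end MPa1177b
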