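import Pool.Agent.Work.MP_a1177b_an.Perturb
import Pool.Agent.Work.MP_a1177b_an.Lower

open scoped ComplexConjugate ComplexOrder
open Finset

namespace MPa1177b

set_option maxHeartbeats 1000000 in
theorem grid_ineq {g : ℕ} {X : Set (Fin g → ℂ)} {k l : (Fin g → ℂ) → (Fin g → ℂ) → ℂ}
    (hXo : IsOpen X) (h : IsCPPair k l X)
    (hkc : ContinuousOn (fun p : (Fin g → ℂ) × (Fin g → ℂ) => k p.1 p.2) (X ×ˢ X))
    (hlc : ContinuousOn (fun p : (Fin g → ℂ) × (Fin g → ℂ) => l p.1 p.2) (X ×ˢ X))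
    (hdense : ∀ x ∈ X, ∀ δ : ℝ, 0 < δ → ∃ y ∈ X, dist y x < δ ∧ 0 < (l y y).re)
    (hkpos : ∀ x ∈ X, 0 < (k x x).re)
    {c : (Fin g → ℕ) → ℝ} (hc : ∀ a, 0 < c a) (hc0 : c 0 = 1)
    {R r : Fin g → ℝ} (hr : ∀ j, 0 < r j) (hrR : ∀ j, r j < R j)
    (hRX : ∀ z : Fin g → ℂ, (∀ j, ‖z j‖ < R j) → z ∈ X)
    (hpow : ∀ z w : Fin g → ℂ, (∀ j, ‖z j‖ < R j) → (∀ j, ‖w j‖ < R j) →
      HasSum (fun a => (c a : ℂ) * mon a z * conj (mon a w)) (k z w))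
    {ω : Fin g → ℂ} (hωR : ∀ j, ‖ω j‖ < R j) (j₀ : Fin g) (hω : ‖ω j₀‖ < r j₀)
    (hlω : 0 < (l ω ω).re) {Λ : ℝ} (hΛ : 0 < Λ)
    (hlΛ : ∀ z : Fin g → ℂ, (∀ j, ‖z j‖ = r j) → (l z z).re < Λ)
    {N : ℕ} [NeZero N] {ε : ℝ} (hε : 0 < ε) :
    ∃ C : (Fin g → ZMod N) → ℝ, (∀ b, 0 ≤ C b) ∧
      ∑ b, C b ≤ ((N : ℝ) ^ g)⁻¹ * ∑ n : Fin g → ZMod N,
        (1 - ‖l (gp r n) ω‖ ^ 2 / (Λ * (l ω ω).re)) + ε ∧
      ∀ b : Fin g → ℕ, (cst b : Fin g → ZMod N) ≠ 0 →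
        (c b * (∏ j, r j ^ b j) ^ 2) / (k ω ω).re - ε ≤
          ∑' a : Fin g → ℕ, (c a * (∏ j, r j ^ a j) ^ 2) * C (cst b - cst a) := by
  classical
  have hgR : ∀ (n : Fin g → ZMod N) j, ‖gp r n j‖ < R j := fun n j => by
    rw [norm_gp r hr]; exact hrR j
  obtain ⟨m, m1, m2, m3⟩ := grid_cert' hXo h hkc hlc hdense (gp (N := N) r) (gp_injective r hr)
    (fun n => hRX _ (hgR n)) ω (hRX _ hωR) (fun n hn => by
      have h1 := norm_gp r hr n j₀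
      rw [hn] at h1
      exact absurd h1 hω.ne) hkpos hlω (fun n => hlΛ _ (fun j => norm_gp r hr n j)) hΛ hε
  have hN : 0 < (N : ℝ) ^ g := by
    have : 0 < (N : ℝ) := by exact_mod_cast Nat.pos_of_ne_zero (NeZero.ne N)
    positivity
  set Q : ℝ := (N : ℝ) ^ g with hQ
  refine ⟨fun b => qf univ m (EE b) / Q ^ 2, fun b => div_nonneg (m1.2 _) (by positivity), ?_, ?_⟩
  · rw [← Finset.sum_div, sum_qf_EE, ← hQ]
    have h1 : Q * ∑ n, (m n n).re / Q ^ 2 = Q⁻¹ * ∑ n, (m n n).re := by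
      rw [← Finset.sum_div]
      field_simp
    have h1' : Q * ∑ n, (m n n).re = Q * ∑ n, (m n n).re := rfl
    have h2 : (Q * ∑ n, (m n n).re) / Q ^ 2 = Q⁻¹ * ∑ n, (m n n).re := by
      field_simp
    rw [h2]
    have h3 : ∑ n, (m n n).re ≤ ∑ n : Fin g → ZMod N,
        ((1 - ‖l (gp r n) ω‖ ^ 2 / (Λ * (l ω ω).re)) + ε) :=
      Finset.sum_le_sum fun n _ => m3 n
    rw [Finset.sum_add_distrib] at h3
    simp only [Finset.sum_const, Finset.card_univ, Fintype.card_fun, ZMod.card, Fintype.card_fin,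
      nsmul_eq_mul] at h3
    push_cast at h3
    rw [← hQ] at h3
    calc Q⁻¹ * ∑ n, (m n n).re ≤ Q⁻¹ * (∑ n : Fin g → ZMod N,
        (1 - ‖l (gp r n) ω‖ ^ 2 / (Λ * (l ω ω).re)) + Q * ε) := by gcongr
      _ = _ := by rw [mul_add]; field_simp
  · intro b hb
    have hpt : ∀ (i : Option (Fin g → ZMod N)) j, ‖ept r ω i j‖ < R j := by
      rintro (_ | n) j
      · exact hωR j
      · exact hgR n j
    have hX : ∀ i : Option (Fin g → ZMod N), ept r ω i ∈ X := fun i => hRX _ (hpt i)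
    have e1 := schur_lower (N := N) (k := k) (ω := ω) hr hc hc0 (herm_pt h.1 (ept r ω) hX univ)
      (fun i j => hpow _ _ (hpt i) (hpt j)) b hb
    have e2 := m2 (EE (cst b))
    have e3 : ∑ n : Fin g → ZMod N, ‖EE (cst b) n‖ = Q := by
      simp only [EE_norm, Finset.sum_const, Finset.card_univ, Fintype.card_fun, ZMod.card,
        Fintype.card_fin, nsmul_eq_mul, mul_one]
      push_cast
      rfl
    rw [e3] at e2
    have e4 := hasSum_first (K := fun n n' : Fin g → ZMod N => k (gp r n) (gp r n')) (c := c)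
      (r := r) (fun n n' => hpow _ _ (hgR n) (hgR n')) m (cst b)
    have e5 := (e4.div_const (Q ^ 2)).tsum_eq
    have e6 : ∑' a : Fin g → ℕ, (c a * (∏ j, r j ^ a j) ^ 2) *
        (qf univ m (EE (cst b - cst a)) / Q ^ 2) =
        qf univ (fun n n' => k (gp r n) (gp r n') * m n n') (EE (cst b)) / Q ^ 2 := by
      rw [← e5]
      refine tsum_congr fun a => ?_
      rw [mul_div_assoc]
    rw [e6, le_div_iff₀ (by positivity)]
    have e7 : ((c b * (∏ j, r j ^ b j) ^ 2) / (k ω ω).re - ε) * Q ^ 2 =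
        Q ^ 2 * (c b * (∏ j, r j ^ b j) ^ 2) / (k ω ω).re - ε * Q ^ 2 := by ring
    rw [e7]
    linarith

end MPa1177b
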