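import Pool.Agent.Work.MP_a1177b_an.Defs

/-!
# The power series of a normalized diagonal holomorphic kernel converges on polydiscs
-/

set_option autoImplicit false

open scoped ComplexConjugate ComplexOrder Topology

namespace MPa1177b

open Filter Metric

/-- One-variable extension: a power series expansion near the origin of a holomorphic function
on a disc is valid on the disc. -/
lemma hasSum_extend {φ : ℂ → ℂ} {s : ℝ} (hφ : DifferentiableOn ℂ φ (ball 0 s)) {b : ℕ → ℂ}
    {ε : ℝ} (hε : 0 < ε) (h : ∀ μ : ℂ, ‖μ‖ < ε → HasSum (fun n => b n * μ ^ n) (φ μ))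
    {μ : ℂ} (hμ : ‖μ‖ < s) : HasSum (fun n => b n * μ ^ n) (φ μ) := by
  have hs : 0 < s := lt_of_le_of_lt (norm_nonneg _) hμ
  -- the formal series
  set p : FormalMultilinearSeries ℂ ℂ ℂ := fun n =>
    ContinuousMultilinearMap.mkPiRing ℂ (Fin n) (b n) with hp
  have hpapply : ∀ (n : ℕ) (y : ℂ), (p n fun _ => y) = b n * y ^ n := by
    intro n y
    simp [hp, mul_comm]
  -- radius
  have hrad : ENNReal.ofReal (ε / 2) ≤ p.radius := by
    have h1 : Summable (fun n => b n * ((ε / 2 : ℝ) : ℂ) ^ n) := by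
      refine (h _ ?_).summable
      rw [Complex.norm_real, Real.norm_of_nonneg (by positivity)]
      linarith
    have h2 := h1.norm
    have : ENNReal.ofReal (ε / 2) = ((Real.toNNReal (ε / 2) : NNReal) : ENNReal) := rfl
    rw [this]
    refine p.le_radius_of_summable_norm (r := Real.toNNReal (ε / 2)) ?_
    refine h2.congr fun n => ?_
    rw [norm_mul, norm_pow, Complex.norm_real, Real.norm_of_nonneg (by positivity),
      Real.coe_toNNReal _ (by positivity)]
    congr 1
    simp [hp]
  have hp1 : HasFPowerSeriesOnBall φ p 0 (ENNReal.ofReal (ε / 2)) := by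
    refine ⟨hrad, by simpa using hε, ?_⟩
    intro y hy
    rw [zero_add]
    simp_rw [hpapply]
    refine h y ?_
    rw [Metric.mem_eball, edist_zero_right] at hy
    have h3 : ‖y‖ < ε / 2 := by
      rw [← ofReal_norm] at hy
      exact (ENNReal.ofReal_lt_ofReal_iff (by positivity)).1 hy
    linarith
  -- Cauchy series
  obtain ⟨r, hμr, hrs⟩ := exists_between hμ
  have hr : 0 < r := lt_of_le_of_lt (norm_nonneg _) hμr
  have hd : DifferentiableOn ℂ φ (closedBall 0 (r.toNNReal : ℝ)) := by
    rw [Real.coe_toNNReal _ hr.le]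
    exact hφ.mono (closedBall_subset_ball hrs)
  have hp2 := hd.hasFPowerSeriesOnBall (Real.toNNReal_pos.2 hr)
  have heq := hp1.hasFPowerSeriesAt.eq_formalMultilinearSeries hp2.hasFPowerSeriesAt
  rw [← heq] at hp2
  have h4 := hp2.hasSum (y := μ) (by
    rw [Metric.mem_eball, edist_zero_right, ← ofReal_norm]
    exact (ENNReal.ofReal_lt_ofReal_iff hr).2 hμr)
  rw [zero_add] at h4
  simpa only [hpapply] using h4

/-- the degree of a multi-index -/
def deg {g : ℕ} (a : Fin g → ℕ) : ℕ := ∑ j, a j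

instance finite_fiber {g : ℕ} (n : ℕ) : Finite {a : Fin g → ℕ // deg a = n} := by
  have : Set.Finite {a : Fin g → ℕ | deg a = n} := by
    refine (Set.finite_Iic (fun _ : Fin g => n)).subset ?_
    intro a ha
    rw [Set.mem_Iic]
    intro j
    have : a j ≤ ∑ i, a i := Finset.single_le_sum (f := fun i => a i)
      (fun _ _ => Nat.zero_le _) (Finset.mem_univ j)
    exact this.trans (le_of_eq ha)
  exact this

lemma mon_smul {g : ℕ} (l : ℂ) (z : Fin g → ℂ) (a : Fin g → ℕ) :
    mon a (l • z) = l ^ deg a * mon a z := by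
  unfold mon deg
  rw [← Finset.prod_pow_eq_pow_sum, ← Finset.prod_mul_distrib]
  exact Finset.prod_congr rfl fun j _ => by simp [mul_pow]

lemma norm_mon {g : ℕ} (z : Fin g → ℂ) (a : Fin g → ℕ) : ‖mon a z‖ = ∏ j, ‖z j‖ ^ a j := by
  unfold mon
  rw [norm_prod]
  exact Finset.prod_congr rfl fun j _ => norm_pow _ _

/-- grouping by degree -/
lemma hasSum_deg {g : ℕ} {f : (Fin g → ℕ) → ℂ} {S : ℂ} (h : HasSum f S) :
    HasSum (fun n => ∑' a : {a : Fin g → ℕ // deg a = n}, f a) S := by
  have h1 : HasSum (fun p : (Σ n, {a : Fin g → ℕ // deg a = n}) =>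
      f ((Equiv.sigmaFiberEquiv deg) p)) S :=
    ((Equiv.sigmaFiberEquiv (deg (g := g))).hasSum_iff).2 h
  refine h1.sigma fun n => ?_
  exact (summable_of_hasFiniteSupport (Set.toFinite _)).hasSum

theorem hasSum_on_polydisc {g : ℕ} {Ω : Set (Fin g → ℂ)}
    {k : (Fin g → ℂ) → (Fin g → ℂ) → ℂ} {c : (Fin g → ℕ) → ℝ}
    (hk : IsHolKernel Ω k) (hc : IsNormDiag k c) (R : Fin g → ℝ)
    (hR : ∀ z : Fin g → ℂ, (∀ j, ‖z j‖ < R j) → z ∈ Ω) {z w : Fin g → ℂ}
    (hz : ∀ j, ‖z j‖ < R j) (hw : ∀ j, ‖w j‖ < R j) :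
    HasSum (fun a => (c a : ℂ) * mon a z * conj (mon a w)) (k z w) := by
  -- the degree sums
  have key : ∀ z w : Fin g → ℂ, (∀ j, ‖z j‖ < R j) → (∀ j, ‖w j‖ < R j) →
      HasSum (fun n => ∑' a : {a : Fin g → ℕ // deg a = n},
        (c a : ℂ) * mon a.1 z * conj (mon a.1 w)) (k z w) := by
    intro z w hz hw
    set d : ℕ → ℂ := fun n => ∑' a : {a : Fin g → ℕ // deg a = n},
        (c a : ℂ) * mon a.1 z * conj (mon a.1 w) with hd
    -- s > 1
    obtain ⟨s, hs1, hsz, hsw⟩ : ∃ s : ℝ, 1 < s ∧ (∀ j, s * ‖z j‖ < R j) ∧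
        (∀ j, s * ‖w j‖ < R j) := by
      have h1 : ∀ᶠ s : ℝ in 𝓝 1, ∀ j, s * ‖z j‖ < R j ∧ s * ‖w j‖ < R j := by
        rw [Filter.eventually_all]
        intro j
        have c1 : Tendsto (fun s : ℝ => s * ‖z j‖) (𝓝 1) (𝓝 (1 * ‖z j‖)) :=
          (continuous_id.mul continuous_const).tendsto 1
        have c2 : Tendsto (fun s : ℝ => s * ‖w j‖) (𝓝 1) (𝓝 (1 * ‖w j‖)) :=
          (continuous_id.mul continuous_const).tendsto 1
        rw [one_mul] at c1 c2
        exact (c1.eventually_lt_const (hz j)).and (c2.eventually_lt_const (hw j))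
      have h2 : ∀ᶠ s : ℝ in 𝓝[>] 1, (∀ j, s * ‖z j‖ < R j ∧ s * ‖w j‖ < R j) ∧ 1 < s :=
        (h1.filter_mono nhdsWithin_le_nhds).and self_mem_nhdsWithin
      obtain ⟨s, h3, h4⟩ := h2.exists
      exact ⟨s, h4, fun j => (h3 j).1, fun j => (h3 j).2⟩
    have hs0 : 0 < s := by linarith
    set K : (Fin g → ℂ) × (Fin g → ℂ) → ℂ := fun p => k p.1 (star p.2) with hK
    have hKd : DifferentiableOn ℂ K {p | p.1 ∈ Ω ∧ star p.2 ∈ Ω} := hk.2
    have hzl : ∀ l : ℂ, ‖l‖ < s → l • z ∈ Ω := by
      intro l hl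
      apply hR
      intro j
      rw [Pi.smul_apply, norm_smul]
      exact lt_of_le_of_lt (mul_le_mul_of_nonneg_right hl.le (norm_nonneg _)) (hsz j)
    have hwl : ∀ l : ℂ, ‖l‖ < s → star (l • star w) ∈ Ω := by
      intro l hl
      apply hR
      intro j
      rw [Pi.star_apply, Pi.smul_apply, Pi.star_apply, norm_star, norm_smul, norm_star]
      exact lt_of_le_of_lt (mul_le_mul_of_nonneg_right hl.le (norm_nonneg _)) (hsw j)
    -- near the origin
    obtain ⟨ε, hε, hεs, hnear⟩ : ∃ ε : ℝ, 0 < ε ∧ ε ≤ s ∧ ∀ l m : ℂ, ‖l‖ < ε → ‖m‖ < ε →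
        HasSum (fun n => d n * (l * m) ^ n) (K (l • z, m • star w)) := by
      obtain ⟨δ, hδ, hball⟩ := Metric.eventually_nhds_iff.1 hc.2.2
      refine ⟨min (δ / (‖z‖ + ‖w‖ + 1)) s, lt_min (by positivity) hs0, min_le_right _ _,
        fun l m hl hm => ?_⟩
      replace hl := lt_of_lt_of_le hl (min_le_left _ _)
      replace hm := lt_of_lt_of_le hm (min_le_left _ _)
      have hzb : ‖l • z‖ < δ := by
        rw [norm_smul]
        calc ‖l‖ * ‖z‖ ≤ ‖l‖ * (‖z‖ + ‖w‖ + 1) := by
              apply mul_le_mul_of_nonneg_left _ (norm_nonneg _)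
              linarith [norm_nonneg w]
          _ < δ := by rwa [← lt_div_iff₀ (by positivity)]
      have hwb : ‖star (m • star w)‖ < δ := by
        rw [norm_star, norm_smul, norm_star]
        calc ‖m‖ * ‖w‖ ≤ ‖m‖ * (‖z‖ + ‖w‖ + 1) := by
              apply mul_le_mul_of_nonneg_left _ (norm_nonneg _)
              linarith [norm_nonneg z]
          _ < δ := by rwa [← lt_div_iff₀ (by positivity)]
      have h1 := hball (y := (l • z, star (m • star w))) (by
        rw [dist_zero_right, Prod.norm_def, max_lt_iff]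
        exact ⟨hzb, hwb⟩)
      have h2 := hasSum_deg h1
      refine h2.congr_fun fun n => ?_
      rw [hd, ← tsum_mul_right]
      refine tsum_congr fun a => ?_
      have e1 : star (m • star w) = (conj m) • w := by
        funext j
        simp
      rw [e1, mon_smul, mon_smul, a.2]
      simp only [map_mul, map_pow, Complex.conj_conj]
      ring
    -- first extension
    have hext1 : ∀ l m : ℂ, ‖l‖ < ε → ‖m‖ < s →
        HasSum (fun n => d n * (l * m) ^ n) (K (l • z, m • star w)) := by
      intro l m hl hm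
      have hls : ‖l‖ < s := lt_of_lt_of_le hl hεs
      have hdiff : DifferentiableOn ℂ (fun m : ℂ => K (l • z, m • star w)) (ball 0 s) := by
        refine hKd.comp (f := fun m : ℂ => (l • z, m • star w)) ?_ ?_
        · fun_prop
        · intro m hm
          rw [mem_ball_zero_iff] at hm
          exact ⟨hzl l hls, hwl m hm⟩
      have h1 := hasSum_extend hdiff (b := fun n => d n * l ^ n) hε (fun m hm => by
        have := hnear l m hl hm
        simp_rw [mul_pow] at this
        simpa only [mul_assoc] using this) hm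
      simp_rw [mul_pow]
      simpa only [mul_assoc] using h1
    -- second extension
    have hext2 : ∀ l m : ℂ, ‖l‖ < s → ‖m‖ < s →
        HasSum (fun n => d n * (l * m) ^ n) (K (l • z, m • star w)) := by
      intro l m hl hm
      have hdiff : DifferentiableOn ℂ (fun l : ℂ => K (l • z, m • star w)) (ball 0 s) := by
        refine hKd.comp (f := fun l : ℂ => (l • z, m • star w)) ?_ ?_
        · fun_prop
        · intro l hl
          rw [mem_ball_zero_iff] at hl
          exact ⟨hzl l hl, hwl m hm⟩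
      have h1 := hasSum_extend hdiff (b := fun n => d n * m ^ n) hε (fun l hl => by
        have := hext1 l m hl hm
        simp_rw [mul_pow] at this
        refine this.congr_fun fun n => ?_
        ring) hl
      simp_rw [mul_pow]
      refine h1.congr_fun fun n => ?_
      ring
    have h3 := hext2 1 1 (by simpa using hs1) (by simpa using hs1)
    simpa [hK] using h3
  -- the diagonal real case gives absolute convergence
  set ρ : Fin g → ℂ := fun j => ((max ‖z j‖ ‖w j‖ : ℝ) : ℂ) with hρ
  have hρn : ∀ j, ‖ρ j‖ = max ‖z j‖ ‖w j‖ := by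
    intro j
    rw [hρ, Complex.norm_real, Real.norm_of_nonneg (le_max_of_le_left (norm_nonneg _))]
  have hρR : ∀ j, ‖ρ j‖ < R j := fun j => by rw [hρn]; exact max_lt (hz j) (hw j)
  set f : (Fin g → ℕ) → ℝ := fun a => c a * ∏ j, (max ‖z j‖ ‖w j‖) ^ (2 * a j) with hf
  have hf0 : ∀ a, 0 ≤ f a := fun a => mul_nonneg (hc.1 a).le (Finset.prod_nonneg fun j _ => by
    have : 0 ≤ max ‖z j‖ ‖w j‖ := le_max_of_le_left (norm_nonneg _)
    positivity)
  have hfc : ∀ a, (c a : ℂ) * mon a ρ * conj (mon a ρ) = ((f a : ℝ) : ℂ) := by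
    intro a
    rw [mul_assoc, Complex.mul_conj, Complex.normSq_eq_norm_sq, norm_mon, hf]
    push_cast
    congr 1
    rw [← Finset.prod_pow]
    refine Finset.prod_congr rfl fun j _ => ?_
    rw [hρn, mul_comm 2 (a j), pow_mul]
  have hsf : Summable f := by
    have h1 := (key ρ ρ hρR hρR).summable
    simp_rw [hfc] at h1
    have h2 : Summable (fun n => ∑' a : {a : Fin g → ℕ // deg a = n}, f a) := by
      rw [← Complex.summable_ofReal]
      refine h1.congr fun n => ?_
      rw [Complex.ofReal_tsum]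
    have h3 : Summable (fun p : (Σ n, {a : Fin g → ℕ // deg a = n}) =>
        f ((Equiv.sigmaFiberEquiv deg) p)) := by
      rw [summable_sigma_of_nonneg (fun _ => hf0 _)]
      exact ⟨fun n => summable_of_hasFiniteSupport (Set.toFinite _), h2⟩
    exact ((Equiv.sigmaFiberEquiv (deg (g := g))).summable_iff).1 h3
  -- general case
  have hs : Summable (fun a => (c a : ℂ) * mon a z * conj (mon a w)) := by
    refine Summable.of_norm_bounded hsf fun a => ?_
    rw [norm_mul, norm_mul, RCLike.norm_conj, norm_mon, norm_mon, Complex.norm_real,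
      Real.norm_of_nonneg (hc.1 a).le, mul_assoc, hf]
    refine mul_le_mul_of_nonneg_left ?_ (hc.1 a).le
    rw [← Finset.prod_mul_distrib]
    refine Finset.prod_le_prod (fun _ _ => by positivity) fun j _ => ?_
    rw [mul_comm 2 (a j), pow_mul, pow_two]
    exact mul_le_mul (pow_le_pow_left₀ (norm_nonneg _) (le_max_left _ _) _)
      (pow_le_pow_left₀ (norm_nonneg _) (le_max_right _ _) _) (by positivity) (by positivity)
  have h1 := hasSum_deg hs.hasSum
  have h2 := (key z w hz hw).unique h1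
  rw [h2]
  exact hs.hasSum

end MPa1177b
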