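import Pool.Agent.Work.MP_a1177b_an.Kappa
import Pool.Agent.Work.MP_a1177b_an.Grid
import Pool.Agent.Work.MP_a1177b_an.Assemble
import Pool.Agent.Work.MP_a1177b_an.Cauchy
import Pool.Agent.Work.MP_a1177b_an.PowerSeries
import Pool.Agent.Work.MP_a1177b_an.Final

open scoped ComplexConjugate ComplexOrder
open Finset Metric Filter Topology

namespace MPa1177b

variable {g : ℕ}

lemma compact_cpoly (R : Fin g → ℝ) : IsCompact (cpoly R) := by
  have : cpoly R = Set.pi Set.univ (fun j => Metric.closedBall (0 : ℂ) (R j)) := by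
    ext z
    simp [cpoly, Set.mem_pi]
  rw [this]
  exact isCompact_univ_pi fun j => isCompact_closedBall _ _

/-- Elementary choice of the gap. -/
lemma gap_choice {κ q t : ℝ} (hκ1 : κ ≤ 1 + t) (hκ0 : 0 < κ) (htq : t < q) (hq0 : 0 < q) :
    κ * (1 - q) < 1 := by
  rcases le_or_gt 1 q with h1 | h1
  · have : κ * (1 - q) ≤ 0 := mul_nonpos_of_nonneg_of_nonpos hκ0.le (by linarith)
    linarith
  · have h2 : κ < 1 + q := by linarith
    have h3 : κ * (1 - q) < (1 + q) * (1 - q) := mul_lt_mul_of_pos_right h2 (by linarith)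
    nlinarith

set_option maxHeartbeats 2000000 in
theorem core_r (hg : 0 < g) {Ω : Set (Fin g → ℂ)} (hΩ : IsOpen Ω) (hconn : IsPreconnected Ω)
    (h0 : (0 : Fin g → ℂ) ∈ Ω) {k l : (Fin g → ℂ) → (Fin g → ℂ) → ℂ} (hk : IsHolKernel Ω k)
    (hl : IsHolKernel Ω l) {c : (Fin g → ℕ) → ℝ} (hc : IsNormDiag k c)
    (hl0 : ∃ x ∈ Ω, ∃ y ∈ Ω, l x y ≠ 0) (hCP : IsCPPair k l Ω) {R r : Fin g → ℝ}
    (hRΩ : ∀ z : Fin g → ℂ, (∀ j, ‖z j‖ < R j) → z ∈ Ω) (hr : ∀ j, 0 < r j)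
    (hrR : ∀ j, r j < R j) (A₀ : Finset (Fin g → ℕ)) : ∑ a ∈ A₀, theta c a * wt r a ≤ 1 := by
  classical
  have hpow : ∀ z w : Fin g → ℂ, (∀ j, ‖z j‖ < R j) → (∀ j, ‖w j‖ < R j) →
      HasSum (fun a => (c a : ℂ) * mon a z * conj (mon a w)) (k z w) :=
    fun z w hz hw => hasSum_on_polydisc hk hc R hRΩ hz hw
  have hkpos := k_pos hΩ hconn h0 hk hc
  have hdense := l_dense hΩ hconn hl hl0
  have hlc := hol_cont hl
  -- an intermediate polyradius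
  set R' : Fin g → ℝ := fun j => (r j + R j) / 2 with hR'
  have hrR' : ∀ j, r j < R' j := fun j => by have := hrR j; simp only [hR']; linarith
  have hR'R : ∀ j, R' j < R j := fun j => by have := hrR j; simp only [hR']; linarith
  have hR'Ω : cpoly R' ⊆ Ω := fun z hz => hRΩ z fun j => (hz j).trans_lt (hR'R j)
  -- bound for l on the diagonal
  have hdiagc : ContinuousOn (fun z : Fin g → ℂ => l z z) Ω := by
    have h1 : ContinuousOn (fun z : Fin g → ℂ => ((z, z) : (Fin g → ℂ) × (Fin g → ℂ))) Ω := by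
      fun_prop
    exact hlc.comp h1 fun z hz => ⟨hz, hz⟩
  obtain ⟨Λ₀, hΛ₀⟩ := (compact_cpoly R').exists_bound_of_continuousOn (hdiagc.mono hR'Ω)
  set Λ : ℝ := |Λ₀| + 1 with hΛdef
  have hΛ : 0 < Λ := by positivity
  have hlΛ : ∀ z ∈ cpoly R', (l z z).re < Λ := fun z hz => by
    have h1 := hΛ₀ z hz
    have h2 := Complex.re_le_norm (l z z)
    have h3 := le_abs_self Λ₀
    linarith
  -- small radius
  obtain ⟨r₀, hr₀, hr₀r⟩ : ∃ r₀ : ℝ, 0 < r₀ ∧ ∀ j, r₀ ≤ r j / 2 := by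
    have hne : (univ : Finset (Fin g)).Nonempty := ⟨⟨0, hg⟩, mem_univ _⟩
    obtain ⟨j, _, hj⟩ := (univ : Finset (Fin g)).exists_min_image (fun j => r j / 2) hne
    exact ⟨r j / 2, by have := hr j; positivity, fun i => hj i (mem_univ i)⟩
  have hballr : ∀ z ∈ ball (0 : Fin g → ℂ) r₀, ∀ j, ‖z j‖ < r j / 2 := fun z hz j => by
    have h1 : ‖z‖ < r₀ := by simpa using hz
    exact ((norm_le_pi_norm z j).trans_lt h1).trans_le (hr₀r j)
  have hballcp : ∀ z ∈ ball (0 : Fin g → ℂ) r₀, z ∈ cpoly R' := fun z hz j => by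
    have h1 := hballr z hz j
    have h2 := hr j
    have h3 := hrR' j
    linarith
  have hballΩ : ball (0 : Fin g → ℂ) r₀ ⊆ Ω := fun z hz => hR'Ω (hballcp z hz)
  obtain ⟨C', hC'0, hC'⟩ := kappa_bound hc.1 hc.2.1 hpow hr₀ (fun j => by
    have h1 := hr₀r j
    have h2 := hr j
    have h3 := hrR j
    linarith)
  obtain ⟨ω, hω, y, hy, hωy⟩ := exists_good_omega hl.1 hballΩ hr₀
    (fun w hw => (hol_left hl hw).mono hballΩ) (S := Λ)
    (fun x hx => (hlΛ x (hballcp x hx)).le) (by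
      obtain ⟨y, hyΩ, hyd, hyp⟩ := hdense 0 h0 r₀ hr₀
      exact ⟨y, by simpa using hyd, hyp⟩) (4 ^ g * Λ * C') (by positivity)
  have hωΩ := hballΩ hω
  have hyΩ := hballΩ hy
  have hlω0 : 0 ≤ (l ω ω).re := kernel_diag_nonneg hl.1 hωΩ
  have hlyω : 0 < ‖l y ω‖ ^ 2 := lt_of_le_of_lt (by positivity) hωy
  have hlω : 0 < (l ω ω).re := by
    rcases hlω0.lt_or_eq with h1 | h1
    · exact h1
    · exfalso
      have h2 := kernel_cs hl.1 hyΩ hωΩ
      rw [← h1, mul_zero] at h2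
      linarith
  have hlyω' : 0 < ‖l y ω‖ := by
    rcases (norm_nonneg (l y ω)).lt_or_eq with h1 | h1
    · exact h1
    · rw [← h1] at hlyω; simp at hlyω
  set κ : ℝ := (k ω ω).re with hκdef
  have hκ0 : 0 < κ := hkpos ω hωΩ
  have hκ1 : κ ≤ 1 + C' * ‖ω‖ ^ 2 := hC' ω hω
  set L : ℝ := Λ * (l ω ω).re with hL
  have hL0 : 0 < L := by positivity
  set q : ℝ := ‖l y ω‖ ^ 2 / (4 ^ g * L) with hq
  have hq0 : 0 < q := by positivity
  have htq : C' * ‖ω‖ ^ 2 < q := by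
    rw [hq, lt_div_iff₀ (by positivity)]
    calc C' * ‖ω‖ ^ 2 * (4 ^ g * L) = 4 ^ g * Λ * C' * ‖ω‖ ^ 2 * (l ω ω).re := by rw [hL]; ring
      _ < _ := hωy
  have hgap : κ * (1 - q) < 1 := gap_choice hκ1 hκ0 htq hq0
  -- intermediate constants
  obtain ⟨A, hA1, hA2⟩ : ∃ A : ℝ, 1 - q < A ∧ κ * A < 1 := by
    have h1 : 1 - q < 1 / κ := by rw [lt_div_iff₀ hκ0]; linarith
    obtain ⟨A, hA, hA'⟩ := exists_between h1
    refine ⟨A, hA, ?_⟩
    rw [lt_div_iff₀ hκ0] at hA'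
    linarith
  -- choice of epsilon
  obtain ⟨ε, hε0, hεl, hεA⟩ : ∃ ε : ℝ, 0 < ε ∧ ε < ‖l y ω‖ ∧
      1 - ((‖l y ω‖ - ε) / 2 ^ g) ^ 2 / L < A := by
    have h1 : Tendsto (fun ε : ℝ => 1 - ((‖l y ω‖ - ε) / 2 ^ g) ^ 2 / L) (𝓝 0)
        (𝓝 (1 - ((‖l y ω‖ - 0) / 2 ^ g) ^ 2 / L)) := by
      refine Continuous.tendsto ?_ 0
      fun_prop
    have h2 : 1 - ((‖l y ω‖ - 0) / 2 ^ g) ^ 2 / L = 1 - q := by
      rw [hq, sub_zero, div_pow, div_div, ← pow_mul, mul_comm g 2, pow_mul]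
      norm_num
    rw [h2] at h1
    have h3 : ∀ᶠ ε in 𝓝[>] (0 : ℝ), 1 - ((‖l y ω‖ - ε) / 2 ^ g) ^ 2 / L < A :=
      (h1.eventually (gt_mem_nhds hA1)).filter_mono nhdsWithin_le_nhds
    have h4 : ∀ᶠ ε in 𝓝[>] (0 : ℝ), ε ∈ Set.Ioo 0 ‖l y ω‖ := Ioo_mem_nhdsGT hlyω'
    obtain ⟨ε, h5, h6⟩ := (h3.and h4).exists
    exact ⟨ε, h6.1, h6.2, h5⟩
  set B : ℝ := ((‖l y ω‖ - ε) / 2 ^ g) ^ 2 with hB
  -- the grid data
  have hgrid : ∀ n : ℕ, ∃ C : (Fin g → ZMod (n + 1)) → ℝ, (∀ b, 0 ≤ C b) ∧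
      ∑ b, C b ≤ (((n + 1 : ℕ) : ℝ) ^ g)⁻¹ * ∑ m : Fin g → ZMod (n + 1),
        (1 - ‖l (gp r m) ω‖ ^ 2 / (Λ * (l ω ω).re)) + 1 / ((n : ℝ) + 1) ∧
      ∀ b : Fin g → ℕ, (cst b : Fin g → ZMod (n + 1)) ≠ 0 →
        (c b * (∏ j, r j ^ b j) ^ 2) / (k ω ω).re - 1 / ((n : ℝ) + 1) ≤
          ∑' a : Fin g → ℕ, (c a * (∏ j, r j ^ a j) ^ 2) * C (cst b - cst a) := by
    intro n
    refine grid_ineq (N := n + 1) hΩ hCP (hol_cont hk) hlc hdense hkpos hc.1 hc.2.1 hr hrR hRΩ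
      hpow (fun j => ?_) ⟨0, hg⟩ ?_ hlω hΛ ?_ (by positivity)
    · have h1 := hballr ω hω j
      have h2 := hr j
      have h3 := hrR j
      linarith
    · have h1 := hballr ω hω ⟨0, hg⟩
      have h2 := hr ⟨0, hg⟩
      linarith
    · intro z hz
      exact hlΛ z fun j => by rw [hz j]; exact (hrR' j).le
  choose C hC0 hCsum hCmain using hgrid
  -- the average
  have hbdd : ∃ S : ℝ, ∀ z : Fin g → ℂ, (∀ j, ‖z j‖ < R' j) → ‖l z ω‖ ≤ S := by
    obtain ⟨S, hS⟩ := (compact_cpoly R').exists_bound_of_continuousOn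
      ((hol_left hl hωΩ).continuousOn.mono hR'Ω)
    exact ⟨S, fun z hz => hS z fun j => (hz j).le⟩
  obtain ⟨S, hS⟩ := hbdd
  have hcau := cauchy_discrete hr hrR' S hε0
  have hcau' : ∀ᶠ n : ℕ in atTop, ‖l y ω‖ ≤ 2 ^ g * ((((n + 1 : ℕ) : ℝ) ^ g)⁻¹ *
      ∑ m : Fin g → ZMod (n + 1), ‖l (gp r m) ω‖) + ε := by
    filter_upwards [(tendsto_add_atTop_nat 1).eventually hcau] with n hn
    have h1 := hn (fun z => l z ω) ((hol_left hl hωΩ).mono fun z hz => hR'Ω fun j => (hz j).le)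
      hS y (fun j => (hballr y hy j).le)
    refine h1.trans (le_of_eq ?_)
    congr 3
    refine Finset.sum_congr rfl fun m _ => ?_
    rw [gp_eq_exp r n m]
    rfl
  have hCA : ∀ᶠ n in atTop, ∑ b, C n b ≤ A := by
    have h1 : Tendsto (fun n : ℕ => 1 / ((n : ℝ) + 1)) atTop (𝓝 0) :=
      tendsto_one_div_add_atTop_nhds_zero_nat
    have h2 : ∀ᶠ n : ℕ in atTop, 1 / ((n : ℝ) + 1) < A - (1 - B / L) :=
      h1.eventually (gt_mem_nhds (by rw [hB]; linarith))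
    filter_upwards [hcau', h2] with n hn1 hn2
    refine (hCsum n).trans ?_
    set N : ℝ := ((n + 1 : ℕ) : ℝ) ^ g with hN
    have hN0 : 0 < N := by positivity
    have hcard : ((univ : Finset (Fin g → ZMod (n + 1))).card : ℝ) = N := by
      rw [Finset.card_univ, Fintype.card_fun, ZMod.card, Fintype.card_fin, hN]
      push_cast
      rfl
    set s : ℝ := ∑ m : Fin g → ZMod (n + 1), ‖l (gp r m) ω‖ with hs
    set s2 : ℝ := ∑ m : Fin g → ZMod (n + 1), ‖l (gp r m) ω‖ ^ 2 with hs2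
    have h3 : s ^ 2 ≤ N * s2 := by
      rw [← hcard]
      exact sq_sum_le_card_mul_sum_sq
    have h4 : (‖l y ω‖ - ε) / 2 ^ g ≤ N⁻¹ * s := by
      rw [div_le_iff₀ (by positivity)]
      linarith
    have h5 : B ≤ N⁻¹ * s2 := by
      calc B ≤ (N⁻¹ * s) ^ 2 := by
            rw [hB]
            have : 0 ≤ (‖l y ω‖ - ε) / 2 ^ g := by
              have : 0 ≤ ‖l y ω‖ - ε := by linarith
              positivity
            gcongr
        _ = N⁻¹ * N⁻¹ * s ^ 2 := by ring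
        _ ≤ N⁻¹ * N⁻¹ * (N * s2) := by gcongr
        _ = N⁻¹ * s2 := by field_simp
    have h6 : N⁻¹ * ∑ m : Fin g → ZMod (n + 1), (1 - ‖l (gp r m) ω‖ ^ 2 / (Λ * (l ω ω).re)) =
        1 - (N⁻¹ * s2) / L := by
      rw [Finset.sum_sub_distrib, ← Finset.sum_div, ← hL, ← hs2]
      simp only [Finset.sum_const, nsmul_eq_mul, mul_one]
      rw [hcard]
      field_simp
    rw [h6]
    have h7 : B / L ≤ (N⁻¹ * s2) / L := by gcongr
    linarith
  -- limit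
  have hW0 : ∀ a, 0 ≤ c a * wt r a := fun a => mul_nonneg (hc.1 a).le (wt_pos hr a).le
  have hWs : Summable fun a => c a * wt r a := by
    have h1 := Complex.hasSum_re (hpow (fun j => (r j : ℂ)) (fun j => (r j : ℂ))
      (fun j => by rw [Complex.norm_real, Real.norm_of_nonneg (hr j).le]; exact hrR j)
      (fun j => by rw [Complex.norm_real, Real.norm_of_nonneg (hr j).le]; exact hrR j))
    refine h1.summable.congr fun a => ?_
    have : (c a : ℂ) * mon a (fun j => (r j : ℂ)) * conj (mon a (fun j => (r j : ℂ))) =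
        ((c a * wt r a : ℝ) : ℂ) := by
      unfold mon wt
      rw [map_prod]
      push_cast
      simp only [map_pow, Complex.conj_ofReal]
      ring
    rw [this, Complex.ofReal_re]
  obtain ⟨M, hM0, hMA, hM⟩ := limit_step hW0 hWs (κ := κ) (A := A) C hC0 hCA
    (fun n b hb => hCmain n b hb)
  exact final_positivity hc.1 hc.2.1 hr hWs hκ0 hA2 M hM0 hMA hM A₀

/-- **Core theorem.** -/
theorem core (hg : 0 < g) {Ω : Set (Fin g → ℂ)} (hΩ : IsOpen Ω) (hconn : IsPreconnected Ω)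
    (h0 : (0 : Fin g → ℂ) ∈ Ω) {k l : (Fin g → ℂ) → (Fin g → ℂ) → ℂ} (hk : IsHolKernel Ω k)
    (hl : IsHolKernel Ω l) {c : (Fin g → ℕ) → ℝ} (hc : IsNormDiag k c)
    (hl0 : ∃ x ∈ Ω, ∃ y ∈ Ω, l x y ≠ 0) (hCP : IsCPPair k l Ω) (R : Fin g → ℝ)
    (hR : ∀ j, 0 < R j) (hRΩ : ∀ z : Fin g → ℂ, (∀ j, ‖z j‖ < R j) → z ∈ Ω)
    (A : Finset (Fin g → ℕ)) : ∑ a ∈ A, theta c a * ∏ j, R j ^ (2 * a j) ≤ 1 := by
  have h1 : ∀ᶠ t : ℝ in 𝓝[<] 1, ∑ a ∈ A, theta c a * wt (fun j => t * R j) a ≤ 1 := by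
    have h2 : ∀ᶠ t : ℝ in 𝓝[<] 1, t ∈ Set.Ioo (0 : ℝ) 1 := Ioo_mem_nhdsLT one_pos
    filter_upwards [h2] with t ht
    exact core_r hg hΩ hconn h0 hk hl hc hl0 hCP hRΩ (fun j => mul_pos ht.1 (hR j))
      (fun j => by have := mul_lt_mul_of_pos_right ht.2 (hR j); linarith) A
  have h3 : Tendsto (fun t : ℝ => ∑ a ∈ A, theta c a * wt (fun j => t * R j) a) (𝓝[<] 1)
      (𝓝 (∑ a ∈ A, theta c a * wt (fun j => 1 * R j) a)) := by
    refine Tendsto.mono_left (Continuous.tendsto ?_ 1) nhdsWithin_le_nhds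
    unfold wt
    fun_prop
  have h4 := le_of_tendsto h3 h1
  refine le_trans (le_of_eq ?_) h4
  refine Finset.sum_congr rfl fun a _ => ?_
  congr 1
  unfold wt
  rw [← Finset.prod_pow]
  refine Finset.prod_congr rfl fun j _ => ?_
  beta_reduce
  rw [one_mul, ← pow_mul, mul_comm 2]

end MPa1177b
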