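import Pool.Agent.Work.MP_a1177b_an.Local

open scoped ComplexConjugate ComplexOrder
open Finset

namespace MPa1177b

section generic
variable {β : Type*}

lemma qf_smul (F : Finset β) (t : ℝ) (A : β → β → ℂ) (u : β → ℂ) :
    qf F (fun x y => (t : ℂ) * A x y) u = t * qf F A u := by
  unfold qf
  have : ∑ x ∈ F, ∑ y ∈ F, conj (u x) * ((t : ℂ) * A x y) * u y =
      (t : ℂ) * ∑ x ∈ F, ∑ y ∈ F, conj (u x) * A x y * u y := by
    rw [Finset.mul_sum]
    refine Finset.sum_congr rfl fun x _ => ?_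
    rw [Finset.mul_sum]
    refine Finset.sum_congr rfl fun y _ => ?_
    ring
  rw [this, Complex.re_ofReal_mul]

lemma PSD.smul {F : Finset β} {A : β → β → ℂ} (h : PSD F A) {t : ℝ} (ht : 0 ≤ t) :
    PSD F (fun x y => (t : ℂ) * A x y) := by
  refine ⟨fun x hx y hy => ?_, fun u => ?_⟩
  · simp [h.1 x hx y hy]
  · rw [qf_smul]; exact mul_nonneg ht (h.2 u)

lemma psd_zero (F : Finset β) : PSD F (fun _ _ => (0 : ℂ)) :=
  ⟨fun _ _ _ _ => by simp, fun u => by simp [qf]⟩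

/-- entrywise small perturbations -/
lemma qf_ge_of_small {F : Finset β} {A : β → β → ℂ} {δ : ℝ}
    (h : ∀ x ∈ F, ∀ y ∈ F, ‖A x y‖ ≤ δ) (u : β → ℂ) :
    - (δ * F.card * ∑ x ∈ F, ‖u x‖ ^ 2) ≤ qf F A u := by
  rcases F.eq_empty_or_nonempty with rfl | ⟨x0, hx0⟩
  · simp [qf]
  have hδ : 0 ≤ δ := (norm_nonneg _).trans (h x0 hx0 x0 hx0)
  have h1 : ‖∑ x ∈ F, ∑ y ∈ F, conj (u x) * A x y * u y‖ ≤
      ∑ x ∈ F, ∑ y ∈ F, ‖u x‖ * δ * ‖u y‖ := by
    refine (norm_sum_le _ _).trans (Finset.sum_le_sum fun x hx => ?_)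
    refine (norm_sum_le _ _).trans (Finset.sum_le_sum fun y hy => ?_)
    rw [norm_mul, norm_mul, RCLike.norm_conj]
    have := h x hx y hy
    gcongr
  have h2 : ∑ x ∈ F, ∑ y ∈ F, ‖u x‖ * δ * ‖u y‖ = δ * (∑ x ∈ F, ‖u x‖) ^ 2 := by
    rw [sq, Finset.sum_mul_sum, Finset.mul_sum]
    refine Finset.sum_congr rfl fun x _ => ?_
    rw [Finset.mul_sum]
    refine Finset.sum_congr rfl fun y _ => ?_
    ring
  have h3 : (∑ x ∈ F, ‖u x‖) ^ 2 ≤ F.card * ∑ x ∈ F, ‖u x‖ ^ 2 := by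
    exact sq_sum_le_card_mul_sum_sq
  have h4 := Complex.abs_re_le_norm (∑ x ∈ F, ∑ y ∈ F, conj (u x) * A x y * u y)
  have h5 : |qf F A u| ≤ δ * F.card * ∑ x ∈ F, ‖u x‖ ^ 2 := by
    calc |qf F A u| ≤ δ * (∑ x ∈ F, ‖u x‖) ^ 2 := by
          rw [← h2]; exact h4.trans h1
      _ ≤ δ * (F.card * ∑ x ∈ F, ‖u x‖ ^ 2) := by gcongr
      _ = _ := by ring
  exact (abs_le.mp h5).1

/-- real linear functionals on a finite dimensional coordinate space -/
lemma real_functional {κ : Type*} [Fintype κ] [DecidableEq κ] (φ : (κ → ℂ) →ₗ[ℝ] ℝ) :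
    ∃ y : κ → ℂ, ∀ z : κ → ℂ, φ z = (∑ i, y i * z i).re := by
  refine ⟨fun i => ⟨φ (Pi.single i 1), - φ (Pi.single i Complex.I)⟩, fun z => ?_⟩
  have h1 : z = ∑ i, Pi.single i (z i) := by
    exact (Finset.univ_sum_single z).symm
  conv_lhs => rw [h1]
  rw [map_sum, Complex.re_sum]
  refine Finset.sum_congr rfl fun i _ => ?_
  have h2 : (Pi.single i (z i) : κ → ℂ) = (z i).re • (Pi.single i (1 : ℂ) : κ → ℂ) +
      (z i).im • (Pi.single i Complex.I : κ → ℂ) := by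
    ext j
    by_cases hj : j = i
    · subst hj
      simp [Complex.re_add_im]
    · simp [hj]
  rw [h2, map_add, map_smul, map_smul, Complex.mul_re]
  simp only [smul_eq_mul]
  ring

end generic

variable {ι : Type*} [DecidableEq ι]

lemma herm_Psi {F : Finset ι} {L : ι → ι → ℂ} {Q : ι × ι → ι × ι → ℂ} (hL : Herm F L)
    (hQ : Herm (F ×ˢ F) Q) : Herm F (fun a b => ∑ y ∈ F, ∑ z ∈ F, L y z * Q (y, a) (z, b)) := by
  intro a ha b hb
  beta_reduce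
  rw [map_sum, Finset.sum_comm]
  refine Finset.sum_congr rfl fun y hy => ?_
  rw [map_sum]
  refine Finset.sum_congr rfl fun z hz => ?_
  rw [map_mul, ← hL y hy z hz]
  congr 1
  exact hQ (y, a) (Finset.mem_product.mpr ⟨hy, ha⟩) (z, b) (Finset.mem_product.mpr ⟨hz, hb⟩)

lemma herm_e {F : Finset ι} {k : ι → ι → ℂ} (hk : Herm F k) :
    Herm (F ×ˢ F) (fun p q => if p.1 = p.2 ∧ q.1 = q.2 then k p.1 q.1 else 0) := by
  intro p hp q hq
  beta_reduce
  by_cases hh : p.1 = p.2 ∧ q.1 = q.2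
  · rw [if_pos hh, if_pos hh.symm,
      hk p.1 (Finset.mem_product.mp hp).1 q.1 (Finset.mem_product.mp hq).1]
  · rw [if_neg hh, if_neg (fun h => hh h.symm), map_zero]

lemma herm_K {F : Finset ι} {K : ι → ι → ℂ} {Q : ι × ι → ι × ι → ℂ} (hK : Herm F K)
    (hQ : Herm (F ×ˢ F) Q) : Herm (F ×ˢ F) (fun p q => K p.1 q.1 * Q p q) := by
  intro p hp q hq
  beta_reduce
  rw [map_mul, hQ p hp q hq, hK p.1 (Finset.mem_product.mp hp).1 q.1 (Finset.mem_product.mp hq).1]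

/-- dual condition -/
def DualCond (K L : ι → ι → ℂ) (F : Finset ι) (ω : ι) : Prop :=
  ∀ (Y : ι → ι → ℂ) (P : ι × ι → ι × ι → ℂ), PSD F Y → PSD (F ×ˢ F) P →
    PSD (F ×ˢ F) (fun p q => L p.1 q.1 * Y p.2 q.2 - K p.1 q.1 * P p q) →
    0 ≤ (∑ a ∈ F, ∑ b ∈ F, (schur L ω a b * Y a b - schur K ω a b * P (a, a) (b, b))).re

section hb

variable [Fintype ι]

/-- the cone -/
def cone (K L : ι → ι → ℂ) (F : Finset ι) : Set ((ι × ι → ℂ) × ((ι × ι) × (ι × ι) → ℂ)) :=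
  {v | ∃ Q : ι × ι → ι × ι → ℂ, PSD (F ×ˢ F) Q ∧
    PSD F (fun a b => v.1 (a, b) - ∑ y ∈ F, ∑ z ∈ F, L y z * Q (y, a) (z, b)) ∧
    PSD (F ×ˢ F) (fun p q => v.2 (p, q) + K p.1 q.1 * Q p q)}

lemma cone_add {K L : ι → ι → ℂ} {F : Finset ι} {v w} (hv : v ∈ cone K L F)
    (hw : w ∈ cone K L F) : v + w ∈ cone K L F := by
  obtain ⟨Q, q1, q2, q3⟩ := hv
  obtain ⟨R, r1, r2, r3⟩ := hw
  refine ⟨fun p q => Q p q + R p q, q1.add r1, (q2.add r2).congr fun a _ b _ => ?_,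
    (q3.add r3).congr fun p _ q _ => ?_⟩
  · simp only [mul_add, Finset.sum_add_distrib, Prod.fst_add, Pi.add_apply]
    ring
  · simp only [Prod.snd_add, Pi.add_apply]
    ring

lemma cone_smul {K L : ι → ι → ℂ} {F : Finset ι} {v} (hv : v ∈ cone K L F) {t : ℝ}
    (ht : 0 ≤ t) : t • v ∈ cone K L F := by
  obtain ⟨Q, q1, q2, q3⟩ := hv
  refine ⟨fun p q => (t : ℂ) * Q p q, q1.smul ht, (q2.smul ht).congr fun a _ b _ => ?_,
    (q3.smul ht).congr fun p _ q _ => ?_⟩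
  · simp only [Prod.smul_fst, Pi.smul_apply, Complex.real_smul, mul_sub]
    congr 1
    rw [Finset.mul_sum]
    refine Finset.sum_congr rfl fun y _ => ?_
    rw [Finset.mul_sum]
    refine Finset.sum_congr rfl fun z _ => ?_
    ring
  · simp only [Prod.smul_snd, Pi.smul_apply, Complex.real_smul]
    ring

lemma cone_convex (K L : ι → ι → ℂ) (F : Finset ι) : Convex ℝ (cone K L F) := by
  intro v hv w hw a b ha hb _
  exact cone_add (cone_smul hv ha) (cone_smul hw hb)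

end hb

end MPa1177b
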