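import Pool.Agent.Work.MP_a1177b_an.CPDual

open scoped ComplexConjugate ComplexOrder
open Finset

namespace MPa1177b

lemma qv_subtype {ι E : Type*} [NormedAddCommGroup E] [InnerProductSpace ℂ E] (F : Finset ι)
    (A : ι → ι → ℂ) (p : ι → E) :
    qv (univ : Finset ↥F) (fun i j => A i j) (fun i => p i) = qv F A p := by
  unfold qv
  congr 1
  rw [← Finset.sum_coe_sort F]
  refine Finset.sum_congr rfl fun x _ => ?_
  rw [← Finset.sum_coe_sort F]

variable {α : Type*} {k l : α → α → ℂ} {X : Set α}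

lemma IsKernelOn.conj_symm {f : α → α → ℂ} (h : IsKernelOn X f) {x y : α} (hx : x ∈ X)
    (hy : y ∈ X) : f y x = conj (f x y) := by
  have := h.isHermitian
  have h2 := congrFun (congrFun this ⟨y, hy⟩) ⟨x, hx⟩
  simp only [Matrix.conjTranspose_apply, Matrix.of_apply] at h2
  exact h2.symm

lemma herm_pt {f : α → α → ℂ} (h : IsKernelOn X f) {ι : Type*} (pt : ι → α)
    (hpt : ∀ i, pt i ∈ X) (F : Finset ι) : Herm F (fun i j => f (pt i) (pt j)) :=
  fun i _ j _ => h.conj_symm (hpt i) (hpt j)

set_option maxHeartbeats 1000000 in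
/-- one point extension in a complete Pick pair, in the language of vectors -/
theorem cp_extend (h : IsCPPair k l X) {ι : Type*} [DecidableEq ι] (pt : ι → α)
    (hinj : Function.Injective pt) (hpt : ∀ i, pt i ∈ X) (F : Finset ι) {J : ℕ} (hJ : 1 ≤ J)
    (T : ι → EuclideanSpace ℂ (Fin J) →ₗ[ℂ] EuclideanSpace ℂ (Fin J))
    (hT : ∀ u : ι → EuclideanSpace ℂ (Fin J), 0 ≤ qv F (fun i j => l (pt i) (pt j)) u -
      qv F (fun i j => k (pt i) (pt j)) (fun i => T i (u i))) (ω : ι) (hω : ω ∉ F) :
    ∃ S : EuclideanSpace ℂ (Fin J) →ₗ[ℂ] EuclideanSpace ℂ (Fin J),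
      ∀ u : ι → EuclideanSpace ℂ (Fin J),
        0 ≤ qv (insert ω F) (fun i j => l (pt i) (pt j)) u -
      qv (insert ω F) (fun i j => k (pt i) (pt j)) (fun i => if i = ω then S (u i) else T i (u i)) := by
  classical
  obtain ⟨hk, hl, hcp⟩ := h
  let W : ι → Matrix (Fin J) (Fin J) ℂ := fun i => (Matrix.toEuclideanLin.symm (T i)).conjTranspose
  have hW : ∀ i (v : EuclideanSpace ℂ (Fin J)),
      (WithLp.toLp 2 ((W i).conjTranspose.mulVec v) : EuclideanSpace ℂ (Fin J)) = T i v := by
    intro i v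
    simp only [W, Matrix.conjTranspose_conjTranspose]
    have : Matrix.toEuclideanLin (Matrix.toEuclideanLin.symm (T i)) v = T i v := by
      rw [LinearEquiv.apply_symm_apply]
    rw [← this]
    rfl
  let W' : α → Matrix (Fin J) (Fin J) ℂ := Function.extend pt W 0
  have hW' : ∀ i, W' (pt i) = W i := fun i => hinj.extend_apply W 0 i
  let F' : Finset α := F.image pt
  have hF'X : (F' : Set α) ⊆ X := by
    intro x hx
    obtain ⟨i, _, rfl⟩ := Finset.mem_image.mp (Finset.mem_coe.mp hx)
    exact hpt i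
  have hpos : MatPosOn (F' : Set α) (fun x y =>
      l x y • (1 : Matrix (Fin J) (Fin J) ℂ) - k x y • (W' x * (W' y).conjTranspose)) := by
    let e0 : ↥F → ↥(F' : Set α) := fun i => ⟨pt i, Finset.mem_coe.mpr (Finset.mem_image_of_mem pt i.2)⟩
    have he0 : Function.Bijective e0 := by
      constructor
      · intro i j hij
        have := congrArg Subtype.val hij
        exact Subtype.ext (hinj this)
      · rintro ⟨x, hx⟩
        obtain ⟨i, hi, rfl⟩ := Finset.mem_image.mp (Finset.mem_coe.mp hx)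
        exact ⟨⟨i, hi⟩, rfl⟩
    let e := Equiv.ofBijective e0 he0
    unfold MatPosOn
    rw [← Matrix.posSemidef_submatrix_equiv (e.prodCongr (Equiv.refl (Fin J)))]
    have key := (matPos_iff (κ := ↥F) (J := J) (fun i j => k (pt i) (pt j))
      (fun i j => l (pt i) (pt j)) (herm_pt hk (fun i : ↥F => pt i) (fun i => hpt i) univ)
      (herm_pt hl (fun i : ↥F => pt i) (fun i => hpt i) univ) (fun i => W i)).mpr ?_
    · convert key using 1
      ext p q
      simp only [Matrix.submatrix_apply, Matrix.of_apply]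
      change (l (pt p.1) (pt q.1) • (1 : Matrix (Fin J) (Fin J) ℂ) -
        k (pt p.1) (pt q.1) • (W' (pt p.1) * (W' (pt q.1)).conjTranspose)) p.2 q.2 = _
      rw [hW', hW']
    · intro u
      have h1 := hT (fun i => if hi : i ∈ F then u ⟨i, hi⟩ else 0)
      rw [← qv_subtype F (fun i j => l (pt i) (pt j)),
        ← qv_subtype F (fun i j => k (pt i) (pt j))] at h1
      convert h1 using 2
      · refine qv_congr fun i _ => ?_
        simp
      · refine qv_congr fun i _ => ?_
        rw [hW]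
        simp
  obtain ⟨Φ, hΦ, hΦpos⟩ := hcp J hJ F' hF'X W' hpos
  refine ⟨Matrix.toEuclideanLin (Φ (pt ω)).conjTranspose, fun u => ?_⟩
  have hsub : (Matrix.of fun p q : ↥(insert ω F) × Fin J =>
      (l (pt p.1) (pt q.1) • (1 : Matrix (Fin J) (Fin J) ℂ) -
        k (pt p.1) (pt q.1) • (Φ (pt p.1) * (Φ (pt q.1)).conjTranspose)) p.2 q.2).PosSemidef := by
    have := hΦpos.submatrix (fun p : ↥(insert ω F) × Fin J => ((⟨pt p.1, hpt _⟩ : X), p.2))
    exact this
  have key := (matPos_iff (κ := ↥(insert ω F)) (J := J) (fun i j => k (pt i) (pt j))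
      (fun i j => l (pt i) (pt j))
      (herm_pt hk (fun i : ↥(insert ω F) => pt i) (fun i => hpt i) univ)
      (herm_pt hl (fun i : ↥(insert ω F) => pt i) (fun i => hpt i) univ)
      (fun i => Φ (pt i))).mp hsub (fun i => u i)
  rw [← qv_subtype (insert ω F) (fun i j => l (pt i) (pt j)),
    ← qv_subtype (insert ω F) (fun i j => k (pt i) (pt j))]
  convert key using 2
  refine qv_congr fun i _ => ?_
  by_cases hi : (i : ι) = ω
  · rw [if_pos hi, hi]
    rfl
  · rw [if_neg hi]
    have hiF : (i : ι) ∈ F := (Finset.mem_insert.mp i.2).resolve_left hi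
    rw [hΦ _ (Finset.mem_image_of_mem pt hiF), hW', hW]

end MPa1177b
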