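import Pool.Agent.Work.MP_a1177b_an.CPone

open scoped ComplexConjugate ComplexOrder
open Finset

namespace MPa1177b

variable {g N : ℕ} [NeZero N]

/-- the bicharacter of `(ZMod N)^g` -/
noncomputable def EE (b n : Fin g → ZMod N) : ℂ := ∏ j, (ZMod.stdAddChar (b j * n j) : ℂ)

lemma EE_symm (b n : Fin g → ZMod N) : EE b n = EE n b := by
  unfold EE
  exact Finset.prod_congr rfl fun j _ => by rw [mul_comm]

lemma EE_add_left (b b' n : Fin g → ZMod N) : EE (b + b') n = EE b n * EE b' n := by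
  unfold EE
  rw [← Finset.prod_mul_distrib]
  refine Finset.prod_congr rfl fun j _ => ?_
  rw [Pi.add_apply, add_mul, AddChar.map_add_eq_mul]

lemma EE_neg_left (b n : Fin g → ZMod N) : EE (-b) n = conj (EE b n) := by
  unfold EE
  rw [map_prod]
  refine Finset.prod_congr rfl fun j _ => ?_
  rw [Pi.neg_apply, neg_mul, AddChar.map_neg_eq_conj]

lemma EE_norm (b n : Fin g → ZMod N) : ‖EE b n‖ = 1 := by
  unfold EE
  rw [norm_prod]
  refine Finset.prod_eq_one fun j _ => ?_
  rw [ZMod.stdAddChar_apply]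
  exact Circle.norm_coe _

lemma EE_zero_left (n : Fin g → ZMod N) : EE 0 n = 1 := by
  unfold EE
  simp

lemma EE_conj_mul_self (b n : Fin g → ZMod N) : conj (EE b n) * EE b n = 1 := by
  rw [← EE_neg_left, ← EE_add_left, neg_add_cancel, EE_zero_left]

lemma EE_sum (n : Fin g → ZMod N) :
    ∑ b : Fin g → ZMod N, EE b n = if n = 0 then ((N : ℂ) ^ g) else 0 := by
  classical
  unfold EE
  have h1 : ∑ b : Fin g → ZMod N, ∏ j, (ZMod.stdAddChar (b j * n j) : ℂ) =
      ∏ j, ∑ t : ZMod N, (ZMod.stdAddChar (t * n j) : ℂ) := by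
    rw [Finset.prod_univ_sum, Fintype.piFinset_univ]
  rw [h1]
  by_cases hn : n = 0
  · subst hn
    simp [ZMod.card]
  · rw [if_neg hn]
    obtain ⟨j, hj⟩ := Function.ne_iff.mp hn
    refine Finset.prod_eq_zero (Finset.mem_univ j) ?_
    have h2 := AddChar.sum_mulShift (ψ := (ZMod.stdAddChar : AddChar (ZMod N) ℂ)) (n j)
      (ZMod.isPrimitive_stdAddChar N)
    rw [h2, if_neg]
    · simp
    · simpa using hj

lemma EE_sum_right (b : Fin g → ZMod N) :
    ∑ n : Fin g → ZMod N, EE b n = if b = 0 then ((N : ℂ) ^ g) else 0 := by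
  rw [← EE_sum b]
  exact Finset.sum_congr rfl fun n _ => EE_symm b n

/-- Parseval for the Fourier coefficients of `m` -/
lemma sum_qf_EE (m : (Fin g → ZMod N) → (Fin g → ZMod N) → ℂ) :
    ∑ b : Fin g → ZMod N, qf univ m (EE b) = (N : ℝ) ^ g * ∑ n, (m n n).re := by
  classical
  unfold qf
  rw [← Complex.re_sum]
  have h1 : ∑ b : Fin g → ZMod N, ∑ n, ∑ n', conj (EE b n) * m n n' * EE b n' =
      (N : ℂ) ^ g * ∑ n, m n n := by
    calc _ = ∑ n, ∑ n', ∑ b : Fin g → ZMod N, conj (EE b n) * m n n' * EE b n' := by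
          rw [Finset.sum_comm]
          refine Finset.sum_congr rfl fun n _ => Finset.sum_comm
      _ = ∑ n, ∑ n', m n n' * (if n' - n = 0 then (N : ℂ) ^ g else 0) := by
          refine Finset.sum_congr rfl fun n _ => Finset.sum_congr rfl fun n' _ => ?_
          rw [← EE_sum, Finset.mul_sum]
          refine Finset.sum_congr rfl fun b _ => ?_
          rw [EE_symm b n, EE_symm b n', ← EE_neg_left, EE_symm b (n' - n), sub_eq_add_neg,
            EE_add_left]
          ring
      _ = _ := by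
          rw [Finset.mul_sum]
          refine Finset.sum_congr rfl fun n _ => ?_
          rw [Finset.sum_eq_single n]
          · simp [mul_comm]
          · intro b _ hb
            rw [if_neg (sub_ne_zero.mpr hb), mul_zero]
          · intro h; exact absurd (Finset.mem_univ n) h
  rw [h1]
  have : ((N : ℂ) ^ g) = (((N : ℝ) ^ g : ℝ) : ℂ) := by push_cast; rfl
  rw [this, Complex.re_ofReal_mul, Complex.re_sum]

/-- grid points -/
noncomputable def gp (r : Fin g → ℝ) (n : Fin g → ZMod N) : Fin g → ℂ :=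
  fun j => (r j : ℂ) * ZMod.stdAddChar (n j)

/-- reduction mod `N` of a multi-index -/
def cst (a : Fin g → ℕ) : Fin g → ZMod N := fun j => (a j : ZMod N)

lemma mon_gp (r : Fin g → ℝ) (a : Fin g → ℕ) (n : Fin g → ZMod N) :
    mon a (gp r n) = ((∏ j, r j ^ a j : ℝ) : ℂ) * EE (cst a) n := by
  unfold mon gp EE cst
  push_cast
  rw [← Finset.prod_mul_distrib]
  refine Finset.prod_congr rfl fun j _ => ?_
  rw [mul_pow, ← AddChar.map_nsmul_eq_pow, nsmul_eq_mul]

lemma norm_gp (r : Fin g → ℝ) (hr : ∀ j, 0 < r j) (n : Fin g → ZMod N) (j : Fin g) :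
    ‖gp r n j‖ = r j := by
  unfold gp
  rw [norm_mul, ZMod.stdAddChar_apply, Circle.norm_coe, mul_one, Complex.norm_real,
    Real.norm_of_nonneg (hr j).le]

lemma gp_injective (r : Fin g → ℝ) (hr : ∀ j, 0 < r j) :
    Function.Injective (gp (N := N) r) := by
  intro n n' h
  funext j
  have h1 := congrFun h j
  unfold gp at h1
  have h2 : (r j : ℂ) ≠ 0 := by exact_mod_cast (hr j).ne'
  exact ZMod.injective_stdAddChar (mul_left_cancel₀ h2 h1)

lemma hasSum_re_congr {γ : Type*} {f f' : γ → ℝ} {x : ℝ} (h : HasSum f x)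
    (hf : ∀ a, f' a = f a) : HasSum f' x := by
  have : f' = f := funext hf
  rw [this]; exact h

/-- power series expansion of a quadratic form -/
lemma hasSum_qf {β γ : Type*} {F : Finset β} {K : β → β → ℂ} {c : γ → ℝ} {φ : γ → β → ℂ}
    (h : ∀ i ∈ F, ∀ j ∈ F, HasSum (fun a => (c a : ℂ) * φ a i * conj (φ a j)) (K i j))
    (u : β → ℂ) : HasSum (fun a => c a * ‖∑ i ∈ F, conj (φ a i) * u i‖ ^ 2) (qf F K u) := by
  have h1 : HasSum (fun a => ∑ i ∈ F, ∑ j ∈ F,
      conj (u i) * ((c a : ℂ) * φ a i * conj (φ a j)) * u j)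
      (∑ i ∈ F, ∑ j ∈ F, conj (u i) * K i j * u j) := by
    refine hasSum_sum fun i hi => hasSum_sum fun j hj => ?_
    exact ((h i hi j hj).mul_left _).mul_right _
  have h2 := Complex.hasSum_re h1
  refine hasSum_re_congr h2 (fun a => ?_)
  have h3 : ∑ i ∈ F, ∑ j ∈ F, conj (u i) * ((c a : ℂ) * φ a i * conj (φ a j)) * u j =
      ((c a * ‖∑ i ∈ F, conj (φ a i) * u i‖ ^ 2 : ℝ) : ℂ) := by
    push_cast
    rw [← Complex.conj_mul', map_sum, Finset.sum_mul_sum, Finset.mul_sum]
    refine Finset.sum_congr rfl fun i _ => ?_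
    rw [Finset.mul_sum]
    refine Finset.sum_congr rfl fun j _ => ?_
    simp only [map_mul, Complex.conj_conj]
    ring
  rw [h3, Complex.ofReal_re]

/-- the first term of the grid inequality -/
lemma hasSum_first {K : (Fin g → ZMod N) → (Fin g → ZMod N) → ℂ} {c : (Fin g → ℕ) → ℝ}
    {r : Fin g → ℝ}
    (h : ∀ n n', HasSum (fun a => (c a : ℂ) * mon a (gp r n) * conj (mon a (gp r n'))) (K n n'))
    (m : (Fin g → ZMod N) → (Fin g → ZMod N) → ℂ) (b : Fin g → ZMod N) :
    HasSum (fun a => (c a * (∏ j, r j ^ a j) ^ 2) * qf univ m (EE (b - cst a)))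
      (qf univ (fun n n' => K n n' * m n n') (EE b)) := by
  have h1 : HasSum (fun a => ∑ n, ∑ n', conj (EE b n) *
      (((c a : ℂ) * mon a (gp r n) * conj (mon a (gp r n'))) * m n n') * EE b n')
      (∑ n, ∑ n', conj (EE b n) * (K n n' * m n n') * EE b n') := by
    refine hasSum_sum fun n _ => hasSum_sum fun n' _ => ?_
    exact (((h n n').mul_right _).mul_left _).mul_right _
  have h2 := Complex.hasSum_re h1
  refine hasSum_re_congr h2 (fun a => ?_)
  have h3 : ∑ n, ∑ n', conj (EE b n) *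
      (((c a : ℂ) * mon a (gp r n) * conj (mon a (gp r n'))) * m n n') * EE b n' =
      ((c a * (∏ j, r j ^ a j) ^ 2 : ℝ) : ℂ) *
        ∑ n, ∑ n', conj (EE (b - cst a) n) * m n n' * EE (b - cst a) n' := by
    rw [Finset.mul_sum]
    refine Finset.sum_congr rfl fun n _ => ?_
    rw [Finset.mul_sum]
    refine Finset.sum_congr rfl fun n' _ => ?_
    rw [mon_gp, mon_gp, sub_eq_add_neg, EE_add_left, EE_add_left, EE_neg_left, EE_neg_left]
    simp only [map_mul, Complex.conj_conj, Complex.conj_ofReal]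
    push_cast
    ring
  rw [h3, Complex.re_ofReal_mul]
  rfl

end MPa1177b
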