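import Pool.Agent.Work.MP_a1177b_an.CPone

open scoped ComplexConjugate ComplexOrder
open Finset Metric Filter Topology

namespace MPa1177b

/-- Cauchy-Schwarz for a kernel -/
lemma kernel_cs {α : Type*} {X : Set α} {f : α → α → ℂ} (h : IsKernelOn X f) {x y : α}
    (hx : x ∈ X) (hy : y ∈ X) : ‖f x y‖ ^ 2 ≤ (f x x).re * (f y y).re := by
  classical
  have h1 := psd_of_kernel h (fun i : Bool => if i then x else y)
    (by intro i; cases i <;> simp [hx, hy]) univ
  obtain ⟨c, hc⟩ := h1.exists_gram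
  have e1 : f x y = inner ℂ (c true) (c false) := by
    have := hc true (mem_univ _) false (mem_univ _)
    simpa using this
  have e2 : f x x = inner ℂ (c true) (c true) := by
    have := hc true (mem_univ _) true (mem_univ _)
    simpa using this
  have e3 : f y y = inner ℂ (c false) (c false) := by
    have := hc false (mem_univ _) false (mem_univ _)
    simpa using this
  rw [e1, e2, e3, inner_self_eq_norm_sq_to_K, inner_self_eq_norm_sq_to_K]
  have h2 := norm_inner_le_norm (𝕜 := ℂ) (c true) (c false)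
  have h3 : ((((‖c true‖ : ℝ) : ℂ) ^ 2).re) = ‖c true‖ ^ 2 := by norm_cast
  have h4 : ((((‖c false‖ : ℝ) : ℂ) ^ 2).re) = ‖c false‖ ^ 2 := by norm_cast
  calc ‖inner ℂ (c true) (c false)‖ ^ 2 ≤ (‖c true‖ * ‖c false‖) ^ 2 := by gcongr
    _ = ‖c true‖ ^ 2 * ‖c false‖ ^ 2 := by ring
    _ = _ := by
      rw [← h3, ← h4]
      rfl

lemma kernel_diag_nonneg {α : Type*} {X : Set α} {f : α → α → ℂ} (h : IsKernelOn X f) {x : α}
    (hx : x ∈ X) : 0 ≤ (f x x).re :=
  (psd_of_kernel h (fun _ : Unit => x) (fun _ => hx) univ).diag_nonneg (mem_univ ())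

lemma kernel_diag_eq {α : Type*} {X : Set α} {f : α → α → ℂ} (h : IsKernelOn X f) {x : α}
    (hx : x ∈ X) : f x x = ((f x x).re : ℂ) :=
  (psd_of_kernel h (fun _ : Unit => x) (fun _ => hx) univ).1.diag_eq (mem_univ ())

variable {E : Type*} [NormedAddCommGroup E] [NormedSpace ℂ E]

/-- choice of the base point -/
theorem exists_good_omega {X : Set E} {l : E → E → ℂ} (hl : IsKernelOn X l) {r₀ : ℝ}
    (hball : ball (0 : E) r₀ ⊆ X) (hr₀ : 0 < r₀)
    (hd : ∀ w ∈ X, DifferentiableOn ℂ (fun z => l z w) (ball 0 r₀)) {S : ℝ}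
    (hS : ∀ x ∈ ball (0 : E) r₀, (l x x).re ≤ S) (hne : ∃ y ∈ ball (0 : E) r₀, 0 < (l y y).re)
    (C : ℝ) (hC : 0 ≤ C) :
    ∃ ω ∈ ball (0 : E) r₀, ∃ y ∈ ball (0 : E) r₀, C * ‖ω‖ ^ 2 * (l ω ω).re < ‖l y ω‖ ^ 2 := by
  by_contra hcon
  push Not at hcon
  have h00 : (0 : E) ∈ ball (0 : E) r₀ := mem_ball_self hr₀
  have hS0 : 0 ≤ S := (kernel_diag_nonneg hl (hball h00)).trans (hS 0 h00)
  have hf0 : ∀ ω ∈ ball (0 : E) r₀, l 0 ω = 0 := by
    intro ω hω
    have h1 := hcon 0 h00 ω hω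
    simp only [norm_zero, ne_eq, OfNat.ofNat_ne_zero, not_false_eq_true, zero_pow, mul_zero,
      zero_mul] at h1
    have h2 : l ω 0 = 0 := by
      have : ‖l ω 0‖ = 0 := by
        have := le_antisymm h1 (by positivity)
        exact pow_eq_zero_iff (two_ne_zero) |>.mp this
      exact norm_eq_zero.mp this
    rw [hl.conj_symm (hball hω) (hball h00), h2, map_zero]
  -- Schwarz lemma
  have hschwarz : ∀ (n : ℕ) (ω : E), ω ∈ ball (0 : E) r₀ → ∀ (D B : ℝ),
      (∀ y ∈ ball (0 : E) r₀, ‖l y ω‖ ≤ B) → (∀ y ∈ ball (0 : E) r₀, ‖l y ω‖ ≤ D * ‖y‖ ^ (n + 1)) →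
      ‖l ω ω‖ ≤ B * (‖ω‖ / r₀) ^ (n + 1) := by
    intro n ω hω D B hB hD
    have h1 := Complex.dist_le_mul_div_pow_of_mapsTo_ball_of_isLittleO (f := fun z => l z ω)
      (c := (0 : E)) (z := ω) (R₁ := r₀) (R₂ := B) (n := n) (hd ω (hball hω))
      (by
        intro y hy
        rw [mem_closedBall, hf0 ω hω, dist_zero_right]
        exact hB y hy)
      (by
        have hO : (fun y => l y ω - l 0 ω) =O[𝓝 (0 : E)] (fun y => ‖y - 0‖ ^ (n + 1)) := by
          refine Asymptotics.IsBigO.of_bound D ?_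
          filter_upwards [ball_mem_nhds (0 : E) hr₀] with y hy
          rw [hf0 ω hω, sub_zero, sub_zero, norm_pow, norm_norm]
          exact hD y hy
        refine hO.trans_isLittleO ?_
        simp only [sub_zero]
        have h2 : (fun y : E => ‖y‖ ^ (n + 1)) = fun y : E => ‖y‖ ^ n * ‖y‖ := by
          ext y; rw [pow_succ]
        rw [h2]
        have h3 : (fun y : E => ‖y‖) =o[𝓝 (0 : E)] (fun _ => (1 : ℝ)) := by
          rw [Asymptotics.isLittleO_one_iff]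
          exact tendsto_norm_zero
        have h4 := (Asymptotics.isBigO_refl (fun y : E => ‖y‖ ^ n) (𝓝 0)).mul_isLittleO h3
        simpa using h4)
      hω
    rw [hf0 ω hω, dist_zero_right, dist_zero_right] at h1
    exact h1
  have hclaim : ∀ n : ℕ, ∃ Cn : ℝ, 0 ≤ Cn ∧ ∀ ω ∈ ball (0 : E) r₀,
      (l ω ω).re ≤ Cn * ‖ω‖ ^ (2 * n) := by
    intro n
    induction n with
    | zero => exact ⟨S, hS0, fun ω hω => by simpa using hS ω hω⟩
    | succ n ih =>
      obtain ⟨Cn, hCn, hn⟩ := ih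
      set D := Real.sqrt (C * Cn) with hD
      have hbd : ∀ y ∈ ball (0 : E) r₀, ∀ ω ∈ ball (0 : E) r₀, ‖l y ω‖ ≤ D * ‖ω‖ ^ (n + 1) := by
        intro y hy ω hω
        have h1 := hcon ω hω y hy
        have h2 := hn ω hω
        have h3 : ‖l y ω‖ ^ 2 ≤ (D * ‖ω‖ ^ (n + 1)) ^ 2 := by
          calc ‖l y ω‖ ^ 2 ≤ C * ‖ω‖ ^ 2 * (l ω ω).re := h1
            _ ≤ C * ‖ω‖ ^ 2 * (Cn * ‖ω‖ ^ (2 * n)) := by gcongr
            _ = (C * Cn) * (‖ω‖ ^ (n + 1)) ^ 2 := by ring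
            _ = _ := by rw [mul_pow, hD, Real.sq_sqrt (by positivity)]
        exact abs_le_of_sq_le_sq' h3 (by positivity) |>.2
      refine ⟨D / r₀ ^ (n + 1), by positivity, fun ω hω => ?_⟩
      have h1 := hschwarz n ω hω D (D * ‖ω‖ ^ (n + 1)) (fun y hy => hbd y hy ω hω) (by
        intro y hy
        rw [hl.conj_symm (hball hω) (hball hy), RCLike.norm_conj]
        exact hbd ω hω y hy)
      calc (l ω ω).re ≤ ‖l ω ω‖ := Complex.re_le_norm _
        _ ≤ D * ‖ω‖ ^ (n + 1) * (‖ω‖ / r₀) ^ (n + 1) := h1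
        _ = _ := by rw [div_pow]; ring
  obtain ⟨y, hy, hypos⟩ := hne
  have hlim : ∀ n : ℕ, (l y y).re ≤ S * (‖y‖ / r₀) ^ (n + 1) := by
    intro n
    obtain ⟨Cn, hCn, hn⟩ := hclaim (n + 1)
    have h1 := hschwarz n y hy (Real.sqrt (Cn * S)) S (by
      intro z hz
      have h2 := kernel_cs hl (hball hz) (hball hy)
      have h3 : ‖l z y‖ ^ 2 ≤ S ^ 2 := by
        calc ‖l z y‖ ^ 2 ≤ (l z z).re * (l y y).re := h2
          _ ≤ S * S := mul_le_mul (hS z hz) (hS y hy) (kernel_diag_nonneg hl (hball hy)) hS0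
          _ = S ^ 2 := by ring
      exact (abs_le_of_sq_le_sq' h3 hS0).2) (by
      intro z hz
      have h2 := kernel_cs hl (hball hz) (hball hy)
      have h3 : ‖l z y‖ ^ 2 ≤ (Real.sqrt (Cn * S) * ‖z‖ ^ (n + 1)) ^ 2 := by
        calc ‖l z y‖ ^ 2 ≤ (l z z).re * (l y y).re := h2
          _ ≤ (Cn * ‖z‖ ^ (2 * (n + 1))) * S :=
            mul_le_mul (hn z hz) (hS y hy) (kernel_diag_nonneg hl (hball hy)) (by positivity)
          _ = (Cn * S) * (‖z‖ ^ (n + 1)) ^ 2 := by ring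
          _ = _ := by rw [mul_pow, Real.sq_sqrt (by positivity)]
      exact (abs_le_of_sq_le_sq' h3 (by positivity)).2)
    exact (Complex.re_le_norm _).trans h1
  have hq : ‖y‖ / r₀ < 1 := by
    rw [div_lt_one hr₀]
    simpa using hy
  have ht : Tendsto (fun n : ℕ => S * (‖y‖ / r₀) ^ (n + 1)) atTop (𝓝 (S * 0)) :=
    ((tendsto_pow_atTop_nhds_zero_of_lt_one (by positivity) hq).comp
      (tendsto_add_atTop_nat 1)).const_mul S
  rw [mul_zero] at ht
  have := ge_of_tendsto' ht hlim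
  linarith

end MPa1177b
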