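import Pool.Agent.Work.MP_a1177b_an.CPtwo
import Pool.Agent.Work.MP_a1177b_an.Omega

open scoped ComplexConjugate ComplexOrder
open Finset

namespace MPa1177b

variable {α : Type*} {X : Set α} {k l : α → α → ℂ}

/-- local certificates for finitely many points with positive `l(x,x)` -/
theorem grid_cert (h : IsCPPair k l X) {G : Type*} [Fintype G] [DecidableEq G] (p : G → α)
    (hinj : Function.Injective p) (hpX : ∀ n, p n ∈ X) (ω : α) (hωX : ω ∈ X)
    (hω : ∀ n, p n ≠ ω) (hkpos : ∀ x ∈ X, 0 < (k x x).re) (hlp : ∀ n, 0 < (l (p n) (p n)).re)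
    (hlω : 0 < (l ω ω).re) {ε : ℝ} (hε : 0 < ε) :
    ∃ m : G → G → ℂ, PSD univ m ∧
      PSD univ (fun a b => k (p a) (p b) * m a b -
        (k (p a) (p b) - k (p a) ω * k ω (p b) / k ω ω)) ∧
      ∀ n, (m n n).re * (l (p n) (p n)).re ≤
        (l (p n) (p n)).re - ‖l (p n) ω‖ ^ 2 / (l ω ω).re + ε := by
  classical
  let pt : Option G → α := fun o => o.elim ω p
  have hpt : ∀ i, pt i ∈ X := by
    rintro (_ | n)
    · exact hωX
    · exact hpX n
  have hptinj : Function.Injective pt := by
    rintro (_ | a) (_ | b) hab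
    · rfl
    · exact absurd hab.symm (hω b)
    · exact absurd hab (hω a)
    · exact congrArg some (hinj hab)
  let K : Option G → Option G → ℂ := fun i j => k (pt i) (pt j)
  let L : Option G → Option G → ℂ := fun i j => l (pt i) (pt j)
  have hKpos : ∀ i, 0 < (K i i).re := fun i => hkpos _ (hpt i)
  have hLpos : ∀ i, 0 < (L i i).re := by
    rintro (_ | n)
    · exact hlω
    · exact hlp n
  have hKH : ∀ F : Finset (Option G), Herm F K := fun F => herm_pt h.1 pt hpt F
  have hLH : ∀ F : Finset (Option G), Herm F L := fun F => herm_pt h.2.1 pt hpt F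
  have hLC := LC_of_forall_NC hKH hLH hKpos hLpos (fun F ω hω =>
    NC_of_dual (hKH _) (hLH _) (fun x _ => hKpos x)
      (dualCond_of_CP h pt hptinj hpt F ω hω (hKpos ω) (hLpos ω)))
    (univ.map Function.Embedding.some) none (by simp) ε hε
  obtain ⟨m, h1, h2, h3⟩ := hLC
  have hmem : ∀ n ∈ (univ : Finset G), (some n : Option G) ∈ univ.map Function.Embedding.some := by
    intro n _
    simp
  refine ⟨fun a b => m (some a) (some b), h1.comp some hmem, h2.comp some hmem, fun n => ?_⟩
  have h4 := h3.diag_nonneg (hmem n (mem_univ n))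
  have e1 : L none (some n) = conj (L (some n) none) := hLH univ _ (mem_univ _) _ (mem_univ _)
  have e2 : L (some n) (some n) = (((l (p n) (p n)).re : ℝ) : ℂ) := kernel_diag_eq h.2.1 (hpX n)
  have e3 : L none none = (((l ω ω).re : ℝ) : ℂ) := kernel_diag_eq h.2.1 hωX
  have e4 : m (some n) (some n) = (((m (some n) (some n)).re : ℝ) : ℂ) :=
    h1.1.diag_eq (hmem n (mem_univ n))
  have e5 : (schur L none (some n) (some n) + if (some n : Option G) = some n then (ε : ℂ) else 0) -
      L (some n) (some n) * m (some n) (some n) =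
      (((l (p n) (p n)).re - ‖l (p n) ω‖ ^ 2 / (l ω ω).re + ε -
        (l (p n) (p n)).re * (m (some n) (some n)).re : ℝ) : ℂ) := by
    have e6 : L (some n) none * conj (L (some n) none) = ((‖l (p n) ω‖ ^ 2 : ℝ) : ℂ) := by
      rw [Complex.mul_conj']
      push_cast
      rfl
    unfold schur
    rw [if_pos rfl, e1, e6, e2, e3, e4]
    push_cast
    simp only [Complex.ofReal_re]
  have e7 : 0 ≤ ((l (p n) (p n)).re - ‖l (p n) ω‖ ^ 2 / (l ω ω).re + ε -
        (l (p n) (p n)).re * (m (some n) (some n)).re : ℝ) := by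
    have h5 : 0 ≤ ((schur L none (some n) (some n) +
      if (some n : Option G) = some n then (ε : ℂ) else 0) -
      L (some n) (some n) * m (some n) (some n)).re := h4
    rw [e5, Complex.ofReal_re] at h5
    exact h5
  linarith

end MPa1177b
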