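import Pool.Agent.Work.MP_a1177b_an.Dual

open scoped ComplexConjugate ComplexOrder
open Finset

namespace MPa1177b

lemma eval_herm {κ : Type*} [Fintype κ] [DecidableEq κ] (S : Finset κ) (y : κ × κ → ℂ)
    (A : κ → κ → ℂ) (hA : Herm S A) :
    (∑ i : κ × κ, y i * (if i.1 ∈ S ∧ i.2 ∈ S then A i.1 i.2 else 0)).re =
      (∑ a ∈ S, ∑ b ∈ S, ((y (a, b) + conj (y (b, a))) / 2) * A a b).re := by
  have h1 : ∑ i : κ × κ, y i * (if i.1 ∈ S ∧ i.2 ∈ S then A i.1 i.2 else 0) =
      ∑ a ∈ S, ∑ b ∈ S, y (a, b) * A a b := by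
    rw [← Finset.sum_product' S S (fun a b => y (a, b) * A a b),
      ← Finset.sum_subset (Finset.subset_univ (S ×ˢ S))]
    · refine Finset.sum_congr rfl fun i hi => ?_
      rw [if_pos (Finset.mem_product.mp hi)]
    · intro i _ hi
      rw [if_neg (fun h => hi (Finset.mem_product.mpr h)), mul_zero]
  have h2 : ∑ a ∈ S, ∑ b ∈ S, ((y (a, b) + conj (y (b, a))) / 2) * A a b =
      (1 / 2 : ℂ) * ((∑ a ∈ S, ∑ b ∈ S, y (a, b) * A a b) +
        conj (∑ a ∈ S, ∑ b ∈ S, y (a, b) * A a b)) := by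
    have h3 : conj (∑ a ∈ S, ∑ b ∈ S, y (a, b) * A a b) =
        ∑ a ∈ S, ∑ b ∈ S, conj (y (b, a)) * A a b := by
      rw [Finset.sum_comm, map_sum]
      refine Finset.sum_congr rfl fun a ha => ?_
      rw [map_sum]
      refine Finset.sum_congr rfl fun b hb => ?_
      rw [map_mul, hA b hb a ha]
    rw [h3, ← Finset.sum_add_distrib, Finset.mul_sum]
    refine Finset.sum_congr rfl fun a _ => ?_
    rw [← Finset.sum_add_distrib, Finset.mul_sum]
    refine Finset.sum_congr rfl fun b _ => ?_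
    ring
  rw [h1, h2]
  simp
  ring

lemma herm_sym {κ : Type*} (S : Finset κ) (y : κ × κ → ℂ) :
    Herm S (fun a b => (y (a, b) + conj (y (b, a))) / 2) := by
  intro a _ b _
  have h2 : (starRingEnd ℂ) 2 = 2 := map_ofNat _ 2
  beta_reduce
  rw [map_div₀, map_add, Complex.conj_conj, h2]
  ring

lemma psd_rank_one {κ : Type*} (S : Finset κ) (w : κ → ℂ) : PSD S (fun a b => conj (w a) * w b) := by
  refine (psd_gram S w).congr fun a _ b _ => ?_
  simp [mul_comm]

variable {ι : Type*} [DecidableEq ι] [Fintype ι]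

set_option maxHeartbeats 1000000 in
theorem mem_closure_cone {K L : ι → ι → ℂ} {F : Finset ι} {ω : ι} (hK : Herm (insert ω F) K)
    (hL : Herm (insert ω F) L) (hdual : DualCond K L F ω) :
    ((fun p : ι × ι => if p.1 ∈ F ∧ p.2 ∈ F then schur L ω p.1 p.2 else 0),
      (fun r : (ι × ι) × (ι × ι) => if r.1 ∈ F ×ˢ F ∧ r.2 ∈ F ×ˢ F then
        - (if r.1.1 = r.1.2 ∧ r.2.1 = r.2.2 then schur K ω r.1.1 r.2.1 else 0) else 0)) ∈
      closure (cone K L F) := by
  by_contra hx
  obtain ⟨f, u, hf, hu⟩ := geometric_hahn_banach_closed_point (cone_convex K L F).closure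
    isClosed_closure hx
  have hsub : F ⊆ insert ω F := Finset.subset_insert _ _
  have hω : ω ∈ insert ω F := Finset.mem_insert_self _ _
  have hKF := hK.mono hsub
  have hLF := hL.mono hsub
  have hsK := (schur_herm hω hK).mono hsub
  have hsL := (schur_herm hω hL).mono hsub
  have h0 : (0 : (ι × ι → ℂ) × ((ι × ι) × (ι × ι) → ℂ)) ∈ cone K L F := by
    refine ⟨fun _ _ => 0, psd_zero _, ?_, ?_⟩
    · refine (psd_zero F).congr fun a _ b _ => ?_
      simp
    · refine (psd_zero (F ×ˢ F)).congr fun a _ b _ => ?_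
      simp
  have hu0 : 0 < u := by
    have := hf 0 (subset_closure h0)
    simpa using this
  have hneg : ∀ v ∈ cone K L F, f v ≤ 0 := by
    intro v hv
    by_contra hpos
    push Not at hpos
    have h1 := hf ((u / f v) • v) (subset_closure (cone_smul hv (by positivity)))
    rw [map_smul, smul_eq_mul, div_mul_cancel₀ _ hpos.ne'] at h1
    exact lt_irrefl _ h1
  -- representation
  obtain ⟨y1, hy1⟩ := real_functional
    (-((f : (ι × ι → ℂ) × ((ι × ι) × (ι × ι) → ℂ) →ₗ[ℝ] ℝ) ∘ₗ LinearMap.inl ℝ _ _))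
  obtain ⟨y2, hy2⟩ := real_functional
    (-((f : (ι × ι → ℂ) × ((ι × ι) × (ι × ι) → ℂ) →ₗ[ℝ] ℝ) ∘ₗ LinearMap.inr ℝ _ _))
  have hrep : ∀ A B, - f (A, B) = (∑ i, y1 i * A i).re + (∑ i, y2 i * B i).re := by
    intro A B
    rw [← hy1 A, ← hy2 B]
    have : (A, B) = ((A, 0) : (ι × ι → ℂ) × ((ι × ι) × (ι × ι) → ℂ)) + (0, B) := by simp
    rw [this, map_add]
    simp
    ring
  let Y : ι → ι → ℂ := fun a b => (y1 (a, b) + conj (y1 (b, a))) / 2
  let P : ι × ι → ι × ι → ℂ := fun a b => (y2 (a, b) + conj (y2 (b, a))) / 2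
  have hrep2 : ∀ (A : ι → ι → ℂ) (B : ι × ι → ι × ι → ℂ), Herm F A → Herm (F ×ˢ F) B →
      - f ((fun p : ι × ι => if p.1 ∈ F ∧ p.2 ∈ F then A p.1 p.2 else 0),
        (fun r : (ι × ι) × (ι × ι) => if r.1 ∈ F ×ˢ F ∧ r.2 ∈ F ×ˢ F then B r.1 r.2 else 0)) =
      (∑ a ∈ F, ∑ b ∈ F, Y a b * A a b).re +
        (∑ p ∈ F ×ˢ F, ∑ q ∈ F ×ˢ F, P p q * B p q).re := by
    intro A B hA hB
    rw [hrep, eval_herm F y1 A hA, eval_herm (F ×ˢ F) y2 B hB]
  have hYH : Herm F Y := herm_sym F y1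
  have hPH : Herm (F ×ˢ F) P := herm_sym (F ×ˢ F) y2
  have hzH : ∀ {γ : Type _} (S : Finset γ), Herm S (fun _ _ => (0 : ℂ)) :=
    fun S _ _ _ _ => by simp
  have hqf : ∀ {γ : Type _} (S : Finset γ) (A : γ → γ → ℂ) (w : γ → ℂ),
      qf S A w = (∑ a ∈ S, ∑ b ∈ S, A a b * (conj (w a) * w b)).re := by
    intro γ S A w
    unfold qf
    congr 1
    refine Finset.sum_congr rfl fun a _ => Finset.sum_congr rfl fun b _ => ?_
    ring
  have hY : PSD F Y := by
    refine ⟨hYH, fun w => ?_⟩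
    have hA := psd_rank_one F w
    have h1 := hrep2 (fun a b => conj (w a) * w b) (fun _ _ => 0) hA.1 (hzH _)
    have hmem : ((fun p : ι × ι => if p.1 ∈ F ∧ p.2 ∈ F then conj (w p.1) * w p.2 else 0),
        (fun r : (ι × ι) × (ι × ι) => if r.1 ∈ F ×ˢ F ∧ r.2 ∈ F ×ˢ F then (0 : ℂ) else 0)) ∈
        cone K L F := by
      refine ⟨fun _ _ => 0, psd_zero _, ?_, ?_⟩
      · refine hA.congr fun a ha b hb => ?_
        simp [ha, hb]
      · refine (psd_zero (F ×ˢ F)).congr fun a _ b _ => ?_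
        simp
    have h2 := hneg _ hmem
    rw [hqf]
    simp only [mul_zero, Finset.sum_const_zero, Complex.zero_re, add_zero] at h1
    linarith
  have hP : PSD (F ×ˢ F) P := by
    refine ⟨hPH, fun w => ?_⟩
    have hA := psd_rank_one (F ×ˢ F) w
    have h1 := hrep2 (fun _ _ => 0) (fun a b => conj (w a) * w b) (hzH _) hA.1
    have hmem : ((fun p : ι × ι => if p.1 ∈ F ∧ p.2 ∈ F then (0 : ℂ) else 0),
        (fun r : (ι × ι) × (ι × ι) => if r.1 ∈ F ×ˢ F ∧ r.2 ∈ F ×ˢ F then
          conj (w r.1) * w r.2 else 0)) ∈ cone K L F := by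
      refine ⟨fun _ _ => 0, psd_zero _, ?_, ?_⟩
      · refine (psd_zero F).congr fun a ha b hb => ?_
        simp
      · refine hA.congr fun a ha b hb => ?_
        dsimp only
        rw [if_pos ⟨ha, hb⟩]
        simp
    have h2 := hneg _ hmem
    rw [hqf]
    simp only [mul_zero, Finset.sum_const_zero, Complex.zero_re, zero_add] at h1
    linarith
  have hN : PSD (F ×ˢ F) (fun p q => L p.1 q.1 * Y p.2 q.2 - K p.1 q.1 * P p q) := by
    refine ⟨?_, fun w => ?_⟩
    · intro p hp q hq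
      have hp' := Finset.mem_product.mp hp
      have hq' := Finset.mem_product.mp hq
      beta_reduce
      rw [hLF p.1 hp'.1 q.1 hq'.1, hYH p.2 hp'.2 q.2 hq'.2, hKF p.1 hp'.1 q.1 hq'.1,
        hPH p hp q hq, map_sub, map_mul, map_mul]
    · let Q : ι × ι → ι × ι → ℂ := fun p q => conj (w p) * w q
      have hQ : PSD (F ×ˢ F) Q := psd_rank_one (F ×ˢ F) w
      have h1 := hrep2 (fun a b => ∑ y ∈ F, ∑ z ∈ F, L y z * Q (y, a) (z, b))
        (fun p q => - (K p.1 q.1 * Q p q)) (herm_Psi hLF hQ.1) (by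
          intro p hp q hq
          have := herm_K hKF hQ.1 p hp q hq
          beta_reduce at this ⊢
          rw [this, map_neg])
      have hmem : ((fun p : ι × ι => if p.1 ∈ F ∧ p.2 ∈ F then
          ∑ y ∈ F, ∑ z ∈ F, L y z * Q (y, p.1) (z, p.2) else 0),
          (fun r : (ι × ι) × (ι × ι) => if r.1 ∈ F ×ˢ F ∧ r.2 ∈ F ×ˢ F then
          - (K r.1.1 r.2.1 * Q r.1 r.2) else 0)) ∈ cone K L F := by
        refine ⟨Q, hQ, ?_, ?_⟩
        · refine (psd_zero F).congr fun a ha b hb => ?_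
          simp [ha, hb]
        · refine (psd_zero (F ×ˢ F)).congr fun a ha b hb => ?_
          dsimp only
          rw [if_pos ⟨ha, hb⟩]
          simp
      have h2 := hneg _ hmem
      have h3 : qf (F ×ˢ F) (fun p q => L p.1 q.1 * Y p.2 q.2 - K p.1 q.1 * P p q) w =
          (∑ a ∈ F, ∑ b ∈ F, Y a b * ∑ y ∈ F, ∑ z ∈ F, L y z * Q (y, a) (z, b)).re +
          (∑ p ∈ F ×ˢ F, ∑ q ∈ F ×ˢ F, P p q * -(K p.1 q.1 * Q p q)).re := by
        rw [qf_sub, hqf, hqf, sub_eq_add_neg]
        congr 1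
        · congr 1
          rw [Finset.sum_product_right]
          refine Finset.sum_congr rfl fun a ha => ?_
          have e1 : ∀ y ∈ F, ∑ q ∈ F ×ˢ F, L (y, a).1 q.1 * Y (y, a).2 q.2 *
              (conj (w (y, a)) * w q) = ∑ b ∈ F, ∑ z ∈ F, Y a b * (L y z * Q (y, a) (z, b)) := by
            intro y hy
            rw [Finset.sum_product_right]
            refine Finset.sum_congr rfl fun b hb => Finset.sum_congr rfl fun z hz => ?_
            simp only [Q]
            ring
          rw [Finset.sum_congr rfl e1, Finset.sum_comm]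
          refine Finset.sum_congr rfl fun b hb => ?_
          rw [Finset.mul_sum]
          refine Finset.sum_congr rfl fun y hy => ?_
          rw [Finset.mul_sum]
        · rw [← Complex.neg_re]
          congr 1
          rw [← Finset.sum_neg_distrib]
          refine Finset.sum_congr rfl fun p hp => ?_
          rw [← Finset.sum_neg_distrib]
          refine Finset.sum_congr rfl fun q hq => ?_
          simp only [Q]
          ring
      rw [h3, ← h1]
      linarith
  have hfin := hdual Y P hY hP hN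
  have hlast := hrep2 (fun a b => schur L ω a b)
    (fun p q => - (if p.1 = p.2 ∧ q.1 = q.2 then schur K ω p.1 q.1 else 0)) hsL (by
      intro p hp q hq
      have := herm_e hsK p hp q hq
      beta_reduce at this ⊢
      rw [this, map_neg])
  have h5 : (∑ p ∈ F ×ˢ F, ∑ q ∈ F ×ˢ F, P p q *
      -(if p.1 = p.2 ∧ q.1 = q.2 then schur K ω p.1 q.1 else 0)) =
      - ∑ a ∈ F, ∑ b ∈ F, schur K ω a b * P (a, a) (b, b) := by
    rw [← Finset.sum_neg_distrib, Finset.sum_product]
    refine Finset.sum_congr rfl fun a ha => ?_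
    rw [Finset.sum_eq_single a]
    · rw [← Finset.sum_neg_distrib, Finset.sum_product]
      refine Finset.sum_congr rfl fun b hb => ?_
      rw [Finset.sum_eq_single b]
      · simp [mul_comm]
      · intro c _ hc; simp [Ne.symm hc]
      · intro h; exact absurd hb h
    · intro c _ hc
      refine Finset.sum_eq_zero fun q _ => ?_
      rw [if_neg (fun h => hc h.1.symm)]
      simp
    · intro h; exact absurd ha h
  rw [h5] at hlast
  have h6 : (∑ a ∈ F, ∑ b ∈ F, (schur L ω a b * Y a b - schur K ω a b * P (a, a) (b, b))).re =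
      (∑ a ∈ F, ∑ b ∈ F, Y a b * schur L ω a b).re +
        (-∑ a ∈ F, ∑ b ∈ F, schur K ω a b * P (a, a) (b, b)).re := by
    rw [← Complex.add_re, ← sub_eq_add_neg, ← Finset.sum_sub_distrib]
    congr 1
    refine Finset.sum_congr rfl fun a _ => ?_
    rw [← Finset.sum_sub_distrib]
    refine Finset.sum_congr rfl fun b _ => ?_
    ring
  rw [h6] at hfin
  linarith

end MPa1177b
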