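import Pool.Agent.Work.MP_a1177b_an.Ident

open scoped ComplexConjugate ComplexOrder
open Finset Metric Filter Topology

namespace MPa1177b

variable {g : ℕ} {Ω : Set (Fin g → ℂ)} {f k l : (Fin g → ℂ) → (Fin g → ℂ) → ℂ}

lemma hol_left (hf : IsHolKernel Ω f) {w : Fin g → ℂ} (hw : w ∈ Ω) :
    DifferentiableOn ℂ (fun z => f z w) Ω := by
  have h1 : DifferentiableOn ℂ (fun z : Fin g → ℂ => ((z, star w) :
      (Fin g → ℂ) × (Fin g → ℂ))) Ω := by fun_prop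
  have h2 := hf.2.comp h1 (fun z hz => by
    change z ∈ Ω ∧ star (star w) ∈ Ω
    rw [star_star]
    exact ⟨hz, hw⟩)
  refine h2.congr fun z _ => ?_
  simp

lemma hol_cont (hf : IsHolKernel Ω f) :
    ContinuousOn (fun p : (Fin g → ℂ) × (Fin g → ℂ) => f p.1 p.2) (Ω ×ˢ Ω) := by
  have h1 : ContinuousOn (fun p : (Fin g → ℂ) × (Fin g → ℂ) => ((p.1, star p.2) :
      (Fin g → ℂ) × (Fin g → ℂ))) (Ω ×ˢ Ω) := by
    exact (continuous_fst.prodMk continuous_snd.star).continuousOn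
  have h2 := hf.2.continuousOn.comp h1 (fun p hp => by
    change p.1 ∈ Ω ∧ star (star p.2) ∈ Ω
    rw [star_star]
    exact ⟨hp.1, hp.2⟩)
  refine h2.congr fun p _ => ?_
  simp

lemma mon_at_zero (a : Fin g → ℕ) : mon a (0 : Fin g → ℂ) = if a = 0 then 1 else 0 := by
  by_cases ha : a = 0
  · subst ha; simp [mon]
  · rw [if_neg ha]
    obtain ⟨j, hj⟩ := Function.ne_iff.mp ha
    unfold mon
    refine Finset.prod_eq_zero (mem_univ j) ?_
    simpa using hj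

lemma k_zero (hΩ : IsOpen Ω) (hconn : IsPreconnected Ω) (h0 : (0 : Fin g → ℂ) ∈ Ω)
    (hk : IsHolKernel Ω k) {c : (Fin g → ℕ) → ℝ} (hc : IsNormDiag k c) :
    ∀ z ∈ Ω, k z 0 = 1 := by
  have h1 : ∀ᶠ z in 𝓝 (0 : Fin g → ℂ), k z 0 - 1 = 0 := by
    have h2 : Tendsto (fun z : Fin g → ℂ => ((z, 0) : (Fin g → ℂ) × (Fin g → ℂ))) (𝓝 0)
        (𝓝 0) := by
      have : Continuous (fun z : Fin g → ℂ => ((z, 0) : (Fin g → ℂ) × (Fin g → ℂ))) := by
        fun_prop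
      exact this.tendsto 0
    filter_upwards [h2.eventually hc.2.2] with z hz
    have h3 : HasSum (fun a => (c a : ℂ) * mon a z * conj (mon a (0 : Fin g → ℂ))) 1 := by
      have : (1 : ℂ) = (c 0 : ℂ) * mon 0 z * conj (mon 0 (0 : Fin g → ℂ)) := by
        rw [hc.2.1]; simp [mon]
      rw [this]
      refine hasSum_single 0 fun a ha => ?_
      rw [mon_at_zero, if_neg ha]
      simp
    rw [hz.unique h3, sub_self]
  have hd : DifferentiableOn ℂ (fun z => k z 0 - 1) Ω := (hol_left hk h0).sub_const 1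
  intro z hz
  exact sub_eq_zero.mp (ident hΩ hconn hd h0 h1 z hz)

lemma k_pos (hΩ : IsOpen Ω) (hconn : IsPreconnected Ω) (h0 : (0 : Fin g → ℂ) ∈ Ω)
    (hk : IsHolKernel Ω k) {c : (Fin g → ℕ) → ℝ} (hc : IsNormDiag k c) :
    ∀ z ∈ Ω, 0 < (k z z).re := by
  intro z hz
  have h1 := kernel_cs hk.1 hz h0
  rw [k_zero hΩ hconn h0 hk hc z hz, k_zero hΩ hconn h0 hk hc 0 h0] at h1
  simp at h1
  linarith

lemma l_dense (hΩ : IsOpen Ω) (hconn : IsPreconnected Ω) (hl : IsHolKernel Ω l)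
    (hl0 : ∃ x ∈ Ω, ∃ y ∈ Ω, l x y ≠ 0) :
    ∀ x ∈ Ω, ∀ δ : ℝ, 0 < δ → ∃ y ∈ Ω, dist y x < δ ∧ 0 < (l y y).re := by
  intro x hx δ hδ
  by_contra hcon
  push Not at hcon
  obtain ⟨a, ha, b, hb, hab⟩ := hl0
  apply hab
  refine ident hΩ hconn (hol_left hl hb) hx ?_ a ha
  filter_upwards [hΩ.mem_nhds hx, ball_mem_nhds x hδ] with y hyΩ hyb
  have h1 := hcon y hyΩ hyb
  have h2 := kernel_cs hl.1 hyΩ hb
  have h3 := kernel_diag_nonneg hl.1 hyΩ
  have h4 : (l y y).re = 0 := le_antisymm h1 h3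
  rw [h4, zero_mul] at h2
  have h5 : ‖l y b‖ = 0 := by
    have := le_antisymm h2 (by positivity)
    exact pow_eq_zero_iff (two_ne_zero) |>.mp this
  exact norm_eq_zero.mp h5

end MPa1177b
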