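import Pool.Agent.Work.MP_a1177b_an.Omega

open scoped ComplexConjugate ComplexOrder
open Finset Metric Filter Topology

namespace MPa1177b

/-- identity theorem for holomorphic functions on a connected open set of a normed space -/
theorem ident {E : Type*} [NormedAddCommGroup E] [NormedSpace ℂ E] {f : E → ℂ} {Ω : Set E}
    (hΩ : IsOpen Ω) (hconn : IsPreconnected Ω) (hf : DifferentiableOn ℂ f Ω) {z₀ : E}
    (hz₀ : z₀ ∈ Ω) (h : ∀ᶠ z in 𝓝 z₀, f z = 0) : ∀ z ∈ Ω, f z = 0 := by
  set U : Set E := {z | ∀ᶠ w in 𝓝 z, f w = 0} with hU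
  have hUo : IsOpen U := by
    rw [isOpen_iff_mem_nhds]
    intro z hz
    exact eventually_eventually_nhds.mpr hz
  have hsub : Ω ⊆ U := by
    refine hconn.subset_of_closure_inter_subset hUo ⟨z₀, hz₀, h⟩ ?_
    rintro z ⟨hzU, hzΩ⟩
    obtain ⟨ρ, hρ, hball⟩ := Metric.isOpen_iff.mp hΩ z hzΩ
    obtain ⟨u, huU, hud⟩ := Metric.mem_closure_iff.mp hzU ρ hρ
    have hub : u ∈ ball z ρ := by rwa [mem_ball, dist_comm]
    have : ∀ z' ∈ ball z ρ, f z' = 0 := by
      intro z' hz'
      let φ : ℂ → E := fun t => u + t • (z' - u)
      have hφc : Continuous φ := by fun_prop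
      have hφd : Differentiable ℂ φ := by fun_prop
      let T : Set ℂ := φ ⁻¹' (ball z ρ)
      have hTo : IsOpen T := isOpen_ball.preimage hφc
      have hTc : Convex ℝ T := by
        intro s hs t ht a b ha hb hab
        have h1 : φ (a • s + b • t) = a • φ s + b • φ t := by
          simp only [φ]
          have : a • (u + s • (z' - u)) + b • (u + t • (z' - u)) =
              (a + b) • u + (a • s + b • t) • (z' - u) := by
            rw [smul_add, smul_add, add_smul, add_smul, smul_assoc, smul_assoc]
            abel
          rw [this, hab, one_smul]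
        change φ (a • s + b • t) ∈ ball z ρ
        rw [h1]
        exact convex_ball z ρ hs ht ha hb hab
      have han : AnalyticOnNhd ℂ (fun t => f (φ t)) T := by
        refine DifferentiableOn.analyticOnNhd ?_ hTo
        exact (hf.mono hball).comp hφd.differentiableOn (fun t ht => ht)
      have h0T : (0 : ℂ) ∈ T := by
        change φ 0 ∈ ball z ρ
        simpa [φ] using hub
      have h1T : (1 : ℂ) ∈ T := by
        change φ 1 ∈ ball z ρ
        simpa [φ] using hz'
      have hev : (fun t => f (φ t)) =ᶠ[𝓝 (0 : ℂ)] 0 := by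
        have h2 : Tendsto φ (𝓝 0) (𝓝 u) := by
          have := hφc.tendsto 0
          simpa [φ] using this
        exact h2.eventually huU
      have := han.eqOn_zero_of_preconnected_of_eventuallyEq_zero hTc.isPreconnected h0T hev h1T
      simpa [φ] using this
    exact Filter.mem_of_superset (ball_mem_nhds z hρ) this
  intro z hz
  exact (hsub hz).self_of_nhds

end MPa1177b
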