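import Pool.Agent.Work.MP_a1177b_an.HolFacts
import Pool.Agent.Work.MP_a1177b_an.Fourier

open scoped ComplexConjugate ComplexOrder
open Finset Metric Filter Topology

namespace MPa1177b

variable {g : ℕ}

/-- growth of the diagonal of `k` near the origin -/
theorem kappa_bound {k : (Fin g → ℂ) → (Fin g → ℂ) → ℂ} {c : (Fin g → ℕ) → ℝ}
    (hc : ∀ a, 0 < c a) (hc0 : c 0 = 1) {R : Fin g → ℝ}
    (hpow : ∀ z w : Fin g → ℂ, (∀ j, ‖z j‖ < R j) → (∀ j, ‖w j‖ < R j) →
      HasSum (fun a => (c a : ℂ) * mon a z * conj (mon a w)) (k z w))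
    {r₀ : ℝ} (hr₀ : 0 < r₀) (hrR : ∀ j, r₀ < R j) :
    ∃ C' : ℝ, 0 ≤ C' ∧ ∀ ω ∈ ball (0 : Fin g → ℂ) r₀, (k ω ω).re ≤ 1 + C' * ‖ω‖ ^ 2 := by
  classical
  have hsum : ∀ z : Fin g → ℂ, (∀ j, ‖z j‖ < R j) →
      HasSum (fun a => c a * ‖mon a z‖ ^ 2) (k z z).re := by
    intro z hz
    refine hasSum_re_congr (Complex.hasSum_re (hpow z z hz hz)) fun a => ?_
    have : (c a : ℂ) * mon a z * conj (mon a z) = ((c a * ‖mon a z‖ ^ 2 : ℝ) : ℂ) := by
      rw [mul_assoc, Complex.mul_conj']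
      push_cast
      rfl
    rw [this, Complex.ofReal_re]
  let v : Fin g → ℂ := fun _ => (r₀ : ℂ)
  have hv : ∀ j, ‖v j‖ < R j := fun j => by
    simp only [v, Complex.norm_real, Real.norm_of_nonneg hr₀.le]
    exact hrR j
  have hsv := hsum v hv
  have hkv : 0 ≤ (k v v).re := hsv.nonneg fun a => mul_nonneg (hc a).le (by positivity)
  refine ⟨(k v v).re / r₀ ^ 2, by positivity, fun ω hω => ?_⟩
  have hωn : ‖ω‖ < r₀ := by simpa using hω
  have hωR : ∀ j, ‖ω j‖ < R j := fun j =>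
    ((norm_le_pi_norm ω j).trans_lt hωn).trans (hrR j)
  set q : ℝ := ‖ω‖ / r₀ with hq
  have hq0 : 0 ≤ q := by positivity
  have hq1 : q ≤ 1 := by rw [hq, div_le_one hr₀]; exact hωn.le
  have h1 : HasSum (fun a : Fin g → ℕ => (if a = 0 then (1 : ℝ) else 0) +
      q ^ 2 * (c a * ‖mon a v‖ ^ 2)) (1 + q ^ 2 * (k v v).re) := by
    refine HasSum.add ?_ (hsv.mul_left _)
    exact hasSum_ite_eq 0 (1 : ℝ)
  have h2 := hasSum_le (fun a => ?_) (hsum ω hωR) h1
  · refine h2.trans (le_of_eq ?_)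
    rw [hq, div_pow]
    ring
  · by_cases ha : a = 0
    · subst ha
      have e1 : mon 0 ω = 1 := by simp [mon]
      rw [if_pos rfl, hc0, e1]
      have : 0 ≤ q ^ 2 * (1 * ‖mon 0 v‖ ^ 2) := by positivity
      simp only [norm_one, one_pow, mul_one]
      linarith
    · rw [if_neg ha, zero_add]
      have hmv : ‖mon a v‖ = r₀ ^ (∑ j, a j) := by
        unfold mon
        rw [norm_prod, ← Finset.prod_pow_eq_pow_sum]
        refine Finset.prod_congr rfl fun j _ => ?_
        rw [norm_pow]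
        simp only [v, Complex.norm_real, Real.norm_of_nonneg hr₀.le]
      have hmω : ‖mon a ω‖ ≤ ‖ω‖ ^ (∑ j, a j) := by
        unfold mon
        rw [norm_prod, ← Finset.prod_pow_eq_pow_sum]
        refine Finset.prod_le_prod (fun _ _ => norm_nonneg _) fun j _ => ?_
        rw [norm_pow]
        exact pow_le_pow_left₀ (norm_nonneg _) (norm_le_pi_norm ω j) _
      have hn : ∑ j, a j ≠ 0 := by
        intro h0
        apply ha
        funext j
        have := Finset.sum_eq_zero_iff.mp h0 j (mem_univ j)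
        simpa using this
      have h3 : ‖ω‖ ^ (∑ j, a j) ≤ q * r₀ ^ (∑ j, a j) := by
        have h4 : ‖ω‖ = q * r₀ := by rw [hq]; field_simp
        rw [h4, mul_pow]
        have h5 : q ^ (∑ j, a j) ≤ q := by
          calc q ^ (∑ j, a j) ≤ q ^ 1 := pow_le_pow_of_le_one hq0 hq1 (Nat.one_le_iff_ne_zero.mpr hn)
            _ = q := pow_one q
        gcongr
      have h6 : ‖mon a ω‖ ≤ q * ‖mon a v‖ := by rw [hmv]; exact hmω.trans h3
      calc c a * ‖mon a ω‖ ^ 2 ≤ c a * (q * ‖mon a v‖) ^ 2 := by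
            have := (hc a).le
            gcongr
        _ = _ := by ring

lemma gp_eq_exp (r : Fin g → ℝ) (n : ℕ) (m : Fin g → ZMod (n + 1)) :
    gp r m = fun j => (r j : ℂ) *
      Complex.exp (2 * Real.pi * Complex.I * (((m j).val : ℕ) / ((n + 1 : ℕ) : ℂ))) := by
  funext j
  unfold gp
  rw [ZMod.stdAddChar_apply, ZMod.toCircle_apply]
  congr 2
  ring

end MPa1177b
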