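import Pool.Agent.Work.MP_a1177b_an.Fourier

open Finset Filter Topology

namespace MPa1177b

variable {g : ℕ}

/-- reduction of an integer multi-index mod `n+1` -/
def icst (n : ℕ) (b : Fin g → ℤ) : Fin g → ZMod (n + 1) := fun j => (b j : ZMod (n + 1))

/-- inclusion of natural multi-indices -/
def inat (a : Fin g → ℕ) : Fin g → ℤ := fun j => (a j : ℤ)

lemma inat_injective : Function.Injective (inat (g := g)) := by
  intro a b h
  funext j
  have := congrFun h j
  simpa [inat] using this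

lemma icst_inat (n : ℕ) (a : Fin g → ℕ) : icst n (inat a) = cst a := by
  funext j
  simp [icst, inat, cst]

lemma icst_sub (n : ℕ) (a b : Fin g → ℤ) : icst n (a - b) = icst n a - icst n b := by
  funext j
  simp [icst]

lemma eventually_icst_ne {a b : Fin g → ℤ} (h : a ≠ b) :
    ∀ᶠ n : ℕ in atTop, icst n a ≠ icst n b := by
  obtain ⟨j, hj⟩ := Function.ne_iff.mp h
  filter_upwards [eventually_ge_atTop (b j - a j).natAbs] with n hn heq
  have h1 := congrFun heq j
  simp only [icst] at h1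
  rw [ZMod.intCast_eq_intCast_iff_dvd_sub] at h1
  have h2 : b j - a j = 0 := by
    refine Int.eq_zero_of_abs_lt_dvd h1 ?_
    rw [Int.abs_eq_natAbs]
    exact Int.ofNat_lt.mpr (Nat.lt_succ_of_le hn)
  exact hj (by omega)

theorem limit_step {W : (Fin g → ℕ) → ℝ} (hW : ∀ a, 0 ≤ W a)
    (hWs : Summable W) {κ A : ℝ}
    (C : ∀ n : ℕ, (Fin g → ZMod (n + 1)) → ℝ) (hC0 : ∀ n b, 0 ≤ C n b)
    (hCA : ∀ᶠ n in atTop, ∑ b, C n b ≤ A)
    (hC : ∀ n (b : Fin g → ℕ), (cst b : Fin g → ZMod (n + 1)) ≠ 0 →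
      W b / κ - 1 / ((n : ℝ) + 1) ≤ ∑' a : Fin g → ℕ, W a * C n (cst b - cst a)) :
    ∃ M : (Fin g → ℤ) → ℝ, (∀ b, 0 ≤ M b) ∧ (∀ B : Finset (Fin g → ℤ), ∑ b ∈ B, M b ≤ A) ∧
      ∀ b : Fin g → ℕ, b ≠ 0 → W b / κ ≤ ∑' a : Fin g → ℕ, W a * M (inat b - inat a) := by
  classical
  let U : Ultrafilter ℕ := hyperfilter ℕ
  have hU : (U : Filter ℕ) ≤ atTop := Nat.hyperfilter_le_atTop
  let D : ℕ → (Fin g → ℤ) → ℝ := fun n b => C n (icst n b)
  have hD0 : ∀ n b, 0 ≤ D n b := fun n b => hC0 n _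
  have hDA : ∀ᶠ n in (U : Filter ℕ), ∀ b, D n b ≤ A := by
    filter_upwards [hCA.filter_mono hU] with n hn b
    exact (Finset.single_le_sum (fun x _ => hC0 n x) (mem_univ (icst n b))).trans hn
  have hlim : ∀ b, ∃ x : ℝ, Tendsto (fun n => D n b) U (𝓝 x) := by
    intro b
    have h1 : ((U.map (fun n => D n b) : Ultrafilter ℝ) : Filter ℝ) ≤ 𝓟 (Set.Icc 0 A) := by
      rw [le_principal_iff, Ultrafilter.mem_coe, Ultrafilter.mem_map]
      filter_upwards [hDA] with n hn
      exact ⟨hD0 n b, hn b⟩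
    obtain ⟨x, _, hx⟩ := isCompact_Icc.ultrafilter_le_nhds _ h1
    exact ⟨x, hx⟩
  choose M hM using hlim
  have hM0 : ∀ b, 0 ≤ M b := fun b => ge_of_tendsto' (hM b) fun n => hD0 n b
  refine ⟨M, hM0, fun B => ?_, fun b hb => ?_⟩
  · have h1 : Tendsto (fun n => ∑ b ∈ B, D n b) U (𝓝 (∑ b ∈ B, M b)) :=
      tendsto_finsetSum B fun b _ => hM b
    refine le_of_tendsto h1 ?_
    have h2 : ∀ᶠ n : ℕ in atTop, ∀ a ∈ B, ∀ b ∈ B, a ≠ b → icst n a ≠ icst n b := by
      rw [eventually_all_finset]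
      intro a _
      rw [eventually_all_finset]
      intro b _
      by_cases hab : a = b
      · simp [hab]
      · filter_upwards [eventually_icst_ne hab] with n hn _
        exact hn
    filter_upwards [h2.filter_mono hU, hCA.filter_mono hU] with n hn hnA
    have hinj : Set.InjOn (icst n) (B : Set (Fin g → ℤ)) := by
      intro a ha b hb hab
      by_contra hne
      exact hn a ha b hb hne hab
    calc ∑ b ∈ B, D n b = ∑ x ∈ B.image (icst n), C n x := by
          rw [Finset.sum_image hinj]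
      _ ≤ ∑ x, C n x := Finset.sum_le_sum_of_subset_of_nonneg (subset_univ _)
          fun x _ _ => hC0 n x
      _ ≤ A := hnA
  · have h1 : Tendsto (fun n => ∑' a : Fin g → ℕ, W a * D n (inat b - inat a)) U
        (𝓝 (∑' a : Fin g → ℕ, W a * M (inat b - inat a))) := by
      refine tendsto_tsum_of_dominated_convergence (bound := fun a => W a * A)
        (hWs.mul_right A) (fun a => (hM _).const_mul _) ?_
      filter_upwards [hDA] with n hn a
      rw [Real.norm_of_nonneg (mul_nonneg (hW a) (hD0 n _))]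
      exact mul_le_mul_of_nonneg_left (hn _) (hW a)
    have h2 : Tendsto (fun n : ℕ => W b / κ - 1 / ((n : ℝ) + 1)) U (𝓝 (W b / κ - 0)) :=
      (tendsto_const_nhds.sub tendsto_one_div_add_atTop_nhds_zero_nat).mono_left hU
    rw [sub_zero] at h2
    refine le_of_tendsto_of_tendsto h2 h1 ?_
    have h3 : ∀ᶠ n : ℕ in atTop, icst n (inat b) ≠ icst n (0 : Fin g → ℤ) := by
      refine eventually_icst_ne ?_
      intro h
      apply hb
      apply inat_injective
      rw [h]
      funext j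
      simp [inat]
    filter_upwards [h3.filter_mono hU] with n hn
    have h4 : (cst b : Fin g → ZMod (n + 1)) ≠ 0 := by
      rw [icst_inat] at hn
      convert hn using 1
      funext j
      simp [icst]
    have h5 := hC n b h4
    refine h5.trans (le_of_eq ?_)
    refine tsum_congr fun a => ?_
    simp only [D]
    rw [icst_sub, icst_inat, icst_inat]

end MPa1177b
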