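import Pool.Agent.Work.MP_a1177b_an.Site

open scoped ComplexConjugate ComplexOrder
open Finset

namespace MPa1177b

variable {ι : Type*} [DecidableEq ι]

/-- approximate local certificate -/
def LC (K L : ι → ι → ℂ) (F : Finset ι) (ω : ι) : Prop :=
  ∀ ε : ℝ, 0 < ε → ∃ m : ι → ι → ℂ, PSD F m ∧
    PSD F (fun y z => K y z * m y z - schur K ω y z) ∧
    PSD F (fun y z => (schur L ω y z + if y = z then (ε : ℂ) else 0) - L y z * m y z)

/-- approximate nonlocal certificate -/
def NC (K L : ι → ι → ℂ) (F : Finset ι) (ω : ι) : Prop :=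
  ∀ ε : ℝ, 0 < ε → ∃ Q : ι × ι → ι × ι → ℂ, PSD (F ×ˢ F) Q ∧
    PSD (F ×ˢ F) (fun p q => K p.1 q.1 * Q p q -
      if p.1 = p.2 ∧ q.1 = q.2 then schur K ω p.1 q.1 else 0) ∧
    PSD F (fun a b => (schur L ω a b + if a = b then (ε : ℂ) else 0) -
      ∑ y ∈ F, ∑ z ∈ F, L y z * Q (y, a) (z, b))

lemma herm_diag (F : Finset ι) (ε : ℝ) : Herm F (fun a b => if a = b then (ε : ℂ) else 0) := by
  intro a _ b _
  by_cases h : a = b
  · subst h; simp
  · simp [h, Ne.symm h]

/-- site by site reduction -/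
theorem NC_sites {K L : ι → ι → ℂ} {F : Finset ι} {ω : ι}
    (hK : Herm (insert ω F) K) (hL : Herm (insert ω F) L)
    (hKpos : ∀ x ∈ F, 0 < (K x x).re) (hLpos : ∀ x ∈ F, 0 < (L x x).re)
    (hNC : NC K L F ω) (hLC : ∀ x ∈ F, LC K L (F.erase x) x) (S : Finset ι) (hS : S ⊆ F) :
    ∀ ε : ℝ, 0 < ε → ∃ Q : ι × ι → ι × ι → ℂ, PSD (F ×ˢ F) Q ∧
    PSD (F ×ˢ F) (fun p q => K p.1 q.1 * Q p q -
      if p.1 = p.2 ∧ q.1 = q.2 then schur K ω p.1 q.1 else 0) ∧
    PSD F (fun a b => (schur L ω a b + if a = b then (ε : ℂ) else 0) -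
      ∑ y ∈ F, ∑ z ∈ F, L y z * Q (y, a) (z, b)) ∧
    ∀ x ∈ S, ∀ a ∈ F, a ≠ x → Q (x, a) (x, a) = 0 := by
  induction S using Finset.induction_on with
  | empty =>
    intro ε hε
    obtain ⟨Q, h1, h2, h3⟩ := hNC ε hε
    exact ⟨Q, h1, h2, h3, by simp⟩
  | insert x S hx ih =>
    intro ε hε
    obtain ⟨Q, h1, h2, h3, h4⟩ := ih ((Finset.subset_insert _ _).trans hS) (ε / 2) (by positivity)
    have hxF : x ∈ F := hS (Finset.mem_insert_self _ _)
    set C : ℝ := ∑ p ∈ F ×ˢ F, (Q p p).re with hC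
    have hC0 : 0 ≤ C := Finset.sum_nonneg fun p hp => h1.diag_nonneg hp
    set δ : ℝ := ε / (2 * (C + 1)) with hδ
    have hδ0 : 0 < δ := by positivity
    obtain ⟨m, m1, m2, m3⟩ := hLC x hxF δ hδ0
    have hsub : F ⊆ insert ω F := Finset.subset_insert _ _
    have hω : ω ∈ insert ω F := Finset.mem_insert_self _ _
    obtain ⟨Q', q1, q2, q3, q4, q5⟩ := site_step F K L (schur K ω)
      (fun a b => schur L ω a b + if a = b then ((ε / 2 : ℝ) : ℂ) else 0) (hK.mono hsub)
      (hL.mono hsub) ((schur_herm hω hK).mono hsub)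
      (((schur_herm hω hL).mono hsub).add (herm_diag F (ε / 2))) Q h1 h2 h3 hxF
      (hKpos x hxF) (hLpos x hxF) m1 m2 hδ0.le m3
    refine ⟨Q', q1, q2, ⟨?_, fun s => ?_⟩, ?_⟩
    · have e1 := q3.1.add (herm_diag F (ε - ε / 2 - δ * C))
      intro a ha b hb
      have := e1 a ha b hb
      simp only [map_add, map_sub] at this ⊢
      by_cases hab : a = b
      · subst hab
        simp only [if_true] at this ⊢
        rw [← hC] at this
        push_cast at this ⊢
        simp only [map_sub, map_mul, map_div₀, Complex.conj_ofReal, map_ofNat] at this ⊢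
        linear_combination this
      · simp only [hab, Ne.symm hab, if_false] at this ⊢
        simpa using this
    · have e2 := q3.2 s
      rw [qf_sub, qf_add, qf_add, qf_diag, qf_diag] at e2
      rw [qf_sub, qf_add, qf_diag]
      have e3 : δ * C ≤ ε / 2 := by
        rw [hδ]
        rw [div_mul_eq_mul_div, div_le_div_iff₀ (by positivity) (by norm_num)]
        nlinarith
      have e4 : (δ * C) * ∑ a ∈ F, ‖s a‖ ^ 2 ≤ (ε / 2) * ∑ a ∈ F, ‖s a‖ ^ 2 :=
        mul_le_mul_of_nonneg_right e3 (Finset.sum_nonneg fun _ _ => by positivity)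
      rw [← hC] at e2
      linarith
    · intro x' hx' a ha hax'
      rcases Finset.mem_insert.mp hx' with rfl | hx'S
      · exact q4 a ha hax'
      · exact q5 _ (Finset.mem_product.mpr ⟨hS (Finset.mem_insert_of_mem hx'S), ha⟩)
          (h4 x' hx'S a ha hax')

/-- a PSD kernel with a vanishing diagonal entry has a vanishing row -/
lemma PSD.row_zero {β : Type*} {F : Finset β} {A : β → β → ℂ} (h : PSD F A) {p : β} (hp : p ∈ F)
    (h0 : A p p = 0) {q : β} (hq : q ∈ F) : A p q = 0 ∧ A q p = 0 := by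
  obtain ⟨c, hc⟩ := h.exists_gram
  rw [hc p hp p hp] at h0
  have : c p = 0 := inner_self_eq_zero.mp h0
  rw [hc p hp q hq, hc q hq p hp, this]
  simp

/-- pulling back a PSD kernel along a map -/
lemma PSD.comp {β γ : Type*} {F : Finset β} {F' : Finset γ} {A : γ → γ → ℂ} (h : PSD F' A)
    (φ : β → γ) (hφ : ∀ x ∈ F, φ x ∈ F') : PSD F (fun y z => A (φ y) (φ z)) := by
  obtain ⟨c, hc⟩ := h.exists_gram
  refine (psd_gram F (fun x => c (φ x))).congr fun x hx y hy => ?_
  rw [hc _ (hφ x hx) _ (hφ y hy)]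

theorem LC_of_NC {K L : ι → ι → ℂ} {F : Finset ι} {ω : ι}
    (hK : Herm (insert ω F) K) (hL : Herm (insert ω F) L)
    (hKpos : ∀ x ∈ F, 0 < (K x x).re) (hLpos : ∀ x ∈ F, 0 < (L x x).re)
    (hNC : NC K L F ω) (hLC : ∀ x ∈ F, LC K L (F.erase x) x) : LC K L F ω := by
  intro ε hε
  obtain ⟨Q, h1, h2, h3, h4⟩ := NC_sites hK hL hKpos hLpos hNC hLC F (Finset.Subset.refl _) ε hε
  have hsub : F ⊆ insert ω F := Finset.subset_insert _ _
  have hω : ω ∈ insert ω F := Finset.mem_insert_self _ _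
  have hd : ∀ y ∈ F, (y, y) ∈ F ×ˢ F := fun y hy => Finset.mem_product.mpr ⟨hy, hy⟩
  refine ⟨fun y z => Q (y, y) (z, z), h1.comp (fun y => (y, y)) hd,
    (h2.comp (fun y => (y, y)) hd).congr fun y hy z hz => by simp, ?_⟩
  · refine h3.congr fun a ha b hb => ?_
    congr 1
    rw [Finset.sum_eq_single a]
    · rw [Finset.sum_eq_single b]
      · intro z hz hzb
        have hz0 := h4 z hz b hb (Ne.symm hzb)
        rw [(h1.row_zero (Finset.mem_product.mpr ⟨hz, hb⟩) hz0
          (Finset.mem_product.mpr ⟨ha, ha⟩)).2, mul_zero]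
      · intro h; exact absurd hb h
    · intro y hy hya
      refine Finset.sum_eq_zero fun z hz => ?_
      have hy0 := h4 y hy a ha (Ne.symm hya)
      rw [(h1.row_zero (Finset.mem_product.mpr ⟨hy, ha⟩) hy0
        (Finset.mem_product.mpr ⟨hz, hb⟩)).1, mul_zero]
    · intro h; exact absurd ha h

/-- Reduction of the local certificates to the nonlocal ones -/
theorem LC_of_forall_NC {K L : ι → ι → ℂ} (hK : ∀ F : Finset ι, Herm F K)
    (hL : ∀ F : Finset ι, Herm F L) (hKpos : ∀ x, 0 < (K x x).re) (hLpos : ∀ x, 0 < (L x x).re)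
    (hNC : ∀ (F : Finset ι) (ω : ι), ω ∉ F → NC K L F ω) (F : Finset ι) (ω : ι) (hω : ω ∉ F) :
    LC K L F ω := by
  induction hn : F.card generalizing F ω with
  | zero =>
    rw [Finset.card_eq_zero] at hn
    subst hn
    intro ε hε
    refine ⟨fun _ _ => 0, ⟨fun x hx => by simp at hx, fun u => by simp [qf]⟩,
      ⟨fun x hx => by simp at hx, fun u => by simp [qf]⟩,
      ⟨fun x hx => by simp at hx, fun u => by simp [qf]⟩⟩
  | succ n ih =>
    refine LC_of_NC (hK _) (hL _) (fun x _ => hKpos x) (fun x _ => hLpos x) (hNC F ω hω) ?_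
    intro x hx
    exact ih (F.erase x) x (Finset.notMem_erase x F) (by rw [Finset.card_erase_of_mem hx, hn]; rfl)

end MPa1177b
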