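import Pool.Agent.Work.MP_a1177b_an.HB

open scoped ComplexConjugate ComplexOrder
open Finset

namespace MPa1177b

lemma qf_vdiag {β : Type*} [DecidableEq β] (F : Finset β) (d : β → ℝ) (u : β → ℂ) :
    qf F (fun a b => if a = b then (d a : ℂ) else 0) u = ∑ a ∈ F, d a * ‖u a‖ ^ 2 := by
  unfold qf
  have : ∑ x ∈ F, ∑ y ∈ F, conj (u x) * (if x = y then (d x : ℂ) else 0) * u y =
      ((∑ a ∈ F, d a * ‖u a‖ ^ 2 : ℝ) : ℂ) := by
    push_cast
    refine Finset.sum_congr rfl fun x hx => ?_
    rw [Finset.sum_eq_single x]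
    · simp only [if_true]
      have := Complex.conj_mul' (u x)
      rw [← this]; ring
    · intro b _ hb
      simp [Ne.symm hb]
    · intro h; exact absurd hx h
  rw [this, Complex.ofReal_re]

variable {ι : Type*} [DecidableEq ι] [Fintype ι]

set_option maxHeartbeats 1000000 in
theorem NC_of_dual {K L : ι → ι → ℂ} {F : Finset ι} {ω : ι} (hK : Herm (insert ω F) K)
    (hL : Herm (insert ω F) L) (hKpos : ∀ x ∈ F, 0 < (K x x).re)
    (hdual : DualCond K L F ω) : NC K L F ω := by
  intro ε hε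
  have hsub : F ⊆ insert ω F := Finset.subset_insert _ _
  have hω : ω ∈ insert ω F := Finset.mem_insert_self _ _
  have hKF := hK.mono hsub
  have hLF := hL.mono hsub
  have hsK := (schur_herm hω hK).mono hsub
  have hsL := (schur_herm hω hL).mono hsub
  obtain ⟨κ, hκ, hκK⟩ : ∃ κ : ℝ, 0 < κ ∧ ∀ x ∈ F, κ ≤ (K x x).re := by
    rcases F.eq_empty_or_nonempty with rfl | hne
    · exact ⟨1, one_pos, by simp⟩
    · obtain ⟨x, hx, hmin⟩ := F.exists_min_image (fun x => (K x x).re) hne
      exact ⟨_, hKpos x hx, hmin⟩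
  set N : ℝ := ((F ×ˢ F).card : ℝ) with hN
  set n : ℝ := (F.card : ℝ) with hn
  set S : ℝ := ∑ y ∈ F, |(L y y).re| with hS
  have hN0 : 0 ≤ N := Nat.cast_nonneg _
  have hn0 : 0 ≤ n := Nat.cast_nonneg _
  have hS0 : 0 ≤ S := Finset.sum_nonneg fun _ _ => abs_nonneg _
  set D : ℝ := n + N / κ * S + 1 with hD
  have hD0 : 0 < D := by positivity
  set δ : ℝ := ε / D with hδ
  have hδ0 : 0 < δ := by positivity
  obtain ⟨v, hv, hdist⟩ := Metric.mem_closure_iff.mp (mem_closure_cone hK hL hdual) δ hδ0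
  obtain ⟨Q, q1, q2, q3⟩ := hv
  rw [Prod.dist_eq, max_lt_iff] at hdist
  obtain ⟨g1, g2⟩ := hdist
  have hd1 : ∀ a ∈ F, ∀ b ∈ F, ‖schur L ω a b - v.1 (a, b)‖ ≤ δ := by
    intro a ha b hb
    have h1 := (dist_le_pi_dist _ _ (a, b)).trans g1.le
    rw [dist_eq_norm] at h1
    dsimp only at h1
    rwa [if_pos ⟨ha, hb⟩] at h1
  have hd2 : ∀ p ∈ F ×ˢ F, ∀ q ∈ F ×ˢ F,
      ‖-(if p.1 = p.2 ∧ q.1 = q.2 then schur K ω p.1 q.1 else 0) - v.2 (p, q)‖ ≤ δ := by
    intro p hp q hq
    have h1 := (dist_le_pi_dist _ _ (p, q)).trans g2.le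
    rw [dist_eq_norm] at h1
    dsimp only at h1
    rwa [if_pos ⟨hp, hq⟩] at h1
  set η : ℝ := δ * N / κ with hη
  have hη0 : 0 ≤ η := by positivity
  let Q' : ι × ι → ι × ι → ℂ := fun p q => Q p q + if p = q then (η : ℂ) else 0
  have hQ' : PSD (F ×ˢ F) Q' := q1.add ⟨herm_diag _ η, fun u => by
    rw [qf_diag]; exact mul_nonneg hη0 (Finset.sum_nonneg fun _ _ => by positivity)⟩
  refine ⟨Q', hQ', ⟨?_, fun u => ?_⟩, ⟨?_, fun s => ?_⟩⟩
  · exact (herm_K hKF hQ'.1).sub (herm_e hsK)
  · have e1 : qf (F ×ˢ F) (fun p q => K p.1 q.1 * Q' p q -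
        if p.1 = p.2 ∧ q.1 = q.2 then schur K ω p.1 q.1 else 0) u =
        (qf (F ×ˢ F) (fun p q => v.2 (p, q) + K p.1 q.1 * Q p q) u +
        qf (F ×ˢ F) (fun p q =>
          -(if p.1 = p.2 ∧ q.1 = q.2 then schur K ω p.1 q.1 else 0) - v.2 (p, q)) u) +
        qf (F ×ˢ F) (fun p q => if p = q then ((η * (K p.1 p.1).re : ℝ) : ℂ) else 0) u := by
      rw [← qf_add, ← qf_add]
      refine qf_congr fun p hp q hq => ?_
      by_cases hpq : p = q
      · subst hpq
        simp only [Q', if_true]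
        rw [hKF.diag_eq (Finset.mem_product.mp hp).1]
        push_cast
        simp only [Complex.ofReal_re]
        ring
      · simp only [Q', hpq, if_false]
        ring
    rw [e1, qf_vdiag]
    have e2 := q3.2 u
    have e3 := qf_ge_of_small hd2 u
    have e4 : η * κ * ∑ p ∈ F ×ˢ F, ‖u p‖ ^ 2 ≤
        ∑ p ∈ F ×ˢ F, (η * (K p.1 p.1).re) * ‖u p‖ ^ 2 := by
      rw [Finset.mul_sum]
      refine Finset.sum_le_sum fun p hp => ?_
      have := hκK p.1 (Finset.mem_product.mp hp).1
      gcongr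
    have e5 : η * κ = δ * N := by rw [hη]; field_simp
    rw [e5] at e4
    linarith
  · exact (hsL.add (herm_diag F ε)).sub (herm_Psi hLF hQ'.1)
  · have e1 : qf F (fun a b => (schur L ω a b + if a = b then (ε : ℂ) else 0) -
        ∑ y ∈ F, ∑ z ∈ F, L y z * Q' (y, a) (z, b)) s =
        (qf F (fun a b => v.1 (a, b) - ∑ y ∈ F, ∑ z ∈ F, L y z * Q (y, a) (z, b)) s +
        qf F (fun a b => schur L ω a b - v.1 (a, b)) s) +
        qf F (fun a b => if a = b then ((ε - η * ∑ y ∈ F, (L y y).re : ℝ) : ℂ) else 0) s := by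
      rw [← qf_add, ← qf_add]
      refine qf_congr fun a ha b hb => ?_
      have e6 : ∑ y ∈ F, ∑ z ∈ F, L y z * Q' (y, a) (z, b) =
          (∑ y ∈ F, ∑ z ∈ F, L y z * Q (y, a) (z, b)) +
          if a = b then ((η * ∑ y ∈ F, (L y y).re : ℝ) : ℂ) else 0 := by
        have e7 : ∀ y ∈ F, ∑ z ∈ F, L y z * Q' (y, a) (z, b) =
            ∑ z ∈ F, L y z * Q (y, a) (z, b) + if a = b then ((η * (L y y).re : ℝ) : ℂ) else 0 := by
          intro y hy
          simp only [Q', mul_add, Finset.sum_add_distrib]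
          congr 1
          by_cases hab : a = b
          · subst hab
            rw [Finset.sum_eq_single y]
            · simp only [if_true]
              rw [hLF.diag_eq hy]
              push_cast
              simp only [Complex.ofReal_re]
              ring
            · intro z _ hz
              simp [Ne.symm hz]
            · intro h; exact absurd hy h
          · simp [hab]
        rw [Finset.sum_congr rfl e7, Finset.sum_add_distrib]
        congr 1
        by_cases hab : a = b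
        · simp only [hab, if_true]
          push_cast
          rw [Finset.mul_sum]
        · simp [hab]
      rw [e6]
      by_cases hab : a = b
      · simp only [hab, if_true]
        push_cast
        ring
      · simp only [hab, if_false]
        ring
    rw [e1, qf_diag]
    have e2 := q2.2 s
    have e3 := qf_ge_of_small hd1 s
    have hs0 : 0 ≤ ∑ a ∈ F, ‖s a‖ ^ 2 := Finset.sum_nonneg fun _ _ => by positivity
    have e4 : ∑ y ∈ F, (L y y).re ≤ S := Finset.sum_le_sum fun y _ => le_abs_self _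
    have e5 : δ * n + η * S ≤ ε := by
      have : δ * D = ε := by rw [hδ]; field_simp
      have h8 : η * S = δ * (N / κ * S) := by rw [hη]; ring
      rw [h8, ← this, hD]
      nlinarith
    have e6 : δ * n ≤ ε - η * ∑ y ∈ F, (L y y).re := by
      have := mul_le_mul_of_nonneg_left e4 hη0
      linarith
    have e7 := mul_le_mul_of_nonneg_right e6 hs0
    linarith

end MPa1177b
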