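import Pool.Agent.Work.MP_a1177b_an.GridCert

open scoped ComplexConjugate ComplexOrder
open Finset Filter Topology

namespace MPa1177b

lemma qf_abs_le {β : Type*} {F : Finset β} {A : β → β → ℂ} {δ : ℝ}
    (h : ∀ x ∈ F, ∀ y ∈ F, ‖A x y‖ ≤ δ) (u : β → ℂ) :
    |qf F A u| ≤ δ * (∑ x ∈ F, ‖u x‖) ^ 2 := by
  have h1 : ‖∑ x ∈ F, ∑ y ∈ F, conj (u x) * A x y * u y‖ ≤
      ∑ x ∈ F, ∑ y ∈ F, ‖u x‖ * δ * ‖u y‖ := by
    refine (norm_sum_le _ _).trans (Finset.sum_le_sum fun x hx => ?_)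
    refine (norm_sum_le _ _).trans (Finset.sum_le_sum fun y hy => ?_)
    rw [norm_mul, norm_mul, RCLike.norm_conj]
    have := h x hx y hy
    gcongr
  have h2 : ∑ x ∈ F, ∑ y ∈ F, ‖u x‖ * δ * ‖u y‖ = δ * (∑ x ∈ F, ‖u x‖) ^ 2 := by
    rw [sq, Finset.sum_mul_sum, Finset.mul_sum]
    refine Finset.sum_congr rfl fun x _ => ?_
    rw [Finset.mul_sum]
    refine Finset.sum_congr rfl fun y _ => ?_
    ring
  have h4 := Complex.abs_re_le_norm (∑ x ∈ F, ∑ y ∈ F, conj (u x) * A x y * u y)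
  rw [← h2]; exact h4.trans h1

lemma PSD.norm_le {β : Type*} {F : Finset β} {A : β → β → ℂ} (h : PSD F A) {B : ℝ}
    (hB : ∀ x ∈ F, (A x x).re ≤ B) {x y : β} (hx : x ∈ F) (hy : y ∈ F) : ‖A x y‖ ≤ B := by
  obtain ⟨c, hc⟩ := h.exists_gram
  have hB0 : 0 ≤ B := (h.diag_nonneg hx).trans (hB x hx)
  have e : ∀ z ∈ F, ‖c z‖ ^ 2 ≤ B := by
    intro z hz
    have := hB z hz
    rw [hc z hz z hz, inner_self_eq_norm_sq_to_K] at this
    have h3 : ((((‖c z‖ : ℝ) : ℂ) ^ 2).re) = ‖c z‖ ^ 2 := by norm_cast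
    rw [← h3]
    exact this
  rw [hc x hx y hy]
  calc ‖inner ℂ (c x) (c y)‖ ≤ ‖c x‖ * ‖c y‖ := norm_inner_le_norm _ _
    _ ≤ (‖c x‖ ^ 2 + ‖c y‖ ^ 2) / 2 := by nlinarith [sq_nonneg (‖c x‖ - ‖c y‖)]
    _ ≤ B := by linarith [e x hx, e y hy]

set_option maxHeartbeats 1000000 in
theorem grid_cert' {α : Type*} [MetricSpace α] {X : Set α} {k l : α → α → ℂ}
    (hXo : IsOpen X) (h : IsCPPair k l X)
    (hkc : ContinuousOn (fun p : α × α => k p.1 p.2) (X ×ˢ X))
    (hlc : ContinuousOn (fun p : α × α => l p.1 p.2) (X ×ˢ X))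
    (hdense : ∀ x ∈ X, ∀ δ : ℝ, 0 < δ → ∃ y ∈ X, dist y x < δ ∧ 0 < (l y y).re)
    {G : Type*} [Fintype G] [DecidableEq G] (x : G → α) (hinj : Function.Injective x)
    (hxX : ∀ n, x n ∈ X) (ω : α) (hωX : ω ∈ X) (hω : ∀ n, x n ≠ ω)
    (hkpos : ∀ x ∈ X, 0 < (k x x).re) (hlω : 0 < (l ω ω).re)
    {Λ : ℝ} (hxΛ : ∀ n, (l (x n) (x n)).re < Λ) (hΛ : 0 < Λ) {ε : ℝ} (hε : 0 < ε) :
    ∃ m : G → G → ℂ, PSD univ m ∧
      (∀ u : G → ℂ, qf univ (fun a b => k (x a) (x b) - k (x a) ω * k ω (x b) / k ω ω) u -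
        ε * (∑ n, ‖u n‖) ^ 2 ≤ qf univ (fun a b => k (x a) (x b) * m a b) u) ∧
      ∀ n, (m n n).re ≤ 1 - ‖l (x n) ω‖ ^ 2 / (Λ * (l ω ω).re) + ε := by
  set η : ℝ := ε / (2 + ε) with hη
  have hη0 : 0 < η := by positivity
  set η' : ℝ := (ε / 2) * (Λ * (l ω ω).re) with hη'
  have hη'0 : 0 < η' := by positivity
  have hXX : IsOpen (X ×ˢ X) := hXo.prod hXo
  have cev : ∀ n : G, Tendsto (fun y : G → α => y n) (𝓝 x) (𝓝 (x n)) := fun n =>
    (continuous_apply n).tendsto x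
  have ck : ∀ a b : G, Tendsto (fun y : G → α => k (y a) (y b)) (𝓝 x) (𝓝 (k (x a) (x b))) := by
    intro a b
    have h1 : ContinuousAt (fun p : α × α => k p.1 p.2) (x a, x b) :=
      hkc.continuousAt (hXX.mem_nhds ⟨hxX a, hxX b⟩)
    exact h1.tendsto.comp ((cev a).prodMk_nhds (cev b))
  have ck1 : ∀ a : G, Tendsto (fun y : G → α => k (y a) ω) (𝓝 x) (𝓝 (k (x a) ω)) := by
    intro a
    have h1 : ContinuousAt (fun p : α × α => k p.1 p.2) (x a, ω) :=
      hkc.continuousAt (hXX.mem_nhds ⟨hxX a, hωX⟩)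
    exact h1.tendsto.comp ((cev a).prodMk_nhds tendsto_const_nhds)
  have ck2 : ∀ a : G, Tendsto (fun y : G → α => k ω (y a)) (𝓝 x) (𝓝 (k ω (x a))) := by
    intro a
    have h1 : ContinuousAt (fun p : α × α => k p.1 p.2) (ω, x a) :=
      hkc.continuousAt (hXX.mem_nhds ⟨hωX, hxX a⟩)
    exact h1.tendsto.comp (tendsto_const_nhds.prodMk_nhds (cev a))
  have cl : ∀ a b : G, Tendsto (fun y : G → α => l (y a) (y b)) (𝓝 x) (𝓝 (l (x a) (x b))) := by
    intro a b
    have h1 : ContinuousAt (fun p : α × α => l p.1 p.2) (x a, x b) :=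
      hlc.continuousAt (hXX.mem_nhds ⟨hxX a, hxX b⟩)
    exact h1.tendsto.comp ((cev a).prodMk_nhds (cev b))
  have cl1 : ∀ a : G, Tendsto (fun y : G → α => l (y a) ω) (𝓝 x) (𝓝 (l (x a) ω)) := by
    intro a
    have h1 : ContinuousAt (fun p : α × α => l p.1 p.2) (x a, ω) :=
      hlc.continuousAt (hXX.mem_nhds ⟨hxX a, hωX⟩)
    exact h1.tendsto.comp ((cev a).prodMk_nhds tendsto_const_nhds)
  have ev : ∀ᶠ y : G → α in 𝓝 x, (∀ n, y n ∈ X) ∧ (∀ a b, a ≠ b → y a ≠ y b) ∧ (∀ n, y n ≠ ω) ∧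
      (∀ a b, ‖k (y a) (y b) - k (x a) (x b)‖ < η) ∧
      (∀ a b, ‖(k (y a) (y b) - k (y a) ω * k ω (y b) / k ω ω) -
        (k (x a) (x b) - k (x a) ω * k ω (x b) / k ω ω)‖ < η) ∧
      (∀ n, (l (y n) (y n)).re < Λ) ∧ (∀ n, ‖l (x n) ω‖ ^ 2 - η' < ‖l (y n) ω‖ ^ 2) := by
    refine Filter.Eventually.and ?_ (Filter.Eventually.and ?_ (Filter.Eventually.and ?_
      (Filter.Eventually.and ?_ (Filter.Eventually.and ?_ (Filter.Eventually.and ?_ ?_)))))
    · rw [eventually_all]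
      exact fun n => (cev n).eventually (hXo.mem_nhds (hxX n))
    · rw [eventually_all]
      intro a
      rw [eventually_all]
      intro b
      by_cases hab : a = b
      · simp [hab]
      · have hne : x a ≠ x b := fun h => hab (hinj h)
        have := ((cev a).prodMk_nhds (cev b)).eventually
          ((isClosed_diagonal (X := α)).isOpen_compl.mem_nhds (x := (x a, x b)) (by simpa using hne))
        filter_upwards [this] with y hy _
        simpa using hy
    · rw [eventually_all]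
      exact fun n => (cev n).eventually (isOpen_ne.mem_nhds (hω n))
    · rw [eventually_all]
      intro a
      rw [eventually_all]
      intro b
      have h1 := ((ck a b).sub_const (k (x a) (x b))).norm
      rw [sub_self, norm_zero] at h1
      exact h1.eventually (gt_mem_nhds hη0)
    · rw [eventually_all]
      intro a
      rw [eventually_all]
      intro b
      have h1 := ((((ck a b).sub (((ck1 a).mul (ck2 b)).div_const (k ω ω))).sub_const
        (k (x a) (x b) - k (x a) ω * k ω (x b) / k ω ω))).norm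
      rw [sub_self, norm_zero] at h1
      exact h1.eventually (gt_mem_nhds hη0)
    · rw [eventually_all]
      intro n
      exact ((Complex.continuous_re.tendsto _).comp (cl n n)).eventually (gt_mem_nhds (hxΛ n))
    · rw [eventually_all]
      intro n
      have h1 := ((cl1 n).norm.pow 2)
      exact h1.eventually (lt_mem_nhds (by linarith))
  obtain ⟨δ, hδ, hball⟩ := Metric.eventually_nhds_iff.mp ev
  choose y hyX hyd hyl using fun n => hdense (x n) (hxX n) (δ / 2) (by positivity)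
  have hdist : dist y x < δ := by
    refine lt_of_le_of_lt ((dist_pi_le_iff (by positivity)).mpr fun n => (hyd n).le) (by linarith)
  obtain ⟨y1, y2, y3, y4, y5, y6, y7⟩ := hball hdist
  have hyinj : Function.Injective y := fun a b hab => by
    by_contra hne
    exact y2 a b hne hab
  obtain ⟨ε₂, hε₂, hε₂'⟩ : ∃ ε₂ : ℝ, 0 < ε₂ ∧ ∀ n, ε₂ ≤ (ε / 2) * (l (y n) (y n)).re := by
    rcases isEmpty_or_nonempty G with hG | hG
    · exact ⟨1, one_pos, fun n => (hG.false n).elim⟩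
    · obtain ⟨n0, _, hn0⟩ := (univ : Finset G).exists_min_image
        (fun n => (ε / 2) * (l (y n) (y n)).re) univ_nonempty
      exact ⟨_, mul_pos (by positivity) (hyl n0), fun n => hn0 n (mem_univ n)⟩
  obtain ⟨m, m1, m2, m3⟩ := grid_cert h y hyinj y1 ω hωX y3 hkpos hyl hlω hε₂
  have hdiag : ∀ n, (m n n).re ≤ 1 - ‖l (x n) ω‖ ^ 2 / (Λ * (l ω ω).re) + ε := by
    intro n
    have h1 := m3 n
    have hln := hyl n
    have h2 : (m n n).re ≤ 1 - ‖l (y n) ω‖ ^ 2 / ((l (y n) (y n)).re * (l ω ω).re) + ε / 2 := by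
      have h3 : (m n n).re * (l (y n) (y n)).re ≤
          (1 - ‖l (y n) ω‖ ^ 2 / ((l (y n) (y n)).re * (l ω ω).re) + ε / 2) *
            (l (y n) (y n)).re := by
        have h4 : (1 - ‖l (y n) ω‖ ^ 2 / ((l (y n) (y n)).re * (l ω ω).re) + ε / 2) *
            (l (y n) (y n)).re = (l (y n) (y n)).re - ‖l (y n) ω‖ ^ 2 / (l ω ω).re +
              (ε / 2) * (l (y n) (y n)).re := by
          field_simp
        rw [h4]
        linarith [hε₂' n]
      exact le_of_mul_le_mul_right h3 hln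
    have h5 : (‖l (x n) ω‖ ^ 2 - η') / (Λ * (l ω ω).re) ≤
        ‖l (y n) ω‖ ^ 2 / ((l (y n) (y n)).re * (l ω ω).re) := by
      calc (‖l (x n) ω‖ ^ 2 - η') / (Λ * (l ω ω).re) ≤ ‖l (y n) ω‖ ^ 2 / (Λ * (l ω ω).re) := by
            have := (y7 n).le
            gcongr
        _ ≤ _ := by
            have := (y6 n).le
            gcongr
    have h6 : (‖l (x n) ω‖ ^ 2 - η') / (Λ * (l ω ω).re) =
        ‖l (x n) ω‖ ^ 2 / (Λ * (l ω ω).re) - ε / 2 := by
      rw [hη']
      field_simp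
    rw [h6] at h5
    linarith
  have hm1 : ∀ n, (m n n).re ≤ 1 + ε := by
    intro n
    have h1 := hdiag n
    have h2 : 0 ≤ ‖l (x n) ω‖ ^ 2 / (Λ * (l ω ω).re) := by positivity
    linarith
  refine ⟨m, m1, fun u => ?_, hdiag⟩
  set s := (∑ n, ‖u n‖) ^ 2 with hs
  have e1 : qf univ (fun a b => k (x a) (x b) * m a b) u =
      (qf univ (fun a b => k (y a) (y b) * m a b -
        (k (y a) (y b) - k (y a) ω * k ω (y b) / k ω ω)) u +
      qf univ (fun a b => k (x a) (x b) - k (x a) ω * k ω (x b) / k ω ω) u +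
      qf univ (fun a b => (k (y a) (y b) - k (y a) ω * k ω (y b) / k ω ω) -
        (k (x a) (x b) - k (x a) ω * k ω (x b) / k ω ω)) u) +
      qf univ (fun a b => (k (x a) (x b) - k (y a) (y b)) * m a b) u := by
    rw [← qf_add, ← qf_add, ← qf_add]
    refine qf_congr fun a _ b _ => ?_
    ring
  have e2 := m2.2 u
  have e3 := qf_abs_le (F := univ) (A := fun a b => (k (y a) (y b) - k (y a) ω * k ω (y b) / k ω ω) -
        (k (x a) (x b) - k (x a) ω * k ω (x b) / k ω ω)) (δ := η)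
        (fun a _ b _ => (y5 a b).le) u
  have e4 := qf_abs_le (F := univ) (A := fun a b => (k (x a) (x b) - k (y a) (y b)) * m a b)
    (δ := η * (1 + ε)) (fun a _ b _ => by
      rw [norm_mul]
      have h1 := (y4 a b).le
      rw [norm_sub_rev] at h1
      have h2 := m1.norm_le (B := 1 + ε) (fun n _ => hm1 n) (mem_univ a) (mem_univ b)
      gcongr) u
  have e5 := (abs_le.mp e3).1
  have e6 := (abs_le.mp e4).1
  have hsnn : 0 ≤ s := by positivity
  have e7 : η * s + η * (1 + ε) * s = ε * s := by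
    have : η * (2 + ε) = ε := by rw [hη]; field_simp
    calc η * s + η * (1 + ε) * s = (η * (2 + ε)) * s := by ring
      _ = ε * s := by rw [this]
  rw [← hs] at e5 e6
  rw [e1]
  linarith

end MPa1177b
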