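import Mathlib

open scoped ComplexConjugate ComplexOrder
open Finset

namespace MPa1177b

/-- the (real part of the) quadratic form of a scalar kernel -/
noncomputable def qf {β : Type*} (F : Finset β) (A : β → β → ℂ) (u : β → ℂ) : ℝ :=
  (∑ x ∈ F, ∑ y ∈ F, conj (u x) * A x y * u y).re

/-- Hermitian symmetry on `F` -/
def Herm {β : Type*} (F : Finset β) (A : β → β → ℂ) : Prop :=
  ∀ x ∈ F, ∀ y ∈ F, A y x = conj (A x y)

/-- positive semidefinite on `F` -/
def PSD {β : Type*} (F : Finset β) (A : β → β → ℂ) : Prop :=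
  Herm F A ∧ ∀ u, 0 ≤ qf F A u

/-- the vector valued quadratic form -/
noncomputable def qv {β E : Type*} [NormedAddCommGroup E] [InnerProductSpace ℂ E]
    (F : Finset β) (A : β → β → ℂ) (p : β → E) : ℝ :=
  (∑ x ∈ F, ∑ y ∈ F, A x y * inner ℂ (p x) (p y)).re

section basic

variable {β : Type*} {F : Finset β} {A B : β → β → ℂ}

lemma Herm.mono {F' : Finset β} (h : Herm F A) (hF : F' ⊆ F) : Herm F' A :=
  fun x hx y hy => h x (hF hx) y (hF hy)

lemma Herm.add (hA : Herm F A) (hB : Herm F B) : Herm F (fun x y => A x y + B x y) := by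
  intro x hx y hy
  simp [hA x hx y hy, hB x hx y hy]

lemma Herm.sub (hA : Herm F A) (hB : Herm F B) : Herm F (fun x y => A x y - B x y) := by
  intro x hx y hy
  simp [hA x hx y hy, hB x hx y hy]

lemma Herm.mul (hA : Herm F A) (hB : Herm F B) : Herm F (fun x y => A x y * B x y) := by
  intro x hx y hy
  simp [hA x hx y hy, hB x hx y hy]

lemma qf_add (u : β → ℂ) : qf F (fun x y => A x y + B x y) u = qf F A u + qf F B u := by
  unfold qf
  rw [← Complex.add_re, ← Finset.sum_add_distrib]
  congr 1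
  refine Finset.sum_congr rfl fun x _ => ?_
  rw [← Finset.sum_add_distrib]
  refine Finset.sum_congr rfl fun y _ => ?_
  ring

lemma qf_sub (u : β → ℂ) : qf F (fun x y => A x y - B x y) u = qf F A u - qf F B u := by
  unfold qf
  rw [← Complex.sub_re, ← Finset.sum_sub_distrib]
  congr 1
  refine Finset.sum_congr rfl fun x _ => ?_
  rw [← Finset.sum_sub_distrib]
  refine Finset.sum_congr rfl fun y _ => ?_
  ring

lemma qf_congr {u : β → ℂ} (h : ∀ x ∈ F, ∀ y ∈ F, A x y = B x y) : qf F A u = qf F B u := by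
  unfold qf
  congr 1
  refine Finset.sum_congr rfl fun x hx => Finset.sum_congr rfl fun y hy => ?_
  rw [h x hx y hy]

lemma qf_congr_vec {u v : β → ℂ} (h : ∀ x ∈ F, u x = v x) : qf F A u = qf F A v := by
  unfold qf
  congr 1
  refine Finset.sum_congr rfl fun x hx => Finset.sum_congr rfl fun y hy => ?_
  rw [h x hx, h y hy]

lemma PSD.congr (hA : PSD F A) (h : ∀ x ∈ F, ∀ y ∈ F, A x y = B x y) : PSD F B := by
  refine ⟨fun x hx y hy => ?_, fun u => ?_⟩
  · rw [← h x hx y hy, ← h y hy x hx]; exact hA.1 x hx y hy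
  · rw [← qf_congr (A := A) h]; exact hA.2 u

lemma PSD.add (hA : PSD F A) (hB : PSD F B) : PSD F (fun x y => A x y + B x y) :=
  ⟨hA.1.add hB.1, fun u => by rw [qf_add]; exact add_nonneg (hA.2 u) (hB.2 u)⟩

lemma PSD.mono {F' : Finset β} (h : PSD F A) (hF : F' ⊆ F) : PSD F' A := by
  classical
  refine ⟨h.1.mono hF, fun u => ?_⟩
  have := h.2 (fun x => if x ∈ F' then u x else 0)
  convert this using 1
  unfold qf
  congr 1
  rw [← Finset.sum_subset hF]
  · refine Finset.sum_congr rfl fun x hx => ?_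
    rw [← Finset.sum_subset hF]
    · refine Finset.sum_congr rfl fun y hy => ?_
      simp [hx, hy]
    · intro y _ hy
      simp [hy]
  · intro x _ hx
    simp [hx]

/-- diagonal entries are real and nonnegative -/
lemma PSD.diag_nonneg (h : PSD F A) {x : β} (hx : x ∈ F) : 0 ≤ (A x x).re := by
  have h1 := (h.mono (F' := {x}) (by simpa using hx)).2 (fun _ => 1)
  simpa [qf] using h1

lemma Herm.diag_im (h : Herm F A) {x : β} (hx : x ∈ F) : (A x x).im = 0 := by
  have := h x hx x hx
  have h2 := congrArg Complex.im this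
  simp at h2
  linarith

lemma Herm.diag_eq (h : Herm F A) {x : β} (hx : x ∈ F) : A x x = ((A x x).re : ℂ) := by
  apply Complex.ext
  · simp
  · simpa using h.diag_im hx

/-- Gram representation of a PSD kernel on a finite set -/
lemma PSD.exists_gram (h : PSD F A) :
    ∃ c : β → EuclideanSpace ℂ F, ∀ x ∈ F, ∀ y ∈ F, A x y = inner ℂ (c x) (c y) := by
  classical
  let M : Matrix F F ℂ := Matrix.of fun x y => A x y
  have hM : M.PosSemidef := by
    rw [Matrix.posSemidef_iff_dotProduct_mulVec]
    have hH : M.IsHermitian := by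
      ext x y
      simp only [Matrix.conjTranspose_apply, M, Matrix.of_apply]
      exact (h.1 y y.2 x x.2).symm
    refine ⟨hH, fun v => ?_⟩
    rw [Complex.nonneg_iff]
    refine ⟨?_, ?_⟩
    · have := h.2 (fun x => if hx : x ∈ F then v ⟨x, hx⟩ else 0)
      convert this using 1
      unfold qf
      congr 1
      rw [← Finset.sum_coe_sort F]
      simp only [dotProduct, Matrix.mulVec, M, Matrix.of_apply, Pi.star_apply]
      refine Finset.sum_congr rfl fun x _ => ?_
      rw [← Finset.sum_coe_sort F, Finset.mul_sum]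
      refine Finset.sum_congr rfl fun y _ => ?_
      simp
      ring
    · have := hH.im_star_dotProduct_mulVec_self v
      simpa using this.symm
  open scoped MatrixOrder in
  obtain ⟨N, hN⟩ := CStarAlgebra.nonneg_iff_eq_star_mul_self.mp hM.nonneg
  refine ⟨fun x => if hx : x ∈ F then WithLp.toLp 2 (fun i => N i ⟨x, hx⟩) else 0, ?_⟩
  intro x hx y hy
  have : M ⟨x, hx⟩ ⟨y, hy⟩ = A x y := rfl
  rw [← this, hN]
  simp [hx, hy, Matrix.mul_apply, PiLp.inner_apply, Matrix.star_eq_conjTranspose, mul_comm]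

end basic

end MPa1177b
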