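import Pool.Agent.Work.MP_a1177b_an.Vec

open scoped ComplexConjugate ComplexOrder
open Finset

namespace MPa1177b

variable {β E : Type*} [NormedAddCommGroup E] [InnerProductSpace ℂ E]

lemma psd_gram (F : Finset β) (c : β → E) : PSD F (fun p q => inner ℂ (c p) (c q)) := by
  refine ⟨fun x _ y _ => (inner_conj_symm _ _).symm, fun u => ?_⟩
  have : qf F (fun p q => inner ℂ (c p) (c q)) u =
      (inner ℂ (∑ x ∈ F, u x • c x) (∑ x ∈ F, u x • c x) : ℂ).re := by
    unfold qf
    congr 1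
    simp_rw [sum_inner, inner_sum, inner_smul_left, inner_smul_right]
    refine Finset.sum_congr rfl fun x hx => Finset.sum_congr rfl fun y hy => ?_
    ring
  rw [this]
  exact inner_self_nonneg (𝕜 := ℂ)

lemma qf_diag [DecidableEq β] (F : Finset β) (δ : ℝ) (u : β → ℂ) :
    qf F (fun a b => if a = b then (δ : ℂ) else 0) u = δ * ∑ a ∈ F, ‖u a‖ ^ 2 := by
  unfold qf
  have : ∑ x ∈ F, ∑ y ∈ F, conj (u x) * (if x = y then (δ : ℂ) else 0) * u y =
      ((δ * ∑ a ∈ F, ‖u a‖ ^ 2 : ℝ) : ℂ) := by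
    push_cast
    rw [Finset.mul_sum]
    refine Finset.sum_congr rfl fun x hx => ?_
    rw [Finset.sum_eq_single x]
    · simp only [if_true]
      have := Complex.conj_mul' (u x)
      rw [← this]; ring
    · intro b _ hb
      simp [Ne.symm hb]
    · intro h; exact absurd hx h
  rw [this, Complex.ofReal_re]

lemma qv_diag [DecidableEq β] (F : Finset β) (δ : ℝ) (p : β → E) :
    qv F (fun a b => if a = b then (δ : ℂ) else 0) p = δ * ∑ a ∈ F, ‖p a‖ ^ 2 := by
  unfold qv
  have : ∑ x ∈ F, ∑ y ∈ F, (if x = y then (δ : ℂ) else 0) * inner ℂ (p x) (p y) =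
      ((δ * ∑ a ∈ F, ‖p a‖ ^ 2 : ℝ) : ℂ) := by
    push_cast
    rw [Finset.mul_sum]
    refine Finset.sum_congr rfl fun x hx => ?_
    rw [Finset.sum_eq_single x]
    · simp only [if_true]
      rw [inner_self_eq_norm_sq_to_K]
      rfl
    · intro b _ hb
      simp [Ne.symm hb]
    · intro h; exact absurd hx h
  rw [this, Complex.ofReal_re]

lemma norm_sq_sum_smul_le {γ : Type*} (F : Finset γ) (s : γ → ℂ) (c : γ → E) :
    ‖∑ a ∈ F, s a • c a‖ ^ 2 ≤ (∑ a ∈ F, ‖s a‖ ^ 2) * ∑ a ∈ F, ‖c a‖ ^ 2 := by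
  have h1 : ‖∑ a ∈ F, s a • c a‖ ≤ ∑ a ∈ F, ‖s a‖ * ‖c a‖ := by
    refine (norm_sum_le _ _).trans (le_of_eq ?_)
    refine Finset.sum_congr rfl fun a _ => norm_smul _ _
  calc ‖∑ a ∈ F, s a • c a‖ ^ 2 ≤ (∑ a ∈ F, ‖s a‖ * ‖c a‖) ^ 2 := by
        gcongr
    _ ≤ _ := Finset.sum_mul_sq_le_sq_mul_sq _ _ _

variable {ι : Type*} [DecidableEq ι]

set_option maxHeartbeats 1000000 in
/-- the one-site reduction step, with the Gram vectors given -/
theorem site_step_aux [FiniteDimensional ℂ E] (F : Finset ι) (K L kω lω : ι → ι → ℂ)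
    (hK : Herm F K) (hL : Herm F L) (hk : Herm F kω) (hl : Herm F lω)
    (Q : ι × ι → ι × ι → ℂ) (c : ι × ι → E)
    (hc : ∀ p ∈ F ×ˢ F, ∀ q ∈ F ×ˢ F, Q p q = inner ℂ (c p) (c q))
    (h1 : PSD (F ×ˢ F) (fun p q => K p.1 q.1 * Q p q -
      if p.1 = p.2 ∧ q.1 = q.2 then kω p.1 q.1 else 0))
    (h2 : PSD F (fun a b => lω a b - ∑ y ∈ F, ∑ z ∈ F, L y z * Q (y, a) (z, b)))
    {x : ι} (hx : x ∈ F) (hKx : 0 < (K x x).re) (hLx : 0 < (L x x).re)
    {m : ι → ι → ℂ} (hm : PSD (F.erase x) m)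
    (hmK : PSD (F.erase x) (fun y z => K y z * m y z - schur K x y z)) {δ : ℝ} (hδ : 0 ≤ δ)
    (hmL : PSD (F.erase x) (fun y z => (schur L x y z + if y = z then (δ : ℂ) else 0) -
      L y z * m y z)) :
    ∃ Q' : ι × ι → ι × ι → ℂ, PSD (F ×ˢ F) Q' ∧
      PSD (F ×ˢ F) (fun p q => K p.1 q.1 * Q' p q -
        if p.1 = p.2 ∧ q.1 = q.2 then kω p.1 q.1 else 0) ∧
      PSD F (fun a b => (lω a b + if a = b then
          ((δ * ∑ p ∈ F ×ˢ F, (Q p p).re : ℝ) : ℂ) else 0) -
        ∑ y ∈ F, ∑ z ∈ F, L y z * Q' (y, a) (z, b)) ∧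
      (∀ a ∈ F, a ≠ x → Q' (x, a) (x, a) = 0) ∧
      (∀ p ∈ F ×ˢ F, Q p p = 0 → Q' p p = 0) := by
  let M : Submodule ℂ E := Submodule.span ℂ ((fun a => c (x, a)) '' ((F.erase x : Finset ι) : Set ι))
  let Θ : E →L[ℂ] E := M.starProjection
  let m' : ι → ι → ℂ := fun y z => if y = x ∨ z = x then 0 else m y z
  have hKx0 : K x x ≠ 0 := fun h => by rw [h] at hKx; simp at hKx
  have hLx0 : L x x ≠ 0 := fun h => by rw [h] at hLx; simp at hLx
  have hm'e : ∀ y ∈ F.erase x, ∀ z ∈ F.erase x, m' y z = m y z := by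
    intro y hy z hz
    simp [m', (Finset.mem_erase.mp hy).1, (Finset.mem_erase.mp hz).1]
  have hm'H : Herm F m' := by
    intro y hy z hz
    by_cases hyx : y = x
    · simp [m', hyx]
    by_cases hzx : z = x
    · simp [m', hzx]
    have := hm.1 y (Finset.mem_erase.mpr ⟨hyx, hy⟩) z (Finset.mem_erase.mpr ⟨hzx, hz⟩)
    simp [m', hyx, hzx, this]
  have hΘM : ∀ v ∈ M, Θ v = v := fun v hv => Submodule.starProjection_eq_self_iff.mpr hv
  -- reduction of forms with m'
  have hred : ∀ (A : ι → ι → ℂ) (p : ι → E), qv F (fun y z => A y z * m' y z) p =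
      qv (F.erase x) (fun y z => A y z * m y z) p := by
    intro A p
    rw [qv_erase hx (by intro z; simp [m']) (by intro z; simp [m'])]
    exact qv_congr_ker fun y hy z hz => by rw [hm'e y hy z hz]
  let Q' : ι × ι → ι × ι → ℂ := fun p q =>
    inner ℂ (c p - Θ (c p)) (c q - Θ (c q)) + m' p.1 q.1 * inner ℂ (Θ (c p)) (Θ (c q))
  have hQ'H : Herm (F ×ˢ F) Q' := by
    intro p hp q hq
    simp only [Q']
    rw [map_add, map_mul, inner_conj_symm, inner_conj_symm,
      hm'H p.1 (Finset.mem_product.mp hp).1 q.1 (Finset.mem_product.mp hq).1]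
  -- the form of A ∘ Q'
  have hform : ∀ (A : ι → ι → ℂ) (u : ι × ι → ℂ),
      qf (F ×ˢ F) (fun p q => A p.1 q.1 * Q' p q) u =
      qv F A (fun y => (∑ a ∈ F, u (y, a) • c (y, a)) - Θ (∑ a ∈ F, u (y, a) • c (y, a))) +
      qv (F.erase x) (fun y z => A y z * m y z) (fun y => Θ (∑ a ∈ F, u (y, a) • c (y, a))) := by
    intro A u
    have e1 : qf (F ×ˢ F) (fun p q => A p.1 q.1 * Q' p q) u =
        qf (F ×ˢ F) (fun p q => A p.1 q.1 * inner ℂ (c p - Θ (c p)) (c q - Θ (c q))) u +
        qf (F ×ˢ F) (fun p q => (A p.1 q.1 * m' p.1 q.1) * inner ℂ (Θ (c p)) (Θ (c q))) u := by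
      rw [← qf_add]
      refine qf_congr fun p _ q _ => ?_
      simp only [Q']
      ring
    rw [e1, qf_gram1 A (fun p => c p - Θ (c p)) u,
      qf_gram1 (fun y z => A y z * m' y z) (fun p => Θ (c p)) u, hred A]
    congr 1
    · refine qv_congr fun y _ => ?_
      simp only [smul_sub, Finset.sum_sub_distrib, map_sum, map_smul]
    · refine qv_congr fun y _ => ?_
      simp only [map_sum, map_smul]
  refine ⟨Q', ⟨hQ'H, fun u => ?_⟩, ⟨?_, fun u => ?_⟩, ⟨?_, fun s => ?_⟩, ?_, ?_⟩
  · -- Q' PSD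
    have := hform (fun _ _ => 1) u
    simp only [one_mul] at this
    rw [this]
    have p1 : PSD F (fun _ _ => (1 : ℂ)) := by
      refine ⟨fun _ _ _ _ => by simp, fun u => ?_⟩
      have := (psd_gram F (fun _ : ι => (1 : ℂ))).2 u
      simpa using this
    exact add_nonneg (qv_nonneg p1 _) (qv_nonneg hm _)
  · -- Hermitian
    intro p hp q hq
    have hp' := Finset.mem_product.mp hp
    have hq' := Finset.mem_product.mp hq
    beta_reduce
    rw [map_sub, map_mul, hQ'H p hp q hq, hK p.1 hp'.1 q.1 hq'.1]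
    congr 1
    by_cases hh : p.1 = p.2 ∧ q.1 = q.2
    · rw [if_pos hh, if_pos hh.symm, hk p.1 hp'.1 q.1 hq'.1]
    · rw [if_neg hh, if_neg (fun h => hh h.symm), map_zero]
  · -- (ii')
    rw [qf_sub, hform K u]
    set p : ι → E := fun y => ∑ a ∈ F, u (y, a) • c (y, a) with hp
    -- choose the correction vector
    let v : E := - Θ (p x) - (1 / K x x) • ∑ z ∈ F.erase x, K x z • Θ (p z)
    have hvM : v ∈ M := by
      refine M.sub_mem (M.neg_mem (Submodule.starProjection_apply_mem M _))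
        (M.smul_mem _ (M.sum_mem fun z _ => M.smul_mem _ (Submodule.starProjection_apply_mem M _)))
    have hv' : v ∈ Submodule.span ℂ ((fun a => c (x, a)) '' ((F.erase x : Finset ι) : Set ι)) := hvM
    rw [Submodule.mem_span_image_finset_iff_exists_fun] at hv'
    obtain ⟨w0, hw0⟩ := hv'
    obtain ⟨w, hw⟩ : ∃ w : ι → ℂ, ∑ a ∈ F.erase x, w a • c (x, a) = v := by
      refine ⟨fun a => if ha : a ∈ F.erase x then w0 ⟨a, ha⟩ else 0, ?_⟩
      rw [← hw0, ← Finset.sum_coe_sort (F.erase x)]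
      refine Finset.sum_congr rfl fun a _ => ?_
      simp
    let ut : ι × ι → ℂ := fun q => u q + if q.1 = x ∧ q.2 ≠ x then w q.2 else 0
    have hpt : ∀ y ∈ F, ∑ a ∈ F, ut (y, a) • c (y, a) = p y + if y = x then v else 0 := by
      intro y hy
      simp only [ut, add_smul, Finset.sum_add_distrib, hp]
      congr 1
      by_cases hyx : y = x
      · subst hyx
        simp only [true_and, if_true]
        rw [← hw, ← Finset.add_sum_erase F _ hy]
        simp only [ne_eq, not_true_eq_false, if_false, zero_smul, zero_add]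
        refine Finset.sum_congr rfl fun a ha => ?_
        simp [(Finset.mem_erase.mp ha).1]
      · simp [hyx]
    have hR : qf (F ×ˢ F) (fun p q => if p.1 = p.2 ∧ q.1 = q.2 then kω p.1 q.1 else 0) ut =
        qf (F ×ˢ F) (fun p q => if p.1 = p.2 ∧ q.1 = q.2 then kω p.1 q.1 else 0) u := by
      unfold qf
      congr 1
      refine Finset.sum_congr rfl fun p' hp' => Finset.sum_congr rfl fun q' hq' => ?_
      by_cases hh : p'.1 = p'.2 ∧ q'.1 = q'.2
      · have e1 : ut p' = u p' := by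
          simp only [ut]
          rw [if_neg, add_zero]
          rintro ⟨a, b⟩
          exact b (hh.1 ▸ a)
        have e2 : ut q' = u q' := by
          simp only [ut]
          rw [if_neg, add_zero]
          rintro ⟨a, b⟩
          exact b (hh.2 ▸ a)
        rw [e1, e2]
      · simp [hh]
    have hQc : ∀ u : ι × ι → ℂ, qf (F ×ˢ F) (fun p q => K p.1 q.1 * Q p q) u =
        qv F K (fun y => ∑ a ∈ F, u (y, a) • c (y, a)) := by
      intro u
      rw [← qf_gram1 K c u]
      exact qf_congr fun p hp q hq => by rw [hc p hp q hq]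
    have hmain := h1.2 ut
    rw [qf_sub, hQc ut, hR, qv_congr hpt, qv_split K M] at hmain
    have e3 : qv F K (fun y => (p y + if y = x then v else 0) -
        M.starProjection (p y + if y = x then v else 0)) = qv F K (fun y => p y - Θ (p y)) := by
      refine qv_congr fun y _ => ?_
      by_cases hyx : y = x
      · simp only [hyx, if_true, map_add]
        have := hΘM v hvM
        change Θ v = v at this
        change p x + v - (Θ (p x) + Θ v) = _
        rw [this]; abel
      · simp [hyx, Θ]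
    have e4 : qv F K (fun y => M.starProjection (p y + if y = x then v else 0)) =
        qv (F.erase x) (schur K x) (fun y => Θ (p y)) := by
      rw [qv_schur hx hK]
      have z1 : ∑ z ∈ F, K x z • M.starProjection (p z + if z = x then v else 0) = 0 := by
        rw [← Finset.add_sum_erase F _ hx]
        have : ∑ z ∈ F.erase x, K x z • M.starProjection (p z + if z = x then v else 0) =
            ∑ z ∈ F.erase x, K x z • Θ (p z) := by
          refine Finset.sum_congr rfl fun z hz => ?_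
          simp [(Finset.mem_erase.mp hz).1, Θ]
        rw [this]
        simp only [if_true, map_add]
        have h4 := hΘM v hvM
        change M.starProjection v = v at h4
        rw [h4]
        change K x x • (Θ (p x) + v) + _ = _
        simp only [v]
        rw [smul_add, smul_sub, smul_smul, mul_one_div_cancel hKx0, one_smul, smul_neg]
        abel
      rw [z1, norm_zero]
      rw [qv_erase hx (schur_left K x hKx0) (schur_right K x hKx0)]
      have : qv (F.erase x) (schur K x)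
          (fun y => M.starProjection (p y + if y = x then v else 0)) =
          qv (F.erase x) (schur K x) (fun y => Θ (p y)) := by
        refine qv_congr fun y hy => ?_
        simp [(Finset.mem_erase.mp hy).1, Θ]
      rw [this]
      simp
    rw [e3, e4] at hmain
    have h5 := qv_nonneg hmK (fun y => Θ (p y))
    rw [qv_sub] at h5
    linarith
  · -- Hermitian
    intro a ha b hb
    beta_reduce
    rw [map_sub, map_add, hl a ha b hb]
    congr 1
    · congr 1
      by_cases hab : a = b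
      · subst hab; simp
      · simp [hab, Ne.symm hab]
    · rw [map_sum, Finset.sum_comm]
      refine Finset.sum_congr rfl fun y hy => ?_
      rw [map_sum]
      refine Finset.sum_congr rfl fun z hz => ?_
      rw [map_mul, ← hL y hy z hz]
      congr 1
      exact hQ'H (y, a) (Finset.mem_product.mpr ⟨hy, ha⟩) (z, b) (Finset.mem_product.mpr ⟨hz, hb⟩)
  · -- (iii')
    rw [qf_sub, qf_add, qf_diag]
    set q : ι → E := fun y => ∑ a ∈ F, s a • c (y, a) with hq
    have hΨ : qf F (fun a b => ∑ y ∈ F, ∑ z ∈ F, L y z * Q (y, a) (z, b)) s = qv F L q := by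
      rw [hq, ← qf_gram2 L c s]
      refine qf_congr fun a ha b hb => ?_
      refine Finset.sum_congr rfl fun y hy => Finset.sum_congr rfl fun z hz => ?_
      rw [hc (y, a) (Finset.mem_product.mpr ⟨hy, ha⟩) (z, b) (Finset.mem_product.mpr ⟨hz, hb⟩)]
    have hΨ' : qf F (fun a b => ∑ y ∈ F, ∑ z ∈ F, L y z * Q' (y, a) (z, b)) s =
        qv F L (fun y => q y - Θ (q y)) +
        qv (F.erase x) (fun y z => L y z * m y z) (fun y => Θ (q y)) := by
      have e1 : qf F (fun a b => ∑ y ∈ F, ∑ z ∈ F, L y z * Q' (y, a) (z, b)) s =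
          qf F (fun a b => ∑ y ∈ F, ∑ z ∈ F, L y z *
            inner ℂ (c (y, a) - Θ (c (y, a))) (c (z, b) - Θ (c (z, b)))) s +
          qf F (fun a b => ∑ y ∈ F, ∑ z ∈ F, (L y z * m' y z) *
            inner ℂ (Θ (c (y, a))) (Θ (c (z, b)))) s := by
        rw [← qf_add]
        refine qf_congr fun a _ b _ => ?_
        rw [← Finset.sum_add_distrib]
        refine Finset.sum_congr rfl fun y _ => ?_
        rw [← Finset.sum_add_distrib]
        refine Finset.sum_congr rfl fun z _ => ?_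
        simp only [Q']
        ring
      rw [e1, qf_gram2 L (fun p => c p - Θ (c p)) s,
        qf_gram2 (fun y z => L y z * m' y z) (fun p => Θ (c p)) s, hred L]
      congr 1
      · refine qv_congr fun y _ => ?_
        simp only [hq, smul_sub, Finset.sum_sub_distrib, map_sum, map_smul]
      · refine qv_congr fun y _ => ?_
        simp only [hq, map_sum, map_smul]
    rw [hΨ']
    have g1 := h2.2 s
    rw [qf_sub, hΨ, qv_split L M] at g1
    have g2 := qv_nonneg hmL (fun y => Θ (q y))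
    rw [qv_sub, qv_add, qv_diag] at g2
    have g3 := qv_schur hx hL (fun y => Θ (q y))
    rw [qv_erase hx (schur_left L x hLx0) (schur_right L x hLx0)] at g3
    have g4 : 0 ≤ (1 / (L x x).re) * ‖∑ z ∈ F, L x z • Θ (q z)‖ ^ 2 := by positivity
    have g5 : ∑ a ∈ F.erase x, ‖Θ (q a)‖ ^ 2 ≤
        (∑ p ∈ F ×ˢ F, (Q p p).re) * ∑ a ∈ F, ‖s a‖ ^ 2 := by
      calc ∑ a ∈ F.erase x, ‖Θ (q a)‖ ^ 2 ≤ ∑ a ∈ F.erase x, ‖q a‖ ^ 2 := by
            refine Finset.sum_le_sum fun a _ => ?_
            have : ‖Θ (q a)‖ ≤ ‖q a‖ := Submodule.norm_starProjection_apply_le M (q a)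
            gcongr
        _ ≤ ∑ a ∈ F, ‖q a‖ ^ 2 := by
            refine Finset.sum_le_sum_of_subset_of_nonneg (Finset.erase_subset _ _) ?_
            intro i _ _; positivity
        _ ≤ ∑ y ∈ F, (∑ a ∈ F, ‖s a‖ ^ 2) * ∑ a ∈ F, ‖c (y, a)‖ ^ 2 := by
            refine Finset.sum_le_sum fun y _ => ?_
            exact norm_sq_sum_smul_le F s (fun a => c (y, a))
        _ = _ := by
            rw [← Finset.mul_sum, ← Finset.sum_product', mul_comm]
            congr 1
            refine Finset.sum_congr rfl fun p hp => ?_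
            rw [hc p hp p hp, inner_self_eq_norm_sq_to_K]
            norm_cast
    have g6 : δ * ∑ a ∈ F.erase x, ‖Θ (q a)‖ ^ 2 ≤
        (δ * ∑ p ∈ F ×ˢ F, (Q p p).re) * ∑ a ∈ F, ‖s a‖ ^ 2 := by
      rw [mul_assoc]; exact mul_le_mul_of_nonneg_left g5 hδ
    change 0 ≤ qf F lω s - (qv F L (fun y => Θ (q y)) + qv F L (fun y => q y - Θ (q y))) at g1
    linarith
  · -- kills the entries (x,a)
    intro a ha hax
    have h0 : c (x, a) ∈ M := Submodule.subset_span ⟨a, by simp [ha, hax], rfl⟩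
    simp only [Q', hΘM _ h0, sub_self, inner_zero_left, zero_add]
    simp [m']
  · intro p hp h0
    rw [hc p hp p hp] at h0
    have : c p = 0 := inner_self_eq_zero.mp h0
    simp [Q', this]

/-- the one-site reduction step -/
theorem site_step (F : Finset ι) (K L kω lω : ι → ι → ℂ)
    (hK : Herm F K) (hL : Herm F L) (hk : Herm F kω) (hl : Herm F lω)
    (Q : ι × ι → ι × ι → ℂ) (hQ : PSD (F ×ˢ F) Q)
    (h1 : PSD (F ×ˢ F) (fun p q => K p.1 q.1 * Q p q -
      if p.1 = p.2 ∧ q.1 = q.2 then kω p.1 q.1 else 0))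
    (h2 : PSD F (fun a b => lω a b - ∑ y ∈ F, ∑ z ∈ F, L y z * Q (y, a) (z, b)))
    {x : ι} (hx : x ∈ F) (hKx : 0 < (K x x).re) (hLx : 0 < (L x x).re)
    {m : ι → ι → ℂ} (hm : PSD (F.erase x) m)
    (hmK : PSD (F.erase x) (fun y z => K y z * m y z - schur K x y z)) {δ : ℝ} (hδ : 0 ≤ δ)
    (hmL : PSD (F.erase x) (fun y z => (schur L x y z + if y = z then (δ : ℂ) else 0) -
      L y z * m y z)) :
    ∃ Q' : ι × ι → ι × ι → ℂ, PSD (F ×ˢ F) Q' ∧
      PSD (F ×ˢ F) (fun p q => K p.1 q.1 * Q' p q -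
        if p.1 = p.2 ∧ q.1 = q.2 then kω p.1 q.1 else 0) ∧
      PSD F (fun a b => (lω a b + if a = b then
          ((δ * ∑ p ∈ F ×ˢ F, (Q p p).re : ℝ) : ℂ) else 0) -
        ∑ y ∈ F, ∑ z ∈ F, L y z * Q' (y, a) (z, b)) ∧
      (∀ a ∈ F, a ≠ x → Q' (x, a) (x, a) = 0) ∧
      (∀ p ∈ F ×ˢ F, Q p p = 0 → Q' p p = 0) := by
  obtain ⟨c, hc⟩ := hQ.exists_gram
  exact site_step_aux F K L kω lω hK hL hk hl Q c hc h1 h2 hx hKx hLx hm hmK hδ hmL

end MPa1177b
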