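import Pool.Agent.Work.MP_a1177b_an.Quad

open scoped ComplexConjugate ComplexOrder
open Finset

namespace MPa1177b

variable {β E : Type*} [NormedAddCommGroup E] [InnerProductSpace ℂ E]

/-- Schur complement kernel `K(y,z) - K(y,ω) K(ω,z) / K(ω,ω)` -/
noncomputable def schur (K : β → β → ℂ) (ω : β) : β → β → ℂ :=
  fun y z => K y z - K y ω * K ω z / K ω ω

lemma qv_congr {F : Finset β} {A : β → β → ℂ} {p q : β → E} (h : ∀ x ∈ F, p x = q x) :
    qv F A p = qv F A q := by
  unfold qv
  congr 1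
  refine Finset.sum_congr rfl fun x hx => Finset.sum_congr rfl fun y hy => ?_
  rw [h x hx, h y hy]

lemma qv_congr_ker {F : Finset β} {A B : β → β → ℂ} {p : β → E}
    (h : ∀ x ∈ F, ∀ y ∈ F, A x y = B x y) : qv F A p = qv F B p := by
  unfold qv
  congr 1
  refine Finset.sum_congr rfl fun x hx => Finset.sum_congr rfl fun y hy => ?_
  rw [h x hx y hy]

lemma qv_add {F : Finset β} {A B : β → β → ℂ} (p : β → E) :
    qv F (fun x y => A x y + B x y) p = qv F A p + qv F B p := by
  unfold qv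
  rw [← Complex.add_re, ← Finset.sum_add_distrib]
  congr 1
  refine Finset.sum_congr rfl fun x _ => ?_
  rw [← Finset.sum_add_distrib]
  refine Finset.sum_congr rfl fun y _ => ?_
  ring

lemma qv_sub {F : Finset β} {A B : β → β → ℂ} (p : β → E) :
    qv F (fun x y => A x y - B x y) p = qv F A p - qv F B p := by
  unfold qv
  rw [← Complex.sub_re, ← Finset.sum_sub_distrib]
  congr 1
  refine Finset.sum_congr rfl fun x _ => ?_
  rw [← Finset.sum_sub_distrib]
  refine Finset.sum_congr rfl fun y _ => ?_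
  ring

lemma qv_nonneg {F : Finset β} {A : β → β → ℂ} (h : PSD F A) (p : β → E) : 0 ≤ qv F A p := by
  obtain ⟨c, hc⟩ := h.exists_gram
  have key : ∑ x ∈ F, ∑ y ∈ F, A x y * inner ℂ (p x) (p y) =
      ∑ i : F, inner ℂ (∑ x ∈ F, c x i • p x) (∑ x ∈ F, c x i • p x) := by
    have h1 : ∀ i : F, inner ℂ (∑ x ∈ F, c x i • p x) (∑ x ∈ F, c x i • p x) =
        ∑ x ∈ F, ∑ y ∈ F, (conj (c x i) * c y i) * inner ℂ (p x) (p y) := by
      intro i
      simp_rw [sum_inner, inner_sum, inner_smul_left, inner_smul_right]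
      refine Finset.sum_congr rfl fun x hx => Finset.sum_congr rfl fun y hy => ?_
      ring
    have h2 : ∑ i : F, ∑ x ∈ F, ∑ y ∈ F, (conj (c x i) * c y i) * inner ℂ (p x) (p y) =
        ∑ x ∈ F, ∑ y ∈ F, ∑ i : F, (conj (c x i) * c y i) * inner ℂ (p x) (p y) := by
      rw [Finset.sum_comm]
      refine Finset.sum_congr rfl fun x _ => ?_
      rw [Finset.sum_comm]
    rw [Finset.sum_congr rfl fun i _ => h1 i, h2]
    refine Finset.sum_congr rfl fun x hx => Finset.sum_congr rfl fun y hy => ?_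
    rw [hc x hx y hy, PiLp.inner_apply, Finset.sum_mul]
    refine Finset.sum_congr rfl fun i _ => ?_
    simp [mul_comm]
  unfold qv
  rw [key, Complex.re_sum]
  refine Finset.sum_nonneg fun i _ => ?_
  exact inner_self_nonneg (𝕜 := ℂ)

lemma schur_left (K : β → β → ℂ) (ω : β) (h : K ω ω ≠ 0) (z : β) : schur K ω ω z = 0 := by
  unfold schur
  field_simp
  ring

lemma schur_right (K : β → β → ℂ) (ω : β) (h : K ω ω ≠ 0) (z : β) : schur K ω z ω = 0 := by
  unfold schur
  field_simp
  ring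

lemma schur_herm {F : Finset β} {K : β → β → ℂ} {ω : β} (hω : ω ∈ F) (hK : Herm F K) :
    Herm F (schur K ω) := by
  intro x hx y hy
  unfold schur
  rw [hK x hx y hy, hK ω hω x hx, hK y hy ω hω]
  have h3 := hK ω hω ω hω
  simp only [map_sub, map_div₀, map_mul, Complex.conj_conj]
  rw [← h3]
  ring

/-- the Schur complement identity -/
lemma qv_schur {F : Finset β} {K : β → β → ℂ} {ω : β} (hω : ω ∈ F) (hK : Herm F K)
    (p : β → E) :
    qv F K p = qv F (schur K ω) p + (1 / (K ω ω).re) * ‖∑ z ∈ F, K ω z • p z‖ ^ 2 := by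
  have hd := hK.diag_eq hω
  have key : ∑ x ∈ F, ∑ y ∈ F, (K x ω * K ω y / K ω ω) * inner ℂ (p x) (p y) =
      (1 / K ω ω) * inner ℂ (∑ z ∈ F, K ω z • p z) (∑ z ∈ F, K ω z • p z) := by
    simp_rw [sum_inner, inner_sum, inner_smul_left, inner_smul_right]
    rw [Finset.mul_sum]
    refine Finset.sum_congr rfl fun x hx => ?_
    rw [Finset.mul_sum]
    refine Finset.sum_congr rfl fun y hy => ?_
    rw [hK ω hω x hx]
    ring
  have h2 : qv F (fun x y => K x ω * K ω y / K ω ω) p =
      (1 / (K ω ω).re) * ‖∑ z ∈ F, K ω z • p z‖ ^ 2 := by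
    unfold qv
    rw [key, inner_self_eq_norm_sq_to_K, hd]
    have : (1 / (((K ω ω).re : ℝ) : ℂ) * ((‖∑ z ∈ F, K ω z • p z‖ : ℝ) : ℂ) ^ 2) =
       (((1 / (K ω ω).re) * ‖∑ z ∈ F, K ω z • p z‖ ^ 2 : ℝ) : ℂ) := by push_cast; ring
    have h3 := congrArg Complex.re this
    rw [Complex.ofReal_re] at h3
    exact h3
  rw [← h2, ← qv_add]
  refine qv_congr_ker fun x hx y hy => ?_
  unfold schur
  ring

lemma qv_schur_insert [DecidableEq β] {F : Finset β} {K : β → β → ℂ} {ω : β} (hω : ω ∉ F)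
    (h : K ω ω ≠ 0) (p : β → E) :
    qv (insert ω F) (schur K ω) p = qv F (schur K ω) p := by
  unfold qv
  rw [Finset.sum_insert hω, Finset.sum_insert hω]
  simp only [schur_left K ω h, zero_mul, Finset.sum_const_zero, add_zero, zero_add]
  congr 1
  refine Finset.sum_congr rfl fun x hx => ?_
  rw [Finset.sum_insert hω, schur_right K ω h]
  simp

lemma qv_erase [DecidableEq β] {F : Finset β} {K : β → β → ℂ} {ω : β} (hω : ω ∈ F)
    (h1 : ∀ z, K ω z = 0) (h2 : ∀ z, K z ω = 0) (p : β → E) :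
    qv F K p = qv (F.erase ω) K p := by
  unfold qv
  rw [← Finset.insert_erase hω, Finset.sum_insert (Finset.notMem_erase ω F),
    Finset.erase_insert (Finset.notMem_erase ω F)]
  simp only [h1, zero_mul, Finset.sum_const_zero, zero_add]
  congr 1
  refine Finset.sum_congr rfl fun x hx => ?_
  rw [Finset.sum_insert (Finset.notMem_erase ω F), h2]
  simp

/-- Gram computation 1 -/
lemma qf_gram1 {γ : Type*} {F : Finset β} {F' : Finset γ} (A : β → β → ℂ) (c : β × γ → E)
    (u : β × γ → ℂ) :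
    qf (F ×ˢ F') (fun p q => A p.1 q.1 * inner ℂ (c p) (c q)) u =
      qv F A (fun y => ∑ a ∈ F', u (y, a) • c (y, a)) := by
  unfold qf qv
  congr 1
  simp only [Finset.sum_product]
  simp_rw [sum_inner, inner_sum, inner_smul_left, inner_smul_right, Finset.mul_sum]
  refine Finset.sum_congr rfl fun x hx => ?_
  rw [Finset.sum_comm]
  refine Finset.sum_congr rfl fun y hy => ?_
  refine Finset.sum_congr rfl fun a ha => ?_
  refine Finset.sum_congr rfl fun b hb => ?_
  ring

/-- Gram computation 2 -/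
lemma qf_gram2 {γ : Type*} {F : Finset β} {F' : Finset γ} (A : β → β → ℂ) (c : β × γ → E)
    (s : γ → ℂ) :
    qf F' (fun a b => ∑ y ∈ F, ∑ z ∈ F, A y z * inner ℂ (c (y, a)) (c (z, b))) s =
      qv F A (fun y => ∑ a ∈ F', s a • c (y, a)) := by
  unfold qf qv
  congr 1
  simp_rw [sum_inner, inner_sum, inner_smul_left, inner_smul_right, Finset.mul_sum,
    Finset.sum_mul]
  have h1 : ∀ f : γ → γ → β → β → ℂ,
      ∑ x ∈ F', ∑ x_1 ∈ F', ∑ i ∈ F, ∑ i_1 ∈ F, f x x_1 i i_1 =
      ∑ i ∈ F, ∑ i_1 ∈ F, ∑ x ∈ F', ∑ x_1 ∈ F', f x x_1 i i_1 := by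
    intro f
    calc _ = ∑ x ∈ F', ∑ i ∈ F, ∑ x_1 ∈ F', ∑ i_1 ∈ F, f x x_1 i i_1 := by
          refine Finset.sum_congr rfl fun x _ => Finset.sum_comm
      _ = ∑ i ∈ F, ∑ x ∈ F', ∑ x_1 ∈ F', ∑ i_1 ∈ F, f x x_1 i i_1 := Finset.sum_comm
      _ = ∑ i ∈ F, ∑ x ∈ F', ∑ i_1 ∈ F, ∑ x_1 ∈ F', f x x_1 i i_1 := by
          refine Finset.sum_congr rfl fun i _ => Finset.sum_congr rfl fun x _ => Finset.sum_comm
      _ = _ := by
          refine Finset.sum_congr rfl fun i _ => Finset.sum_comm
  rw [h1]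
  refine Finset.sum_congr rfl fun x hx => ?_
  refine Finset.sum_congr rfl fun y hy => ?_
  refine Finset.sum_congr rfl fun a ha => ?_
  refine Finset.sum_congr rfl fun b hb => ?_
  ring

/-- orthogonal splitting of a vector valued quadratic form -/
lemma qv_split {F : Finset β} (A : β → β → ℂ) (M : Submodule ℂ E) [M.HasOrthogonalProjection]
    (p : β → E) :
    qv F A p = qv F A (fun y => M.starProjection (p y)) +
      qv F A (fun y => p y - M.starProjection (p y)) := by
  unfold qv
  rw [← Complex.add_re, ← Finset.sum_add_distrib]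
  congr 1
  refine Finset.sum_congr rfl fun x _ => ?_
  rw [← Finset.sum_add_distrib]
  refine Finset.sum_congr rfl fun y _ => ?_
  rw [← mul_add]
  congr 1
  have h1 : inner ℂ (M.starProjection (p x)) (p y - M.starProjection (p y)) = (0 : ℂ) := by
    apply Submodule.inner_right_of_mem_orthogonal (K := M)
    · exact Submodule.starProjection_apply_mem M (p x)
    · exact Submodule.sub_starProjection_mem_orthogonal (p y)
  have h2 : inner ℂ (p x - M.starProjection (p x)) (M.starProjection (p y)) = (0 : ℂ) := by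
    apply Submodule.inner_left_of_mem_orthogonal (K := M)
    · exact Submodule.starProjection_apply_mem M (p y)
    · exact Submodule.sub_starProjection_mem_orthogonal (p x)
  calc inner ℂ (p x) (p y) = inner ℂ (M.starProjection (p x) + (p x - M.starProjection (p x)))
        (M.starProjection (p y) + (p y - M.starProjection (p y))) := by simp
    _ = _ := by
      rw [inner_add_left, inner_add_right, inner_add_right, h1, h2]
      ring

end MPa1177b
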